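import Pool.Agent.H319R3.PO.Defs
import Pool.Agent.H319R3.GC.W1

/-!
Task P2: nice words.
-/

set_option autoImplicit false

namespace Pool.Agent.H319R3.PO
open Pool.Agent.H319R3.GC Pool.Agent.H319R3.DN Finset Filter Topology

variable {d : ℕ} {m r : ℕ → ℤ}

theorem Nice.suffix {η : ℝ} {N0 : ℕ} {u v : List ℕ} (h : Nice d η N0 (u ++ v)) :
    Nice d η N0 v := by
  intro s h1 h2 i hi
  have h3 := h s h1 (by rw [List.length_append]; omega) i hi
  have e : (u ++ v).drop ((u ++ v).length - s) = v.drop (v.length - s) := by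
    rw [List.length_append, List.drop_append, List.drop_eq_nil_of_le (by omega), List.nil_append]
    congr 1
    omega
  rw [e] at h3
  exact h3

namespace P2

theorem m_ne_zero (h : Adm d m r) {i : ℕ} (hi : i < d) : m i ≠ 0 := by
  have h1 := Mw_ne_zero h (w := [i]) (by intro j hj; rw [List.mem_singleton] at hj; omega)
  simpa [Mw] using h1

theorem natAbs_cast_ne (h : Adm d m r) {i : ℕ} (hi : i < d) : ((m i).natAbs : ℝ) ≠ 0 := by
  have h1 := m_ne_zero h hi
  have h2 : (m i).natAbs ≠ 0 := by omega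
  exact_mod_cast h2

theorem abs_Mw (w : List ℕ) : |(Mw m w : ℝ)| = ((Mw m w).natAbs : ℝ) := by
  rw [Nat.cast_natAbs, Int.cast_abs]

theorem log_Mw (h : Adm d m r) {w : List ℕ} (hw : ∀ i ∈ w, i < d) :
    Real.log |(Mw m w : ℝ)| = ∑ i ∈ range d, (w.count i : ℝ) * Real.log ((m i).natAbs : ℝ) := by
  rw [abs_Mw, natAbs_Mw hw, Nat.cast_prod, Real.log_prod]
  · refine sum_congr rfl fun i _ => ?_
    rw [Nat.cast_pow, Real.log_pow]
  · intro i hi
    rw [Nat.cast_pow]
    exact pow_ne_zero _ (natAbs_cast_ne h (mem_range.1 hi))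

theorem log_PP (h : Adm d m r) :
    Real.log (PP d m : ℝ) = ∑ i ∈ range d, Real.log ((m i).natAbs : ℝ) := by
  unfold PP
  rw [Nat.cast_prod, Real.log_prod]
  intro i hi
  exact natAbs_cast_ne h (mem_range.1 hi)

theorem Mw_le (h : Adm d m r) {w : List ℕ} (hw : ∀ i ∈ w, i < d) :
    |(Mw m w : ℝ)| ≤ (PP d m : ℝ) ^ w.length := by
  rw [abs_Mw]
  have h1 : (Mw m w).natAbs ∣ PP d m ^ w.length := natAbs_Mw_dvd (mem_LW.2 ⟨rfl, hw⟩)
  have h2 : 0 < PP d m ^ w.length := Nat.pow_pos (by have := h.big; omega)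
  exact_mod_cast Nat.le_of_dvd h2 h1

theorem geom_le {c : ℝ} (hc : 0 < c) (k : ℕ) :
    ∑ s ∈ range k, Real.exp (-(c * s)) ≤ 1 / (1 - Real.exp (-c)) := by
  have h1 : Real.exp (-c) < 1 := by rw [Real.exp_lt_one_iff]; linarith
  have h2 : ∑ s ∈ range k, Real.exp (-(c * s)) = ∑ s ∈ range k, (Real.exp (-c)) ^ s := by
    refine sum_congr rfl fun s _ => ?_
    rw [← Real.exp_nat_mul]
    congr 1
    ring
  rw [h2, le_div_iff₀ (by linarith), geom_sum_mul_neg]
  have h3 : 0 ≤ Real.exp (-c) ^ k := by positivity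
  linarith

theorem ite_le {A : ℝ} (hA : 0 ≤ A) (N0 k : ℕ) :
    ∑ s ∈ range k, (if s < N0 then A else 0) ≤ N0 * A := by
  rw [← sum_filter, sum_const, nsmul_eq_mul]
  refine mul_le_mul_of_nonneg_right ?_ hA
  have h1 : (range k).filter (fun s => s < N0) ⊆ range N0 := by
    intro s hs
    exact mem_range.2 (mem_filter.1 hs).2
  have h2 := card_le_card h1
  rw [card_range] at h2
  exact_mod_cast h2

end P2

open P2

theorem nice_bounds (h : Adm d m r) : ∃ η c : ℝ, ∀ N0 : ℕ, ∃ C0 : ℝ, NB d m r η c C0 N0 := by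
  have hd := h.two_le
  have hd1 : (1 : ℝ) ≤ d := by exact_mod_cast (by omega : 1 ≤ d)
  have hd0 : (0 : ℝ) < d := by linarith
  obtain ⟨P, hP⟩ : ∃ P : ℝ, P = (PP d m : ℝ) := ⟨_, rfl⟩
  have hP2 : (2 : ℝ) ≤ P := by rw [hP]; exact_mod_cast h.big
  have hlP : 0 < Real.log P := Real.log_pos (by linarith)
  have hPd : P < (d : ℝ) ^ d := by rw [hP]; exact_mod_cast h.contr
  have hld : Real.log P < d * Real.log d := by
    have := Real.log_lt_log (by linarith) hPd
    rwa [Real.log_pow] at this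
  obtain ⟨Δ, hΔ⟩ : ∃ Δ : ℝ, Δ = d * Real.log d - Real.log P := ⟨_, rfl⟩
  have hΔ0 : 0 < Δ := by linarith
  obtain ⟨c, hc⟩ : ∃ c : ℝ, c = Δ / (2 * d) := ⟨_, rfl⟩
  obtain ⟨η, hη⟩ : ∃ η : ℝ, η = Δ / (2 * d * Real.log P) := ⟨_, rfl⟩
  have hc0 : 0 < c := by rw [hc]; positivity
  have hη0 : 0 < η := by rw [hη]; positivity
  have hrel : (1 / d + η) * Real.log P = Real.log d - c := by
    rw [hc, hη, hΔ]
    field_simp
    ring
  refine ⟨η, c, fun N0 => ?_⟩
  have hmul : ∀ w : List ℕ, (∀ i ∈ w, i < d) → Nice d η N0 w → N0 ≤ w.length →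
      |(Mw m w : ℝ)| ≤ (d : ℝ) ^ w.length * Real.exp (-(c * w.length)) := by
    intro w hw hn hl
    have hne : (Mw m w : ℝ) ≠ 0 := by exact_mod_cast Mw_ne_zero h hw
    have hpos : 0 < |(Mw m w : ℝ)| := abs_pos.2 hne
    have e1 : Real.log |(Mw m w : ℝ)| ≤ (w.length : ℝ) * (Real.log d - c) := by
      rw [log_Mw h hw, ← hrel]
      calc ∑ i ∈ range d, (w.count i : ℝ) * Real.log ((m i).natAbs : ℝ)
          ≤ ∑ i ∈ range d, ((w.length : ℝ) / d + η * w.length) * Real.log ((m i).natAbs : ℝ) := by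
            refine sum_le_sum fun i hi => mul_le_mul_of_nonneg_right ?_
              (Real.log_natCast_nonneg _)
            have h1 := hn w.length hl le_rfl i (mem_range.1 hi)
            rw [Nat.sub_self, List.drop_zero] at h1
            have h2 := (abs_le.1 h1).2
            linarith
        _ = w.length * ((1 / d + η) * Real.log P) := by
            rw [← mul_sum, hP, log_PP h]
            ring
    calc |(Mw m w : ℝ)| = Real.exp (Real.log |(Mw m w : ℝ)|) := (Real.exp_log hpos).symm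
      _ ≤ Real.exp ((w.length : ℝ) * (Real.log d - c)) := Real.exp_le_exp.2 e1
      _ = (d : ℝ) ^ w.length * Real.exp (-(c * w.length)) := by
        rw [show (w.length : ℝ) * (Real.log d - c) =
          Real.log d * (w.length : ℝ) + (-(c * w.length)) by ring, Real.exp_add, Real.exp_mul,
          Real.exp_log hd0, Real.rpow_natCast]
  obtain ⟨R, hR⟩ : ∃ R : ℝ, R = ∑ i ∈ range d, |(r i : ℝ)| := ⟨_, rfl⟩
  have hR0 : 0 ≤ R := by rw [hR]; exact sum_nonneg fun _ _ => abs_nonneg _
  have hRi : ∀ i < d, |(r i : ℝ)| ≤ R := by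
    intro i hi
    rw [hR]
    exact single_le_sum (f := fun i => |(r i : ℝ)|) (fun _ _ => abs_nonneg _) (mem_range.2 hi)
  obtain ⟨A, hA⟩ : ∃ A : ℝ, A = P ^ N0 := ⟨_, rfl⟩
  have hA0 : 0 ≤ A := by rw [hA]; positivity
  have hMw : ∀ w : List ℕ, (∀ i ∈ w, i < d) → Nice d η N0 w →
      |(Mw m w : ℝ)| ≤ (d : ℝ) ^ w.length * (Real.exp (-(c * w.length)) +
        if w.length < N0 then A else 0) := by
    intro w hw hn
    have hdw : (1 : ℝ) ≤ (d : ℝ) ^ w.length := one_le_pow₀ hd1
    by_cases hl : w.length < N0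
    · rw [if_pos hl]
      have h1 : |(Mw m w : ℝ)| ≤ A := by
        refine (Mw_le h hw).trans ?_
        rw [← hP, hA]
        exact pow_le_pow_right₀ (by linarith) hl.le
      have h2 : 0 < Real.exp (-(c * w.length)) := Real.exp_pos _
      calc |(Mw m w : ℝ)| ≤ 1 * (Real.exp (-(c * w.length)) + A) := by linarith
        _ ≤ (d : ℝ) ^ w.length * (Real.exp (-(c * w.length)) + A) :=
          mul_le_mul_of_nonneg_right hdw (by linarith)
    · rw [if_neg hl, add_zero]
      exact hmul w hw hn (by omega)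
  have hoff : ∀ w : List ℕ, (∀ i ∈ w, i < d) → Nice d η N0 w →
      |(Ww d m r w : ℝ)| ≤ (d : ℝ) ^ w.length * ∑ s ∈ range w.length,
        R * (Real.exp (-(c * s)) + if s < N0 then A else 0) := by
    intro w
    induction w with
    | nil => intro _ _; simp [Ww]
    | cons i w ih =>
      intro hw hn
      have hw' : ∀ j ∈ w, j < d := fun j hj => hw j (by simp [hj])
      have hn' : Nice d η N0 w := Nice.suffix (u := [i]) (by simpa using hn)
      have h1 := ih hw' hn'
      have h2 := hMw w hw' hn'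
      have h3 := hRi i (hw i (by simp))
      have hdw : (0 : ℝ) ≤ (d : ℝ) ^ w.length := by positivity
      simp only [Ww]
      push_cast
      rw [List.length_cons, sum_range_succ, pow_succ]
      have h4 : |(r i : ℝ) * (Mw m w : ℝ) + d * (Ww d m r w : ℝ)| ≤
          R * |(Mw m w : ℝ)| + d * |(Ww d m r w : ℝ)| := by
        refine (abs_add_le _ _).trans ?_
        rw [abs_mul, abs_mul, abs_of_pos hd0]
        have := mul_le_mul_of_nonneg_right h3 (abs_nonneg (Mw m w : ℝ))
        linarith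
      refine h4.trans ?_
      have hit : (0 : ℝ) ≤ if w.length < N0 then A else 0 := by split_ifs <;> linarith
      have hE : 0 < Real.exp (-(c * w.length)) := Real.exp_pos _
      have h5 : R * |(Mw m w : ℝ)| ≤ (d : ℝ) ^ w.length * d *
          (R * (Real.exp (-(c * w.length)) + if w.length < N0 then A else 0)) := by
        calc R * |(Mw m w : ℝ)| ≤ R * ((d : ℝ) ^ w.length * (Real.exp (-(c * w.length)) +
              if w.length < N0 then A else 0)) := mul_le_mul_of_nonneg_left h2 hR0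
          _ = ((d : ℝ) ^ w.length * 1) * (R * (Real.exp (-(c * w.length)) +
              if w.length < N0 then A else 0)) := by ring
          _ ≤ ((d : ℝ) ^ w.length * d) * (R * (Real.exp (-(c * w.length)) +
              if w.length < N0 then A else 0)) := by
            refine mul_le_mul_of_nonneg_right (mul_le_mul_of_nonneg_left hd1 hdw) ?_
            exact mul_nonneg hR0 (by linarith)
      have h6 := mul_le_mul_of_nonneg_left h1 hd0.le
      rw [mul_add]
      linarith
  refine ⟨1 + R * (1 / (1 - Real.exp (-c)) + N0 * A), hη0, hc0, ?_, ?_, hmul⟩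
  · have h1 : Real.exp (-c) < 1 := by rw [Real.exp_lt_one_iff]; linarith
    have h2 : 0 ≤ 1 / (1 - Real.exp (-c)) := by
      apply div_nonneg zero_le_one
      linarith
    have h3 : 0 ≤ R * (1 / (1 - Real.exp (-c)) + N0 * A) :=
      mul_nonneg hR0 (add_nonneg h2 (mul_nonneg (Nat.cast_nonneg _) hA0))
    linarith
  · intro w hw hn
    refine (hoff w hw hn).trans ?_
    rw [mul_comm]
    refine mul_le_mul_of_nonneg_right ?_ (by positivity)
    rw [← mul_sum, sum_add_distrib]
    have h1 := geom_le hc0 w.length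
    have h2 := ite_le hA0 N0 w.length
    have h3 := mul_le_mul_of_nonneg_left (add_le_add h1 h2) hR0
    linarith

end Pool.Agent.H319R3.PO
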