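import Pool.Agent.H319R3.PO.Defs
import Pool.Agent.H319R3.GC.W1
import Pool.Agent.H319R3.GC.M2

/-! Task P3: large deviations (helper114). -/

set_option autoImplicit false

namespace Pool.Agent.H319R3.PO
open Pool.Agent.H319R3.GC Pool.Agent.H319R3.DN Finset Filter Topology

variable {d : ℕ}

open scoped Classical in
theorem dev_prob (hd : 2 ≤ d) {η : ℝ} (hη : 0 < η) : ∃ c : ℝ, 0 < c ∧ ∀ s b : ℕ, s ≤ b →
    (((LW d b).filter fun u => ∃ i < d,
      η * s < |((u.drop (b - s)).count i : ℝ) - (s : ℝ) / d|).card : ℝ)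
      ≤ 2 * d * ((d : ℝ) ^ b * Real.exp (-(c * s))) := by
  obtain ⟨c, hc, h⟩ := typical hd hη
  refine ⟨c, hc, fun s b hsb => ?_⟩
  obtain ⟨t, rfl⟩ : ∃ t, b = t + s := ⟨b - s, by omega⟩
  have h1 := h s
  have h2 : ((LW d (t + s)).filter fun u => ∃ i < d,
      η * s < |((u.drop (t + s - s)).count i : ℝ) - (s : ℝ) / d|).card =
      d ^ t * ((LW d s).filter fun w => ∃ i < d, η * s < |(w.count i : ℝ) - s / d|).card := by
    rw [Finset.card_filter, sum_LW_add]
    have h3 : ∀ u ∈ LW d t, ∑ v ∈ LW d s, (if ∃ i < d,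
        η * s < |(((u ++ v).drop (t + s - s)).count i : ℝ) - (s : ℝ) / d| then 1 else 0) =
        ((LW d s).filter fun w => ∃ i < d, η * s < |(w.count i : ℝ) - s / d|).card := by
      intro u hu
      rw [Finset.card_filter]
      refine Finset.sum_congr rfl fun v _ => ?_
      have h4 : (u ++ v).drop (t + s - s) = v := by
        rw [Nat.add_sub_cancel, ← (mem_LW.1 hu).1, List.drop_left]
      rw [h4]
    rw [Finset.sum_congr rfl h3, Finset.sum_const, card_LW, smul_eq_mul]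
  rw [h2]
  push_cast
  have h5 : (((LW d s).filter fun w => ∃ i < d, η * s < |(w.count i : ℝ) - s / d|).card : ℝ)
      ≤ 2 * d * ((d : ℝ) ^ s * Real.exp (-(c * s))) := by
    refine le_of_eq_of_le ?_ h1
    exact congrArg (fun F : Finset (List ℕ) => (F.card : ℝ)) (Finset.filter_congr_decidable _ _ _)
  calc (d : ℝ) ^ t * (((LW d s).filter fun w => ∃ i < d,
        η * s < |(w.count i : ℝ) - s / d|).card : ℝ)
      ≤ (d : ℝ) ^ t * (2 * d * ((d : ℝ) ^ s * Real.exp (-(c * s)))) := by gcongr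
    _ = 2 * d * ((d : ℝ) ^ (t + s) * Real.exp (-(c * s))) := by
        rw [pow_add]
        ring

open scoped Classical in
theorem nice_prob (hd : 2 ≤ d) {η : ℝ} (hη : 0 < η) {ε : ℝ} (hε : 0 < ε) : ∃ N0 : ℕ, ∀ k : ℕ,
    (((LW d k).filter fun w => ¬ Nice d η N0 w).card : ℝ) ≤ ε * (d : ℝ) ^ k := by
  obtain ⟨c, hc, h⟩ := dev_prob hd hη
  have hd0 : (0 : ℝ) < d := by exact_mod_cast (by omega : 0 < d)
  have hr1 : Real.exp (-c) < 1 := by
    rw [Real.exp_lt_one_iff]
    linarith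
  have hsum : Summable fun s : ℕ => Real.exp (-c) ^ s :=
    summable_geometric_of_lt_one (Real.exp_pos _).le hr1
  obtain ⟨S, hS⟩ := summable_iff_vanishing_norm.1 hsum (ε / (2 * d)) (by positivity)
  refine ⟨S.sup id + 1, fun k => ?_⟩
  have hsub : ((LW d k).filter fun w => ¬ Nice d η (S.sup id + 1) w) ⊆
      (Icc (S.sup id + 1) k).biUnion fun s => (LW d k).filter fun u => ∃ i < d,
        η * s < |((u.drop (k - s)).count i : ℝ) - (s : ℝ) / d| := by
    intro w hw
    rw [Finset.mem_filter] at hw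
    obtain ⟨hw1, hw2⟩ := hw
    unfold Nice at hw2
    push Not at hw2
    obtain ⟨s, hs1, hs2, i, hi, hlt⟩ := hw2
    rw [(mem_LW.1 hw1).1] at hs2 hlt
    rw [Finset.mem_biUnion]
    exact ⟨s, Finset.mem_Icc.2 ⟨hs1, hs2⟩, Finset.mem_filter.2 ⟨hw1, i, hi, hlt⟩⟩
  have hdisj : Disjoint (Icc (S.sup id + 1) k) S := by
    rw [Finset.disjoint_left]
    intro s hs hs'
    have h1 : s ≤ S.sup id := Finset.le_sup (f := id) hs'
    have h2 := (Finset.mem_Icc.1 hs).1
    omega
  have htail := hS _ hdisj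
  rw [Real.norm_eq_abs] at htail
  calc (((LW d k).filter fun w => ¬ Nice d η (S.sup id + 1) w).card : ℝ)
      ≤ (((Icc (S.sup id + 1) k).biUnion fun s => (LW d k).filter fun u => ∃ i < d,
        η * s < |((u.drop (k - s)).count i : ℝ) - (s : ℝ) / d|).card : ℝ) := by
        exact_mod_cast Finset.card_le_card hsub
    _ ≤ ∑ s ∈ Icc (S.sup id + 1) k, (((LW d k).filter fun u => ∃ i < d,
        η * s < |((u.drop (k - s)).count i : ℝ) - (s : ℝ) / d|).card : ℝ) := by
        exact_mod_cast Finset.card_biUnion_le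
    _ ≤ ∑ s ∈ Icc (S.sup id + 1) k, 2 * d * ((d : ℝ) ^ k * Real.exp (-(c * s))) :=
        Finset.sum_le_sum fun s hs => h s k (Finset.mem_Icc.1 hs).2
    _ = 2 * d * (d : ℝ) ^ k * ∑ s ∈ Icc (S.sup id + 1) k, Real.exp (-c) ^ s := by
        rw [Finset.mul_sum]
        refine Finset.sum_congr rfl fun s _ => ?_
        rw [← Real.exp_nat_mul]
        have : (s : ℝ) * -c = -(c * s) := by ring
        rw [this]
        ring
    _ ≤ 2 * d * (d : ℝ) ^ k * (ε / (2 * d)) := by
        gcongr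
        exact (le_abs_self _).trans htail.le
    _ = ε * (d : ℝ) ^ k := by
        field_simp

end Pool.Agent.H319R3.PO
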