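import Pool.Agent.H319R3.PO.Defs
import Pool.Agent.H319R3.GC.W1
import Pool.Agent.H319R3.GC.S2

/-! The pointwise mass bound (task P4). -/

set_option autoImplicit false

namespace Pool.Agent.H319R3.PO
open Pool.Agent.H319R3.GC Pool.Agent.H319R3.DN Finset Filter Topology

variable {d : ℕ} {m r : ℕ → ℤ}

/-- number of members of a finite set in an interval and a class -/
theorem P4_count (Z : Finset ℤ) {A B : ℝ} (hAB : A ≤ B) (hZ : ∀ x ∈ Z, A ≤ (x : ℝ) ∧ (x : ℝ) ≤ B)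
    {Q : ℕ} (hQ : 0 < Q) (c : ℤ) :
    (((Z.filter fun z => (Q : ℤ) ∣ z - c).card : ℕ) : ℝ) ≤ (B - A) / Q + 1 := by
  have hQr : (0 : ℝ) < Q := by exact_mod_cast hQ
  have hQZ : (Q : ℤ) ≠ 0 := by exact_mod_cast hQ.ne'
  have hcard : (Z.filter fun z => (Q : ℤ) ∣ z - c).card
      ≤ (Finset.Icc ⌈(A - c) / Q⌉ ⌊(B - c) / Q⌋).card := by
    refine Finset.card_le_card_of_injOn (fun z => (z - c) / (Q : ℤ)) ?_ ?_
    · intro z hz
      have hz' := mem_filter.1 (Finset.mem_coe.1 hz)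
      obtain ⟨t, ht⟩ := hz'.2
      obtain ⟨h1, h2⟩ := hZ z hz'.1
      have hzt : (z - c) / (Q : ℤ) = t := by rw [ht]; exact Int.mul_ediv_cancel_left t hQZ
      have hx : (z : ℝ) - c = Q * t := by exact_mod_cast ht
      rw [Finset.mem_coe, Finset.mem_Icc]
      show ⌈(A - c) / Q⌉ ≤ (z - c) / (Q : ℤ) ∧ (z - c) / (Q : ℤ) ≤ ⌊(B - c) / Q⌋
      rw [hzt]
      constructor
      · rw [Int.ceil_le, div_le_iff₀ hQr]; linarith
      · rw [Int.le_floor, le_div_iff₀ hQr]; linarith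
    · intro z hz z' hz' he
      obtain ⟨t, ht⟩ := (mem_filter.1 (Finset.mem_coe.1 hz)).2
      obtain ⟨t', ht'⟩ := (mem_filter.1 (Finset.mem_coe.1 hz')).2
      have he' : (z - c) / (Q : ℤ) = (z' - c) / (Q : ℤ) := he
      rw [ht, ht', Int.mul_ediv_cancel_left t hQZ, Int.mul_ediv_cancel_left t' hQZ] at he'
      rw [he'] at ht
      linarith
  refine le_trans (Nat.cast_le.2 hcard) ?_
  rw [Int.card_Icc]
  have hA := Int.le_ceil ((A - c) / (Q : ℝ))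
  have hB := Int.floor_le ((B - c) / (Q : ℝ))
  have h8 : (B - A) / Q = (B - c) / Q - (A - c) / Q := by ring
  have h9 : 0 ≤ (B - A) / (Q : ℝ) := div_nonneg (by linarith) hQr.le
  rcases le_or_gt 0 (⌊(B - c) / Q⌋ + 1 - ⌈(A - c) / Q⌉) with h0 | h0
  · have h5 : (((⌊(B - c) / Q⌋ + 1 - ⌈(A - c) / Q⌉).toNat : ℤ) : ℝ)
        = ((⌊(B - c) / Q⌋ + 1 - ⌈(A - c) / Q⌉ : ℤ) : ℝ) := by
      rw [Int.toNat_of_nonneg h0]
    rw [Int.cast_natCast] at h5
    rw [h5]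
    push_cast
    linarith
  · rw [Int.toNat_of_nonpos h0.le]
    push_cast
    linarith

theorem P4_pre_mul {y : ℤ} {w : List ℕ} (hy : Vl d m r y w) :
    Mw m w * pre d m r y w = (d : ℤ) ^ w.length * y + Ww d m r w :=
  Int.mul_ediv_cancel' hy

open scoped Classical in
theorem mass (h : Adm d m r) {η c C0 : ℝ} {N0 : ℕ} (hn : NB d m r η c C0 N0) {a : ℕ} (ha : N0 ≤ a)
    (y : ℤ) {N' : ℕ} (hN' : 0 < N') {φ : ℤ → ℝ} (hφ : ∀ x, φ (x + N') = φ x) (hφ0 : ∀ x, 0 ≤ φ x) :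
    ∑ v ∈ (LW d a).filter (fun v => Nice d η N0 v ∧ Vl d m r y v), wt d m v * φ (pre d m r y v)
      ≤ ((a : ℝ) + 1) ^ d * (2 * C0 / N' + Real.exp (-(c * a))) * ∑ e ∈ range N', φ (e : ℤ) := by
  have hd : (0 : ℝ) < d := by
    have := h.two_le
    exact_mod_cast (by omega : 0 < d)
  have hda : (0 : ℝ) < (d : ℝ) ^ a := pow_pos hd a
  have hN'r : (0 : ℝ) < N' := by exact_mod_cast hN'
  have hC0 : 0 < C0 := by linarith [hn.one_le]
  obtain ⟨Φ, hΦ⟩ : ∃ Φ, Φ = ∑ e ∈ range N', φ (e : ℤ) := ⟨_, rfl⟩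
  have hΦ0 : 0 ≤ Φ := by rw [hΦ]; exact Finset.sum_nonneg fun _ _ => hφ0 _
  rw [← hΦ]
  obtain ⟨F, hF⟩ : ∃ F : Finset (List ℕ), F = (LW d a).filter
      (fun v => Nice d η N0 v ∧ Vl d m r y v) := ⟨_, rfl⟩
  rw [← hF]
  have hmaps : ∀ v ∈ F, Mw m v ∈ Ms d m a := by
    intro v hv
    rw [hF, mem_filter] at hv
    exact Finset.mem_image_of_mem _ hv.1
  rw [← Finset.sum_fiberwise_of_maps_to hmaps]
  -- one group
  have hone : ∀ M ∈ Ms d m a, ∑ v ∈ F.filter (fun v => Mw m v = M), wt d m v * φ (pre d m r y v)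
      ≤ (2 * C0 / N' + Real.exp (-(c * a))) * Φ := by
    intro M _
    obtain ⟨FM, hFM⟩ : ∃ FM : Finset (List ℕ), FM = F.filter (fun v => Mw m v = M) := ⟨_, rfl⟩
    rw [← hFM]
    have hmem : ∀ v ∈ FM, (v.length = a ∧ ∀ i ∈ v, i < d) ∧ Nice d η N0 v ∧ Vl d m r y v ∧
        Mw m v = M := by
      intro v hv
      rw [hFM, mem_filter, hF, mem_filter] at hv
      exact ⟨mem_LW.1 hv.1.1, hv.1.2.1, hv.1.2.2, hv.2⟩
    rcases FM.eq_empty_or_nonempty with he | ⟨v₀, hv₀⟩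
    · rw [he, Finset.sum_empty]
      have := Real.exp_pos (-(c * a))
      positivity
    obtain ⟨⟨hl₀, hd₀⟩, hn₀, hV₀, hM₀⟩ := hmem v₀ hv₀
    have hM0 : M ≠ 0 := by rw [← hM₀]; exact Mw_ne_zero h hd₀
    have hMr : (M : ℝ) ≠ 0 := by exact_mod_cast hM0
    have hMpos : 0 < |(M : ℝ)| := abs_pos.2 hMr
    have hMle : |(M : ℝ)| ≤ (d : ℝ) ^ a * Real.exp (-(c * a)) := by
      have := hn.mul v₀ hd₀ hn₀ (by omega)
      rw [hM₀, hl₀] at this
      exact this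
    have hsum : ∑ v ∈ FM, wt d m v * φ (pre d m r y v)
        = |(M : ℝ)| / (d : ℝ) ^ a * ∑ v ∈ FM, φ (pre d m r y v) := by
      rw [Finset.mul_sum]
      refine Finset.sum_congr rfl fun v hv => ?_
      obtain ⟨⟨hl, _⟩, _, _, hMv⟩ := hmem v hv
      unfold wt
      rw [hMv, hl]
    have hinj : Set.InjOn (fun v => pre d m r y v) (FM : Set (List ℕ)) := by
      intro v hv v' hv' hee
      obtain ⟨⟨hl, hvd⟩, _, hV, hMv⟩ := hmem v (Finset.mem_coe.1 hv)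
      obtain ⟨⟨hl', hvd'⟩, _, hV', hMv'⟩ := hmem v' (Finset.mem_coe.1 hv')
      have h1 := P4_pre_mul hV
      have h2 := P4_pre_mul hV'
      have hee' : pre d m r y v = pre d m r y v' := hee
      rw [hMv, hee', hl] at h1
      rw [hMv', hl'] at h2
      exact Ww_inj h hvd hvd' (hl.trans hl'.symm) (hMv.trans hMv'.symm) (by linarith)
    have hZ : ∑ v ∈ FM, φ (pre d m r y v) = ∑ x ∈ FM.image (fun v => pre d m r y v), φ x :=
      (Finset.sum_image hinj).symm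
    obtain ⟨ρ, hρ⟩ : ∃ ρ, ρ = C0 * (d : ℝ) ^ a / |(M : ℝ)| := ⟨_, rfl⟩
    have hρ0 : 0 < ρ := by rw [hρ]; positivity
    obtain ⟨α, hα⟩ : ∃ α, α = (d : ℝ) ^ a * y / M := ⟨_, rfl⟩
    have hint : ∀ x ∈ FM.image (fun v => pre d m r y v), α - ρ ≤ (x : ℝ) ∧ (x : ℝ) ≤ α + ρ := by
      intro x hx
      obtain ⟨v, hv, rfl⟩ := Finset.mem_image.1 hx
      obtain ⟨⟨hl, hvd⟩, hnv, hV, hMv⟩ := hmem v hv
      have h1 := P4_pre_mul hV
      rw [hMv, hl] at h1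
      have h2 : (M : ℝ) * (pre d m r y v : ℝ) = (d : ℝ) ^ a * y + Ww d m r v := by exact_mod_cast h1
      have h3 := hn.off v hvd hnv
      rw [hl] at h3
      have h4 : (pre d m r y v : ℝ) - α = (Ww d m r v : ℝ) / M := by
        rw [hα]
        field_simp
        linarith
      have h5 : |(pre d m r y v : ℝ) - α| ≤ ρ := by
        rw [h4, abs_div, hρ]
        gcongr
      have h6 := abs_le.1 h5
      exact ⟨by linarith [h6.1], by linarith [h6.2]⟩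
    have hK := s2_sum_classes (FM.image (fun v => pre d m r y v)) hN' hφ hφ0
      (K := (2 * ρ) / N' + 1) (by
        intro e
        have := P4_count (FM.image (fun v => pre d m r y v)) (by linarith : α - ρ ≤ α + ρ) hint hN' e
        have e1 : α + ρ - (α - ρ) = 2 * ρ := by ring
        rw [e1] at this
        exact this)
    rw [← hΦ] at hK
    rw [hsum, hZ]
    have hfac : |(M : ℝ)| / (d : ℝ) ^ a * ((2 * ρ) / N' + 1)
        ≤ 2 * C0 / N' + Real.exp (-(c * a)) := by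
      have h1 : |(M : ℝ)| / (d : ℝ) ^ a * ((2 * ρ) / N' + 1)
          = 2 * C0 / N' + |(M : ℝ)| / (d : ℝ) ^ a := by
        rw [hρ]
        field_simp
      have h2 : |(M : ℝ)| / (d : ℝ) ^ a ≤ Real.exp (-(c * a)) := by
        rw [div_le_iff₀ hda]
        linarith
      linarith
    calc |(M : ℝ)| / (d : ℝ) ^ a * ∑ x ∈ FM.image (fun v => pre d m r y v), φ x
        ≤ |(M : ℝ)| / (d : ℝ) ^ a * (((2 * ρ) / N' + 1) * Φ) :=
          mul_le_mul_of_nonneg_left hK (by positivity)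
      _ = (|(M : ℝ)| / (d : ℝ) ^ a * ((2 * ρ) / N' + 1)) * Φ := by ring
      _ ≤ (2 * C0 / N' + Real.exp (-(c * a))) * Φ := mul_le_mul_of_nonneg_right hfac hΦ0
  refine le_trans (Finset.sum_le_sum hone) ?_
  rw [Finset.sum_const, nsmul_eq_mul]
  have hcardMs : ((Ms d m a).card : ℝ) ≤ ((a : ℝ) + 1) ^ d := by
    have := card_Ms (d := d) (m := m) a
    exact_mod_cast this
  have hexp := Real.exp_pos (-(c * a))
  have hnn : 0 ≤ (2 * C0 / N' + Real.exp (-(c * a))) * Φ := by positivity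
  calc ((Ms d m a).card : ℝ) * ((2 * C0 / N' + Real.exp (-(c * a))) * Φ)
      ≤ ((a : ℝ) + 1) ^ d * ((2 * C0 / N' + Real.exp (-(c * a))) * Φ) :=
        mul_le_mul_of_nonneg_right hcardMs hnn
    _ = ((a : ℝ) + 1) ^ d * (2 * C0 / N' + Real.exp (-(c * a))) * Φ := by ring

end Pool.Agent.H319R3.PO
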