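import Pool.Agent.H319R3.PO.P1
import Pool.Agent.H319R3.PO.P4

/-! P7: bound of `Ua` by the density of the collection of free words. -/

set_option autoImplicit false

namespace Pool.Agent.H319R3.PO
open Pool.Agent.H319R3.GC Pool.Agent.H319R3.DN Finset Filter Topology

variable {d : ℕ} {m r : ℕ → ℤ}

open scoped Classical in
private theorem Ua_eq {η : ℝ} {N0 a b : ℕ} (Co : List ℕ → Prop) (y : ℤ) :
    Ua d m r η N0 a b Co y = ∑ u ∈ (LW d b).filter Co, wt d m u *
      ∑ v ∈ (LW d a).filter (fun v => Nice d η N0 v ∧ Vl d m r y v),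
        wt d m v * (if Vl d m r (pre d m r y v) u then (1 : ℝ) else 0) := by
  unfold Ua
  have h1 : ∀ v ∈ (LW d a).filter (fun v => Nice d η N0 v ∧ Vl d m r y v),
      wt d m v * ∑ u ∈ (LW d b).filter (fun u => Co u ∧ Vl d m r (pre d m r y v) u), wt d m u =
      ∑ u ∈ (LW d b).filter Co,
        wt d m u * (wt d m v * (if Vl d m r (pre d m r y v) u then (1 : ℝ) else 0)) := by
    intro v _
    rw [← Finset.filter_filter, Finset.sum_filter, Finset.mul_sum]
    refine Finset.sum_congr rfl fun u _ => ?_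
    split_ifs <;> ring
  rw [Finset.sum_congr rfl h1, Finset.sum_comm]
  refine Finset.sum_congr rfl fun u _ => ?_
  rw [Finset.mul_sum]

open scoped Classical in
theorem Ua_le (h : Adm d m r) {η c C0 : ℝ} {N0 : ℕ} (hn : NB d m r η c C0 N0) {a b : ℕ}
    (ha : N0 ≤ a) (hab : (PP d m : ℝ) ^ b ≤ Real.exp (c * a)) (Co : List ℕ → Prop) (y : ℤ) :
    Ua d m r η N0 a b Co y
      ≤ ((a : ℝ) + 1) ^ d * (2 * C0 + 1) * ((((LW d b).filter Co).card : ℝ) / (d : ℝ) ^ b) := by
  rw [Ua_eq]
  have hd : (0 : ℝ) < (d : ℝ) := by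
    have := h.two_le
    exact_mod_cast (by omega : 0 < d)
  have hdb : (0 : ℝ) < (d : ℝ) ^ b := pow_pos hd b
  have hPP : 0 < PP d m := by have := h.big; omega
  have key : ∀ u ∈ (LW d b).filter Co, wt d m u *
      ∑ v ∈ (LW d a).filter (fun v => Nice d η N0 v ∧ Vl d m r y v),
        wt d m v * (if Vl d m r (pre d m r y v) u then (1 : ℝ) else 0)
      ≤ ((a : ℝ) + 1) ^ d * (2 * C0 + 1) * (1 / (d : ℝ) ^ b) := by
    intro u hu
    have huL : u ∈ LW d b := (Finset.mem_filter.1 hu).1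
    obtain ⟨hlen, hlt⟩ := mem_LW.1 huL
    have hM0 : Mw m u ≠ 0 := Mw_ne_zero h hlt
    have hN : 0 < (Mw m u).natAbs := Int.natAbs_pos.2 hM0
    have hNR : (0 : ℝ) < ((Mw m u).natAbs : ℝ) := by exact_mod_cast hN
    have hper : ∀ x : ℤ, (if Vl d m r (x + (Mw m u).natAbs) u then (1 : ℝ) else 0) =
        (if Vl d m r x u then (1 : ℝ) else 0) := by
      intro x
      by_cases hx : Vl d m r x u
      · rw [if_pos hx, if_pos ((Vl_per h huL x).2 hx)]
      · rw [if_neg hx, if_neg (fun h' => hx ((Vl_per h huL x).1 h'))]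
    have hnn : ∀ x : ℤ, 0 ≤ (if Vl d m r x u then (1 : ℝ) else 0) := by
      intro x
      split_ifs <;> norm_num
    have hmass := mass h hn ha y hN (φ := fun x => if Vl d m r x u then (1 : ℝ) else 0) hper hnn
    have hsum : ∑ e ∈ range (Mw m u).natAbs, (if Vl d m r ((e : ℕ) : ℤ) u then (1 : ℝ) else 0)
        = 1 := by
      rw [← Finset.sum_filter, Finset.sum_const, Vl_card h huL]
      norm_num
    rw [hsum, mul_one] at hmass
    have hwt : wt d m u = ((Mw m u).natAbs : ℝ) / (d : ℝ) ^ b := by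
      unfold wt
      rw [hlen]
      congr 1
      rw [Nat.cast_natAbs]
      push_cast
      rfl
    have hle : ((Mw m u).natAbs : ℝ) ≤ Real.exp (c * a) := by
      refine le_trans ?_ hab
      have h1 : (Mw m u).natAbs ≤ PP d m ^ b := Nat.le_of_dvd (pow_pos hPP b) (natAbs_Mw_dvd huL)
      exact_mod_cast h1
    have hmul : ((Mw m u).natAbs : ℝ) * Real.exp (-(c * a)) ≤ 1 := by
      rw [Real.exp_neg]
      rw [← div_eq_mul_inv, div_le_one (Real.exp_pos _)]
      exact hle
    have hA : (0 : ℝ) ≤ ((a : ℝ) + 1) ^ d := by positivity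
    calc wt d m u * ∑ v ∈ (LW d a).filter (fun v => Nice d η N0 v ∧ Vl d m r y v),
        wt d m v * (if Vl d m r (pre d m r y v) u then (1 : ℝ) else 0)
        ≤ wt d m u * (((a : ℝ) + 1) ^ d *
          (2 * C0 / (Mw m u).natAbs + Real.exp (-(c * a)))) :=
          mul_le_mul_of_nonneg_left hmass (wt_nonneg u)
      _ = ((a : ℝ) + 1) ^ d * (2 * C0 + ((Mw m u).natAbs : ℝ) * Real.exp (-(c * a))) *
          (1 / (d : ℝ) ^ b) := by
          rw [hwt]
          field_simp
      _ ≤ ((a : ℝ) + 1) ^ d * (2 * C0 + 1) * (1 / (d : ℝ) ^ b) := by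
          apply mul_le_mul_of_nonneg_right _ (by positivity)
          apply mul_le_mul_of_nonneg_left _ hA
          linarith
  calc ∑ u ∈ (LW d b).filter Co, wt d m u *
      ∑ v ∈ (LW d a).filter (fun v => Nice d η N0 v ∧ Vl d m r y v),
        wt d m v * (if Vl d m r (pre d m r y v) u then (1 : ℝ) else 0)
      ≤ ∑ u ∈ (LW d b).filter Co, ((a : ℝ) + 1) ^ d * (2 * C0 + 1) * (1 / (d : ℝ) ^ b) :=
        Finset.sum_le_sum key
    _ = ((a : ℝ) + 1) ^ d * (2 * C0 + 1) * ((((LW d b).filter Co).card : ℝ) / (d : ℝ) ^ b) := by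
        rw [Finset.sum_const, nsmul_eq_mul]
        ring

end Pool.Agent.H319R3.PO
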