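import Pool.Agent.H319R3.PO.Defs
import Pool.Agent.H319R3.GC.D1
import Pool.Agent.H319R3.GC.TG

/-! Decay of the nonuniformity of the digit above the multiplier, summed over all multipliers. -/

set_option autoImplicit false

namespace Pool.Agent.H319R3.PO
open Pool.Agent.H319R3.GC Pool.Agent.H319R3.DN Finset Filter Topology

variable {d : ℕ} {m r : ℕ → ℤ}

theorem P5_exp (q : ℕ) {c : ℝ} (hc : 0 < c) : ∃ C : ℝ, 0 < C ∧ ∀ j : ℝ, 1 ≤ j →
    Real.exp (-(c * j)) ≤ C / j ^ q := by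
  refine ⟨(q.factorial : ℝ) / c ^ q, by positivity, ?_⟩
  intro j hj
  have hj0 : 0 < j := by linarith
  have h1 := Real.pow_div_factorial_le_exp (c * j) (by positivity) q
  rw [Real.exp_neg, inv_eq_one_div, div_le_div_iff₀ (Real.exp_pos _) (by positivity), one_mul]
  rw [div_mul_eq_mul_div, le_div_iff₀ (by positivity)]
  rw [mul_pow, div_le_iff₀ (by positivity)] at h1
  linarith

/-- every multiplier is nonzero -/
theorem P5_pos (h : Adm d m r) {b : ℕ} {M : ℤ} (hM : M ∈ Ms d m b) : 0 < M.natAbs := by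
  obtain ⟨w, hw, rfl⟩ := mem_image.1 hM
  exact Int.natAbs_pos.2 (Mw_ne_zero h (mem_LW.1 hw).2)

/-- the trivial bound -/
theorem P5_triv (h : Adm d m r) (b : ℕ) :
    ∑ M ∈ Ms d m b, Gam (gr d m b M) (Ww d m r) M.natAbs (PP d m) ≤ PP d m * (d : ℝ) ^ b := by
  have hP : 1 ≤ PP d m := by have := h.big; omega
  rw [← sum_card_gr (d := d) (m := m) b, Finset.mul_sum]
  refine Finset.sum_le_sum fun M hM => ?_
  refine (Gam_le _ _ (P5_pos h hM) hP).trans ?_
  refine mul_le_mul_of_nonneg_right (by linarith) (Nat.cast_nonneg _)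

theorem decay_groups (h : Adm d m r) (q : ℕ) : ∃ C : ℝ, 0 < C ∧ ∀ b : ℕ, 1 ≤ b →
    ∑ M ∈ Ms d m b, Gam (gr d m b M) (Ww d m r) M.natAbs (PP d m) ≤ C * (d : ℝ) ^ b / (b : ℝ) ^ q := by
  classical
  set E : ℕ := q + d with hE
  obtain ⟨δ, C', hδ, hδ1, hC', hdec⟩ := decay h (2 * E)
  set P : ℕ := PP d m with hPdef
  have hP2 : 2 ≤ P := h.big
  have hP1 : 1 ≤ P := by omega
  have hPR : (0 : ℝ) < P := by exact_mod_cast (by omega : 0 < P)
  have hd2 := h.two_le
  have hd0 : (0 : ℝ) < d := by exact_mod_cast (by omega : 0 < d)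
  have hd2' : (2 : ℝ) ≤ d := by exact_mod_cast hd2
  set η : ℝ := δ / (4 * d) with hη
  have hη0 : 0 < η := by positivity
  obtain ⟨c, hc0, htyp⟩ := typical hd2 hη0
  obtain ⟨C2, hC2, hexp⟩ := P5_exp q hc0
  set b0 : ℝ := 12 * d / δ with hb0
  have hb0pos : 0 < b0 := by positivity
  set K1 : ℝ := C' * (2 * d) ^ E * 2 ^ d with hK1
  set K2 : ℝ := P * (2 * d * C2) with hK2
  set K3 : ℝ := P * b0 ^ q with hK3
  have hK1' : 0 < K1 := by positivity
  have hK2' : 0 < K2 := by positivity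
  have hK3' : 0 < K3 := by positivity
  refine ⟨K1 + K2 + K3, by positivity, ?_⟩
  intro b hb
  have hb1 : (1 : ℝ) ≤ b := by exact_mod_cast hb
  have hbR : (0 : ℝ) < b := by linarith
  have hdb : (0 : ℝ) < (d : ℝ) ^ b := by positivity
  by_cases hsmall : (b : ℝ) < b0
  · refine (P5_triv h b).trans ?_
    rw [← hPdef, le_div_iff₀ (by positivity)]
    have h2 : (b : ℝ) ^ q ≤ b0 ^ q := by gcongr
    calc (P : ℝ) * (d : ℝ) ^ b * (b : ℝ) ^ q ≤ P * (d : ℝ) ^ b * b0 ^ q := by gcongr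
      _ = K3 * (d : ℝ) ^ b := by rw [hK3]; ring
      _ ≤ (K1 + K2 + K3) * (d : ℝ) ^ b := mul_le_mul_of_nonneg_right (by linarith) hdb.le
  rw [not_lt] at hsmall
  -- the typical range
  have hbδ : 12 * d ≤ b * δ := by
    rw [hb0, div_le_iff₀ hδ] at hsmall
    exact hsmall
  set B : ℝ := (b : ℝ) / d with hB
  have hB0 : 0 < B := by positivity
  have hBb : (b : ℝ) = d * B := by rw [hB]; field_simp
  have hBδ : 12 ≤ B * δ := by
    rw [hBb] at hbδ
    have : d * 12 ≤ d * (B * δ) := by linarith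
    exact le_of_mul_le_mul_left this hd0
  have hB12 : 12 ≤ B := by nlinarith
  have hηb : η * b = δ / 4 * B := by rw [hη, hBb]; field_simp
  set i₁ : ℕ := ⌊B - δ / 4 * B⌋₊ with hi₁
  set i₂ : ℕ := ⌈B + δ / 4 * B⌉₊ with hi₂
  have hi1a : B - δ / 4 * B - 1 ≤ i₁ := by
    have := Nat.lt_floor_add_one (B - δ / 4 * B)
    linarith
  have hi1b : (i₁ : ℝ) ≤ B - δ / 4 * B := by
    apply Nat.floor_le
    nlinarith
  have hi2a : B + δ / 4 * B ≤ i₂ := Nat.le_ceil _
  have hi2b : (i₂ : ℝ) ≤ B + δ / 4 * B + 1 := (Nat.ceil_lt_add_one (by positivity)).le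
  have hi1c : B / 2 ≤ i₁ := by nlinarith
  have hi1pos : 1 ≤ i₁ := by
    have : (0 : ℝ) < i₁ := by linarith
    exact_mod_cast this
  have hi12 : (i₂ : ℝ) ≤ (1 + δ) * i₁ := by
    have h1 : (1 + δ) * (B - δ / 4 * B - 1) ≤ (1 + δ) * i₁ :=
      mul_le_mul_of_nonneg_left hi1a (by linarith)
    refine hi2b.trans (le_trans ?_ h1)
    have h2 : δ * δ * B ≤ δ * B := by
      have : 0 ≤ δ * B := by positivity
      nlinarith
    nlinarith
  set 𝒯 : Finset ℤ := (Ms d m b).filter (fun M => P ^ i₁ ∣ M.natAbs ∧ M.natAbs ∣ P ^ i₂) with h𝒯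
  -- split
  rw [← Finset.sum_filter_add_sum_filter_not (Ms d m b) (fun M => M ∈ 𝒯)]
  -- first part
  have p1 : ∑ M ∈ (Ms d m b).filter (fun M => M ∈ 𝒯), Gam (gr d m b M) (Ww d m r) M.natAbs P
      ≤ K1 * (d : ℝ) ^ b / (b : ℝ) ^ q := by
    have hone : ∀ M ∈ (Ms d m b).filter (fun M => M ∈ 𝒯),
        Gam (gr d m b M) (Ww d m r) M.natAbs P ≤ (d : ℝ) ^ b * (C' * (2 * d) ^ E / (b : ℝ) ^ E) := by
      intro M hM
      have hM' := (mem_filter.1 hM).2
      rw [h𝒯, mem_filter] at hM'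
      obtain ⟨hMs, hM1, hM2⟩ := hM'
      refine (TG_Gam_le h b hMs M.natAbs P).trans ?_
      refine mul_le_mul_of_nonneg_left ?_ hdb.le
      refine (hdec i₁ M.natAbs b P hi1pos hM1 (hM2.trans (pow_dvd_pow _ ?_)) ?_ hP1 dvd_rfl).trans ?_
      · apply Nat.le_floor
        exact hi12
      · have h3 : (i₁ : ℝ) ≤ B := by nlinarith
        have h4 : (1 - δ) * d * i₁ ≤ (1 - δ) * d * B :=
          mul_le_mul_of_nonneg_left h3 (mul_nonneg (by linarith) hd0.le)
        refine h4.trans ?_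
        rw [hBb]
        nlinarith [mul_pos hd0 hB0]
      · have h5 : (√(i₁ : ℝ)) ^ (2 * E) = (i₁ : ℝ) ^ E := by
          rw [pow_mul, Real.sq_sqrt (Nat.cast_nonneg _)]
        rw [h5]
        have h6 : (b : ℝ) ≤ 2 * d * i₁ := by
          rw [hBb]
          nlinarith
        have hi1R : (0 : ℝ) < i₁ := by exact_mod_cast hi1pos
        rw [div_le_div_iff₀ (by positivity) (by positivity)]
        calc C' * (b : ℝ) ^ E ≤ C' * (2 * d * i₁) ^ E := by gcongr
          _ = C' * (2 * d) ^ E * (i₁ : ℝ) ^ E := by rw [mul_pow (2 * (d : ℝ)) (i₁ : ℝ)]; ring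
    have hsum := Finset.sum_le_sum hone
    rw [Finset.sum_const, nsmul_eq_mul] at hsum
    refine hsum.trans ?_
    have hcardM : ((((Ms d m b).filter (fun M => M ∈ 𝒯)).card : ℕ) : ℝ) ≤ (2 * b) ^ d := by
      have h3 : ((Ms d m b).filter (fun M => M ∈ 𝒯)).card ≤ (b + 1) ^ d :=
        (Finset.card_le_card (Finset.filter_subset _ _)).trans (card_Ms b)
      have h4 : ((((Ms d m b).filter (fun M => M ∈ 𝒯)).card : ℕ) : ℝ) ≤ ((b : ℝ) + 1) ^ d := by
        exact_mod_cast h3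
      exact h4.trans (pow_le_pow_left₀ (by positivity) (by linarith) d)
    calc ((((Ms d m b).filter (fun M => M ∈ 𝒯)).card : ℕ) : ℝ) *
          ((d : ℝ) ^ b * (C' * (2 * d) ^ E / (b : ℝ) ^ E))
        ≤ (2 * b) ^ d * ((d : ℝ) ^ b * (C' * (2 * d) ^ E / (b : ℝ) ^ E)) :=
          mul_le_mul_of_nonneg_right hcardM (by positivity)
      _ = K1 * (d : ℝ) ^ b / (b : ℝ) ^ q := by
          have hEk : (b : ℝ) ^ E = (b : ℝ) ^ q * (b : ℝ) ^ d := by rw [hE, pow_add]
          rw [mul_pow, hEk, hK1]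
          field_simp
  -- second part
  have p2 : ∑ M ∈ (Ms d m b).filter (fun M => ¬ M ∈ 𝒯), Gam (gr d m b M) (Ww d m r) M.natAbs P
      ≤ K2 * (d : ℝ) ^ b / (b : ℝ) ^ q := by
    have h1 : ∑ M ∈ (Ms d m b).filter (fun M => ¬ M ∈ 𝒯), Gam (gr d m b M) (Ww d m r) M.natAbs P
        ≤ P * ∑ M ∈ Ms d m b, (if M ∈ 𝒯 then (0 : ℝ) else ((gr d m b M).card : ℝ)) := by
      rw [Finset.sum_filter, Finset.mul_sum]
      refine Finset.sum_le_sum fun M hM => ?_
      by_cases hMT : M ∈ 𝒯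
      · simp [hMT]
      · rw [if_pos hMT, if_neg hMT]
        refine (Gam_le _ _ (P5_pos h hM) hP1).trans ?_
        exact mul_le_mul_of_nonneg_right (by linarith) (Nat.cast_nonneg _)
    rw [SP.sum_not_mem] at h1
    refine h1.trans ?_
    have h2 : ((LW d b).filter fun w => Mw m w ∉ 𝒯) ⊆
        (LW d b).filter fun w => ∃ i < d, η * b < |(w.count i : ℝ) - b / d| := by
      intro w hw
      rw [mem_filter] at hw ⊢
      refine ⟨hw.1, ?_⟩
      by_contra hno
      push Not at hno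
      apply hw.2
      rw [h𝒯, mem_filter]
      refine ⟨mem_image_of_mem _ hw.1, dvd_Mw hw.1 ?_, Mw_dvd hw.1 ?_⟩
      · intro i hi
        have h2 := hno i hi
        rw [hηb, ← hB, abs_le] at h2
        have h3 : (i₁ : ℝ) ≤ w.count i := by linarith
        exact_mod_cast h3
      · intro i hi
        have h2 := hno i hi
        rw [hηb, ← hB, abs_le] at h2
        have h3 : (w.count i : ℝ) ≤ i₂ := by linarith
        exact_mod_cast h3
    have h3 : (((LW d b).filter fun w => Mw m w ∉ 𝒯).card : ℝ)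
        ≤ 2 * d * ((d : ℝ) ^ b * Real.exp (-(c * b))) :=
      le_trans (by exact_mod_cast card_le_card h2) (htyp b)
    have h4 := hexp b hb1
    calc (P : ℝ) * (((LW d b).filter fun w => Mw m w ∉ 𝒯).card : ℝ)
        ≤ P * (2 * d * ((d : ℝ) ^ b * Real.exp (-(c * b)))) :=
          mul_le_mul_of_nonneg_left h3 hPR.le
      _ ≤ P * (2 * d * ((d : ℝ) ^ b * (C2 / (b : ℝ) ^ q))) := by gcongr
      _ = K2 * (d : ℝ) ^ b / (b : ℝ) ^ q := by rw [hK2]; field_simp
  calc _ ≤ K1 * (d : ℝ) ^ b / (b : ℝ) ^ q + K2 * (d : ℝ) ^ b / (b : ℝ) ^ q := add_le_add p1 p2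
    _ ≤ (K1 + K2 + K3) * (d : ℝ) ^ b / (b : ℝ) ^ q := by
      rw [← add_div]
      apply div_le_div_of_nonneg_right _ (by positivity)
      rw [← add_mul]
      exact mul_le_mul_of_nonneg_right (by linarith) hdb.le

end Pool.Agent.H319R3.PO
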