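import Pool.Agent.H319R3.PO.Defs
import Pool.Agent.H319R3.GC.F2
import Pool.Agent.H319R3.GC.Split

/-! P6 (helper51): one more letter. -/

set_option autoImplicit false

namespace Pool.Agent.H319R3.PO
open Pool.Agent.H319R3.GC Pool.Agent.H319R3.GC.SP Pool.Agent.H319R3.DN Finset Filter Topology

variable {d : ℕ} {m r : ℕ → ℤ}

theorem P6_pre_mul {y : ℤ} {w : List ℕ} (hy : Vl d m r y w) :
    Mw m w * pre d m r y w = (d : ℤ) ^ w.length * y + Ww d m r w :=
  Int.mul_ediv_cancel' hy

theorem P6_Vl_cons (h : Adm d m r) {i : ℕ} {u : List ℕ} (hu : ∀ j ∈ u, j < d) (x : ℤ) :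
    Vl d m r x (i :: u) ↔ Vl d m r x u ∧ m i ∣ (d : ℤ) * pre d m r x u + r i := by
  have hM : Mw m u ≠ 0 := Mw_ne_zero h hu
  have hc : IsCoprime (Mw m u) (d : ℤ) := Mw_cop h hu
  have e1 : (d : ℤ) ^ (i :: u).length * x + Ww d m r (i :: u) =
      d * ((d : ℤ) ^ u.length * x + Ww d m r u) + r i * Mw m u := by
    rw [List.length_cons, Ww]
    ring
  have key : Vl d m r x u → (Vl d m r x (i :: u) ↔ m i ∣ (d : ℤ) * pre d m r x u + r i) := by
    intro hV
    unfold Vl
    rw [e1, ← P6_pre_mul hV, Mw_cons,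
      show (d : ℤ) * (Mw m u * pre d m r x u) + r i * Mw m u =
        ((d : ℤ) * pre d m r x u + r i) * Mw m u by ring]
    exact mul_dvd_mul_iff_right hM
  constructor
  · intro hV
    have h1 : Vl d m r x u := by
      unfold Vl at hV ⊢
      rw [e1, Mw_cons] at hV
      have h2 : Mw m u ∣ d * ((d : ℤ) ^ u.length * x + Ww d m r u) + r i * Mw m u :=
        (Dvd.intro_left _ rfl).trans hV
      have h3 : Mw m u ∣ (d : ℤ) * ((d : ℤ) ^ u.length * x + Ww d m r u) :=
        (Int.dvd_add_left (Dvd.intro_left _ rfl)).1 h2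
      exact hc.dvd_of_dvd_mul_left h3
    exact ⟨h1, (key h1).1 hV⟩
  · rintro ⟨h1, h2⟩
    exact (key h1).2 h2

theorem P6_wt_cons (i : ℕ) (u : List ℕ) :
    wt d m (i :: u) = |(m i : ℝ)| / d * wt d m u := by
  unfold wt
  rw [Mw_cons, List.length_cons, pow_succ]
  push_cast
  rw [abs_mul, div_mul_div_comm, mul_comm ((d : ℝ) ^ u.length)]

open scoped Classical in
/-- the mass of the valid letters in front of `z` -/
noncomputable def P6_h (d : ℕ) (m r : ℕ → ℤ) (z : ℤ) : ℝ :=
  ∑ i ∈ range d, |(m i : ℝ)| / d * (if m i ∣ (d : ℤ) * z + r i then 1 else 0)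

theorem P6_dvd_P {i : ℕ} (hi : i < d) : m i ∣ (PP d m : ℤ) := by
  rw [← Int.natAbs_dvd]
  exact_mod_cast Finset.dvd_prod_of_mem (fun i => (m i).natAbs) (mem_range.2 hi)

theorem P6_h_per (z : ℤ) : P6_h d m r (z + PP d m) = P6_h d m r z := by
  classical
  unfold P6_h
  refine sum_congr rfl fun i hi => ?_
  have h1 : m i ∣ (d : ℤ) * (z + PP d m) + r i ↔ m i ∣ (d : ℤ) * z + r i := by
    rw [show (d : ℤ) * (z + PP d m) + r i = ((d : ℤ) * z + r i) + d * PP d m by ring]
    exact Int.dvd_add_left ((P6_dvd_P (mem_range.1 hi)).mul_left _)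
  simp only [h1]

theorem P6_P_pos (h : Adm d m r) : 0 < PP d m := by
  have := h.big
  omega

theorem P6_d_cop (h : Adm d m r) : IsCoprime (d : ℤ) (PP d m : ℤ) := by
  unfold PP
  push_cast
  apply IsCoprime.prod_right
  intro i hi
  have h1 := (h.cop i (mem_range.1 hi)).symm
  rcases abs_choice (m i) with h2 | h2
  · rw [h2]; exact h1
  · rw [h2]; exact h1.neg_right

theorem P6_h_sum (h : Adm d m r) : ∑ e ∈ range (PP d m), P6_h d m r (e : ℤ) = PP d m := by
  classical
  unfold P6_h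
  rw [sum_comm]
  have hd : (d : ℝ) ≠ 0 := by
    have := h.two_le
    positivity
  have h1 : ∀ i ∈ range d, ∑ e ∈ range (PP d m), |(m i : ℝ)| / d *
      (if m i ∣ (d : ℤ) * (e : ℤ) + r i then (1 : ℝ) else 0) = (PP d m : ℝ) / d := by
    intro i hi
    rw [← mul_sum]
    set g : ℤ → ℝ := fun y => if m i ∣ y then 1 else 0 with hg
    have hgper : ∀ y, g (y + PP d m) = g y := by
      intro y
      have h2 : m i ∣ y + PP d m ↔ m i ∣ y := Int.dvd_add_left (P6_dvd_P (mem_range.1 hi))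
      simp only [hg, h2]
    have h3 := sum_affine (P6_P_pos h) hgper (P6_d_cop h) (r i)
    have h4 : ∑ e ∈ range (PP d m), (if m i ∣ (d : ℤ) * (e : ℤ) + r i then (1 : ℝ) else 0) =
        ∑ c ∈ range (PP d m), g (c : ℤ) := h3
    rw [h4]
    obtain ⟨R, hR⟩ : (m i).natAbs ∣ PP d m :=
      Finset.dvd_prod_of_mem (fun i => (m i).natAbs) hi
    have hPpos := P6_P_pos h
    have hmpos : 0 < (m i).natAbs := Nat.pos_of_ne_zero (by
      intro h0
      rw [hR, h0, zero_mul] at hPpos
      exact lt_irrefl _ hPpos)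
    have h5 : ∑ c ∈ range (PP d m), g (c : ℤ) = R := by
      rw [hR, sum_range_mul hmpos (fun c => g (c : ℤ))]
      have h6 : ∀ c ∈ range (m i).natAbs, ∑ a ∈ range R, g ((c + (m i).natAbs * a : ℕ) : ℤ) =
          if c = 0 then (R : ℝ) else 0 := by
        intro c hc
        have h7 : ∀ a ∈ range R, g ((c + (m i).natAbs * a : ℕ) : ℤ) = if c = 0 then 1 else 0 := by
          intro a _
          simp only [hg]
          have h8 : m i ∣ ((c + (m i).natAbs * a : ℕ) : ℤ) ↔ c = 0 := by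
            rw [← Int.natAbs_dvd, Int.natCast_dvd_natCast, ← Nat.dvd_add_iff_left (Dvd.intro _ rfl)]
            constructor
            · intro h9
              exact Nat.eq_zero_of_dvd_of_lt h9 (mem_range.1 hc)
            · rintro rfl
              exact dvd_zero _
          simp only [h8]
        rw [sum_congr rfl h7]
        split_ifs <;> simp
      rw [sum_congr rfl h6, sum_ite_eq' (range (m i).natAbs) 0 (fun _ => (R : ℝ)),
        if_pos (mem_range.2 hmpos)]
    rw [h5]
    have h6 : (PP d m : ℝ) = |(m i : ℝ)| * R := by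
      rw [hR]
      push_cast
      rw [Nat.cast_natAbs]
      push_cast
      ring
    rw [h6]
    ring
  rw [sum_congr rfl h1, sum_const, card_range, nsmul_eq_mul]
  field_simp

/-- the constant -/
noncomputable def P6_H (d : ℕ) (m : ℕ → ℤ) : ℝ := 1 + ∑ i ∈ range d, |(m i : ℝ)|

theorem P6_H_pos : 0 < P6_H d m := by
  unfold P6_H
  have : 0 ≤ ∑ i ∈ range d, |(m i : ℝ)| := sum_nonneg fun i _ => abs_nonneg _
  linarith

theorem P6_h_le (h : Adm d m r) (z : ℤ) : |P6_h d m r z - 1| ≤ P6_H d m := by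
  classical
  have hd : (1 : ℝ) ≤ d := by
    have := h.two_le
    exact_mod_cast (by omega : 1 ≤ d)
  have h0 : 0 ≤ P6_h d m r z := by
    unfold P6_h
    refine sum_nonneg fun i _ => ?_
    split_ifs <;> positivity
  have h1 : P6_h d m r z ≤ ∑ i ∈ range d, |(m i : ℝ)| := by
    unfold P6_h
    refine sum_le_sum fun i _ => ?_
    have h2 : |(m i : ℝ)| / d ≤ |(m i : ℝ)| := div_le_self (abs_nonneg _) hd
    split_ifs
    · rw [mul_one]; exact h2
    · rw [mul_zero]; exact abs_nonneg _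
  unfold P6_H
  rw [abs_le]
  constructor <;> linarith

open scoped Classical in
theorem P6_group (h : Adm d m r) (b : ℕ) (x : ℤ) {M : ℤ} (hM : M ∈ Ms d m b) :
    |∑ u ∈ (gr d m b M).filter (fun u => Vl d m r x u), (P6_h d m r (pre d m r x u) - 1)| ≤
      P6_H d m * √(Fib (gr d m b M) (Ww d m r) M.natAbs (PP d m) (-(d : ℤ) ^ b * x) *
        cnt (gr d m b M) (Ww d m r) M.natAbs (-(d : ℤ) ^ b * x)) := by
  have hP := P6_P_pos h
  have hP' : (0 : ℤ) < PP d m := by exact_mod_cast hP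
  have hM0 : M ≠ 0 := by
    obtain ⟨w, hw, rfl⟩ := mem_Ms.1 hM
    exact Mw_ne_zero h hw.2
  have hMa : 0 < M.natAbs := Int.natAbs_pos.2 hM0
  set P := PP d m with hPd
  set V := (gr d m b M).filter (fun u => Vl d m r x u) with hV
  set c : ℤ := -(d : ℤ) ^ b * x with hc
  -- the counts
  set f : ℕ → ℝ := fun e => cnt (gr d m b M) (Ww d m r) (M.natAbs * P) (c + M * e) with hf
  have hVl : ∀ u ∈ gr d m b M, (Vl d m r x u ↔ M ∣ Ww d m r u - c) := by
    intro u hu
    obtain ⟨⟨hl, -⟩, hm⟩ := mem_gr'.1 hu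
    unfold Vl
    rw [hm, hl, hc, show Ww d m r u - -(d : ℤ) ^ b * x = (d : ℤ) ^ b * x + Ww d m r u by ring]
  have hpre : ∀ u ∈ V, M * pre d m r x u = Ww d m r u - c := by
    intro u hu
    rw [hV, mem_filter] at hu
    obtain ⟨⟨hl, -⟩, hm⟩ := mem_gr'.1 hu.1
    have h1 := P6_pre_mul hu.2
    rw [hm, hl] at h1
    rw [h1, hc]
    ring
  have hfc : ∀ e : ℕ, e < P → f e = ((V.filter fun u => (pre d m r x u % P).toNat = e).card : ℝ) := by
    intro e he
    simp only [hf]
    unfold cnt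
    congr 2
    rw [hV, filter_filter]
    apply filter_congr
    intro u hu
    have h1 : ((M.natAbs * P : ℕ) : ℤ) ∣ Ww d m r u - (c + M * e) ↔
        M * P ∣ Ww d m r u - (c + M * e) := by
      push_cast
      rw [← Int.natAbs_dvd, ← Int.natAbs_dvd (a := M * P)]
      simp [Int.natAbs_mul]
    rw [h1]
    constructor
    · intro h2
      have h3 : M ∣ Ww d m r u - c := by
        have h4 : M ∣ Ww d m r u - (c + M * e) := (Dvd.intro _ rfl).trans h2
        have h5 : Ww d m r u - c = (Ww d m r u - (c + M * e)) + M * e := by ring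
        rw [h5]
        exact dvd_add h4 (Dvd.intro _ rfl)
      have h6 : Vl d m r x u := (hVl u hu).2 h3
      refine ⟨h6, ?_⟩
      have h7 := hpre u (by rw [hV, mem_filter]; exact ⟨hu, h6⟩)
      have h8 : Ww d m r u - (c + M * e) = M * (pre d m r x u - e) := by
        rw [mul_sub, h7]; ring
      rw [h8, mul_dvd_mul_iff_left hM0] at h2
      exact (dvd_emod_iff hP _ he).1 h2
    · rintro ⟨h6, h9⟩
      have h7 := hpre u (by rw [hV, mem_filter]; exact ⟨hu, h6⟩)
      have h8 : Ww d m r u - (c + M * e) = M * (pre d m r x u - e) := by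
        rw [mul_sub, h7]; ring
      rw [h8, mul_dvd_mul_iff_left hM0]
      exact (dvd_emod_iff hP _ he).2 h9
  -- the sum over the classes
  have hperz : ∀ z : ℤ, P6_h d m r (((z % P).toNat : ℕ) : ℤ) = P6_h d m r z := by
    intro z
    rw [Int.toNat_of_nonneg (Int.emod_nonneg _ hP'.ne')]
    exact per_emod P6_h_per z
  have hmap : ∀ u ∈ V, (pre d m r x u % P).toNat ∈ range P := by
    intro u _
    rw [mem_range]
    have h1 := Int.emod_lt_of_pos (pre d m r x u) hP'
    have h2 := Int.emod_nonneg (pre d m r x u) hP'.ne'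
    omega
  have hsum : ∑ u ∈ V, (P6_h d m r (pre d m r x u) - 1) =
      ∑ e ∈ range P, f e * (P6_h d m r (e : ℤ) - 1) := by
    rw [← sum_fiberwise_of_maps_to hmap]
    refine sum_congr rfl fun e he => ?_
    rw [hfc e (mem_range.1 he)]
    have h1 : ∀ u ∈ V.filter (fun u => (pre d m r x u % P).toNat = e),
        P6_h d m r (pre d m r x u) - 1 = P6_h d m r (e : ℤ) - 1 := by
      intro u hu
      rw [mem_filter] at hu
      rw [← hperz (pre d m r x u), hu.2]
    rw [sum_congr rfl h1, sum_const, nsmul_eq_mul]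
  -- the total mass
  have hcard : ∑ e ∈ range P, f e = cnt (gr d m b M) (Ww d m r) M.natAbs c := by
    have h1 : ∑ e ∈ range P, f e = (V.card : ℝ) := by
      have h2 := card_eq_sum_card_fiberwise (s := V) (t := range P)
        (f := fun u => (pre d m r x u % P).toNat) hmap
      rw [h2]
      push_cast
      exact sum_congr rfl fun e he => hfc e (mem_range.1 he)
    rw [h1]
    unfold cnt
    congr 2
    rw [hV]
    apply filter_congr
    intro u hu
    rw [hVl u hu, Int.natAbs_dvd]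
  have hzero : ∑ e ∈ range P, (P6_h d m r (e : ℤ) - 1) = 0 := by
    rw [sum_sub_distrib, P6_h_sum h, sum_const, card_range, nsmul_eq_mul, mul_one, hPd, sub_self]
  set n : ℝ := ∑ e ∈ range P, f e with hn
  have hcenter : ∑ e ∈ range P, f e * (P6_h d m r (e : ℤ) - 1) =
      ∑ e ∈ range P, (f e - n / P) * (P6_h d m r (e : ℤ) - 1) := by
    simp only [sub_mul (f _)]
    rw [sum_sub_distrib, ← mul_sum, hzero, mul_zero, sub_zero]
  have hf0 : ∀ e < P, 0 ≤ f e := fun e _ => cnt_nonneg _ _ _ _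
  -- the nonuniformity
  have hFR : FR P f = Fib (gr d m b M) (Ww d m r) M.natAbs P c := by
    unfold Fib
    set F : ℤ → ℝ := fun y => cnt (gr d m b M) (Ww d m r) (M.natAbs * P) (c + M.natAbs * y) with hF
    have hFper : ∀ y, F (y + P) = F y := by
      intro y
      simp only [hF]
      apply cnt_congr
      push_cast
      exact ⟨1, by ring⟩
    have hsgn : IsCoprime M.sign (P : ℤ) := by
      rcases lt_or_gt_of_ne hM0 with h1 | h1
      · rw [Int.sign_eq_neg_one_of_neg h1]
        exact isCoprime_one_left.neg_left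
      · rw [Int.sign_eq_one_of_pos h1]
        exact isCoprime_one_left
    have h1 := FR_unit hP hFper hsgn 0
    rw [← h1]
    apply FR_congr
    intro a _
    simp only [hf, hF]
    congr 1
    have h2 : M = M.natAbs * M.sign := by
      rw [mul_comm]; exact (Int.sign_mul_natAbs M).symm
    have h3 : M * a = M.natAbs * (M.sign * a + 0) := by
      rw [add_zero, ← mul_assoc, ← h2]
    rw [h3]
  have hl1 := FR_l1 hP hf0
  rw [hsum, hcenter]
  calc |∑ e ∈ range P, (f e - n / P) * (P6_h d m r (e : ℤ) - 1)|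
      ≤ ∑ e ∈ range P, |(f e - n / P) * (P6_h d m r (e : ℤ) - 1)| := abs_sum_le_sum_abs _ _
    _ ≤ ∑ e ∈ range P, |f e - n / P| * P6_H d m := by
        refine sum_le_sum fun e _ => ?_
        rw [abs_mul]
        exact mul_le_mul_of_nonneg_left (P6_h_le h _) (abs_nonneg _)
    _ = P6_H d m * ∑ e ∈ range P, |f e - n / P| := by rw [← sum_mul, mul_comm]
    _ ≤ P6_H d m * √(FR P f * n) := mul_le_mul_of_nonneg_left hl1 P6_H_pos.le
    _ = _ := by rw [hFR, hcard]

/-- `uf` as a sum over the groups -/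
theorem uf_groups (h : Adm d m r) (b : ℕ) (x : ℤ) :
    uf d m r b x = ∑ M ∈ Ms d m b, |(M : ℝ)| / (d : ℝ) ^ b *
      cnt (gr d m b M) (Ww d m r) M.natAbs (-(d : ℤ) ^ b * x) := by
  classical
  unfold uf
  rw [sum_filter, ← sum_gr (d := d) (m := m) b]
  refine sum_congr rfl fun M _ => ?_
  rw [← sum_filter]
  unfold cnt
  have h1 : (gr d m b M).filter (fun u => Vl d m r x u) =
      (gr d m b M).filter (fun i => (M.natAbs : ℤ) ∣ Ww d m r i - -(d : ℤ) ^ b * x) := by
    apply filter_congr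
    intro u hu
    obtain ⟨⟨hl, -⟩, hm⟩ := mem_gr'.1 hu
    unfold Vl
    rw [hm, hl, Int.natAbs_dvd,
      show Ww d m r u - -(d : ℤ) ^ b * x = (d : ℤ) ^ b * x + Ww d m r u by ring]
  rw [← h1]
  have h2 : ∀ u ∈ (gr d m b M).filter (fun u => Vl d m r x u),
      wt d m u = |(M : ℝ)| / (d : ℝ) ^ b := by
    intro u hu
    obtain ⟨⟨hl, -⟩, hm⟩ := mem_gr'.1 (mem_filter.1 hu).1
    unfold wt
    rw [hl, hm]
  rw [sum_congr rfl h2, sum_const, nsmul_eq_mul, mul_comm]

theorem step (h : Adm d m r) : ∃ H : ℝ, 0 < H ∧ ∀ (b : ℕ) (x : ℤ),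
    |uf d m r (b + 1) x - uf d m r b x| ≤ H * ∑ M ∈ Ms d m b, |(M : ℝ)| / (d : ℝ) ^ b *
      √(Fib (gr d m b M) (Ww d m r) M.natAbs (PP d m) (-(d : ℤ) ^ b * x) *
        cnt (gr d m b M) (Ww d m r) M.natAbs (-(d : ℤ) ^ b * x)) := by
  classical
  refine ⟨P6_H d m, P6_H_pos, fun b x => ?_⟩
  have h1 : uf d m r (b + 1) x = ∑ u ∈ LW d b, if Vl d m r x u then
      wt d m u * P6_h d m r (pre d m r x u) else 0 := by
    unfold uf
    rw [sum_filter, sum_LW_succ, sum_comm]
    refine sum_congr rfl fun u hu => ?_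
    have hu' := (mem_LW.1 hu).2
    by_cases hV : Vl d m r x u
    · rw [if_pos hV]
      unfold P6_h
      rw [mul_sum]
      refine sum_congr rfl fun i _ => ?_
      have h2 := P6_Vl_cons h (i := i) hu' x
      by_cases h3 : m i ∣ (d : ℤ) * pre d m r x u + r i
      · rw [if_pos (h2.2 ⟨hV, h3⟩), if_pos h3, P6_wt_cons]
        ring
      · rw [if_neg (fun h4 => h3 (h2.1 h4).2), if_neg h3]
        ring
    · rw [if_neg hV]
      refine sum_eq_zero fun i _ => ?_
      rw [if_neg (fun h4 => hV ((P6_Vl_cons h (i := i) hu' x).1 h4).1)]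
  have h2 : uf d m r b x = ∑ u ∈ LW d b, if Vl d m r x u then wt d m u else 0 := by
    unfold uf
    rw [sum_filter]
  have h3 : uf d m r (b + 1) x - uf d m r b x = ∑ M ∈ Ms d m b, |(M : ℝ)| / (d : ℝ) ^ b *
      ∑ u ∈ (gr d m b M).filter (fun u => Vl d m r x u), (P6_h d m r (pre d m r x u) - 1) := by
    rw [h1, h2, ← sum_sub_distrib, ← sum_gr (d := d) (m := m) b]
    refine sum_congr rfl fun M _ => ?_
    rw [sum_filter, mul_sum]
    refine sum_congr rfl fun u hu => ?_
    obtain ⟨⟨hl, -⟩, hm⟩ := mem_gr'.1 hu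
    have h4 : wt d m u = |(M : ℝ)| / (d : ℝ) ^ b := by
      unfold wt
      rw [hl, hm]
    split_ifs
    · rw [h4]; ring
    · ring
  rw [h3, mul_sum]
  refine (abs_sum_le_sum_abs _ _).trans (sum_le_sum fun M hM => ?_)
  rw [abs_mul]
  have h5 : |(|(M : ℝ)| / (d : ℝ) ^ b)| = |(M : ℝ)| / (d : ℝ) ^ b :=
    abs_of_nonneg (by positivity)
  rw [h5]
  have h6 := mul_le_mul_of_nonneg_left (P6_group h b x hM)
    (show 0 ≤ |(M : ℝ)| / (d : ℝ) ^ b by positivity)
  refine h6.trans (le_of_eq ?_)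
  ring

end Pool.Agent.H319R3.PO
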