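import Pool.Agent.H319R3.PO.P8c
import Pool.Agent.H319R3.PO.P4
import Pool.Agent.H319R3.PO.P5
import Pool.Agent.H319R3.PO.P6
import Pool.Agent.H319R3.PO.P7

/-!
One more free letter.
-/

set_option autoImplicit false

namespace Pool.Agent.H319R3.PO
open Pool.Agent.H319R3.GC Pool.Agent.H319R3.DN Finset Filter Topology

variable {d : ℕ} {m r : ℕ → ℤ}

theorem Ua_step (h : Adm d m r) {η c C0 : ℝ} {N0 : ℕ} (hn : NB d m r η c C0 N0) (q : ℕ) :
    ∃ C : ℝ, 0 < C ∧ ∀ a b : ℕ, N0 ≤ a → 1 ≤ b → (PP d m : ℝ) ^ b ≤ Real.exp (c * a) → ∀ y : ℤ,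
      |Ua d m r η N0 a (b + 1) (fun _ => True) y - Ua d m r η N0 a b (fun _ => True) y|
        ≤ C * ((a : ℝ) + 1) ^ d / (b : ℝ) ^ q :=
  Ua_step_of h hn q (fun ha y _ hN' _ hφ hφ0 => mass h hn ha y hN' hφ hφ0)
    (decay_groups h (2 * q)) (step h) (uf_groups h)
    (fun ha hab Co y => Ua_le h hn ha hab Co y)

end Pool.Agent.H319R3.PO
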