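import Pool.Agent.H319R3.PO.P1
import Pool.Agent.H319R3.PO.P2
import Pool.Agent.H319R3.PO.P3
import Pool.Agent.H319R3.PO.P7
import Pool.Agent.H319R3.PO.P8

/-!
Positive densities of invariant sets of generalised Collatz maps, task P9: the quenched inequality.
-/

set_option autoImplicit false

namespace Pool.Agent.H319R3.PO
open Pool.Agent.H319R3.GC Pool.Agent.H319R3.DN Finset Filter Topology

variable {d : ℕ} {m r : ℕ → ℤ}

/-- the frequencies of the last `t` letters of a word of length `B` deviate -/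
def Dev (d : ℕ) (η : ℝ) (B t : ℕ) (u : List ℕ) : Prop := ∃ i < d,
  η * (t : ℝ) < |((u.drop (B - t)).count i : ℝ) - (t : ℝ) / d|

open scoped Classical in
/-- `Ua` as one sum over the words of length `b + a` -/
theorem Ua_eq (h : Adm d m r) {η : ℝ} {N0 : ℕ} (a b : ℕ) (Co : List ℕ → Prop) (y : ℤ) :
    Ua d m r η N0 a b Co y = ∑ w ∈ LW d (b + a),
      if (Nice d η N0 (w.drop b) ∧ Co (w.take b) ∧ Vl d m r y w) then wt d m w else 0 := by
  rw [sum_LW_add, Finset.sum_comm]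
  unfold Ua
  rw [Finset.sum_filter]
  refine Finset.sum_congr rfl fun v hv => ?_
  obtain ⟨hvl, hvd⟩ := mem_LW.1 hv
  have e1 : ∀ u ∈ LW d b, (if (Nice d η N0 ((u ++ v).drop b) ∧ Co ((u ++ v).take b) ∧
      Vl d m r y (u ++ v)) then wt d m (u ++ v) else 0) =
      if (Nice d η N0 v ∧ Vl d m r y v) then
        (if (Co u ∧ Vl d m r (pre d m r y v) u) then wt d m v * wt d m u else 0) else 0 := by
    intro u hu
    obtain ⟨hul, hud⟩ := mem_LW.1 hu
    have h1 : (u ++ v).drop b = v := by rw [← hul]; simp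
    have h2 : (u ++ v).take b = u := by rw [← hul]; simp
    rw [h1, h2, Vl_append h hud hvd, wt_append h.two_le]
    by_cases hA : Nice d η N0 v <;> by_cases hB : Vl d m r y v <;> by_cases hC : Co u <;>
      by_cases hD : Vl d m r (pre d m r y v) u <;> simp [hA, hB, hC, hD, mul_comm]
  rw [Finset.sum_congr rfl e1]
  split_ifs with hc
  · rw [Finset.mul_sum, Finset.sum_filter]
  · simp

open scoped Classical in
/-- words of length `a + b`: nice implies nice suffix -/
theorem U_le_Ua (h : Adm d m r) {η : ℝ} {N0 : ℕ} (a b : ℕ) (y : ℤ) :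
    U d m r η N0 (a + b) y ≤ Ua d m r η N0 a b (fun _ => True) y := by
  rw [Ua_eq h, add_comm b a]
  unfold U
  rw [Finset.sum_filter]
  refine Finset.sum_le_sum fun w _ => ?_
  by_cases hA : Nice d η N0 w ∧ Vl d m r y w
  · have h1 : Nice d η N0 (w.drop b) := by
      have h2 := hA.1
      rw [← List.take_append_drop b w] at h2
      exact Nice.suffix h2
    simp [hA, h1]
  · rw [if_neg hA]
    split_ifs
    · exact wt_nonneg w
    · exact le_rfl

/-- a deviation of a long suffix of a word with nice end -/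
theorem dev_split {η : ℝ} {N0 a' B s : ℕ} {w : List ℕ} (hN0 : N0 ≤ a')
    (hw : w.length = B + a') (hnice : Nice d η N0 (w.drop B)) (hs1 : a' ≤ s) (hs2 : s ≤ B + a')
    {i : ℕ} (hi : i < d)
    (hdev : ¬ |((w.drop (w.length - s)).count i : ℝ) - (s : ℝ) / d| ≤ η * s) :
    η * ((s - a' : ℕ) : ℝ) < |(((w.take B).drop (B - (s - a'))).count i : ℝ)
      - ((s - a' : ℕ) : ℝ) / d| := by
  have hl : (w.drop B).length = a' := by simp [hw]
  have h1 := hnice a' hN0 (by rw [hl]) i hi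
  rw [hl, Nat.sub_self, List.drop_zero] at h1
  have h2 : w.drop (w.length - s) = (w.take B).drop (B - (s - a')) ++ w.drop B := by
    have e : w.length - s = B - (s - a') := by omega
    have hle : B - (s - a') ≤ B := Nat.sub_le _ _
    rw [e]
    have hlt : (w.take B).length = B := by simp [hw]
    conv_lhs => rw [← List.take_append_drop B w]
    rw [List.drop_append_of_le_length (by rw [hlt]; exact hle)]
  rw [h2, List.count_append] at hdev
  push Not at hdev
  push_cast [Nat.cast_sub hs1] at hdev ⊢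
  have h3 := abs_add_le (((((w.take B).drop (B - (s - a'))).count i : ℕ) : ℝ) - ((s : ℝ) - a') / d)
    ((((w.drop B).count i : ℕ) : ℝ) - (a' : ℝ) / d)
  have e4 : (((((w.take B).drop (B - (s - a'))).count i : ℕ) : ℝ) - ((s : ℝ) - a') / d) +
    ((((w.drop B).count i : ℕ) : ℝ) - (a' : ℝ) / d) =
    ((((w.take B).drop (B - (s - a'))).count i : ℕ) : ℝ) + (((w.drop B).count i : ℕ) : ℝ)
      - (s : ℝ) / d := by ring
  rw [e4] at h3
  nlinarith

open scoped Classical in
/-- the deviating words -/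
theorem Ua_split (h : Adm d m r) {η : ℝ} {N0 a' b : ℕ} (hN0 : N0 ≤ a') (y : ℤ) :
    Ua d m r η N0 (a' + b) (b + 1) (fun _ => True) y ≤ U d m r η N0 (a' + 2 * b + 1) y +
      ∑ s ∈ Icc (a' + b + 1) (a' + 2 * b + 1), Ua d m r η N0 a' (2 * b + 1) (Dev d η (2 * b + 1) (s - a')) y := by
  rw [Finset.sum_congr rfl fun s _ => Ua_eq h a' (2 * b + 1) _ y, Finset.sum_comm, Ua_eq h]
  have e1 : b + 1 + (a' + b) = a' + 2 * b + 1 := by ring
  have e2 : 2 * b + 1 + a' = a' + 2 * b + 1 := by ring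
  rw [e1, e2]
  unfold U
  rw [Finset.sum_filter, ← Finset.sum_add_distrib]
  refine Finset.sum_le_sum fun w hw => ?_
  obtain ⟨hwl, hwd⟩ := mem_LW.1 hw
  have hnn : ∀ s ∈ Icc (a' + b + 1) (a' + 2 * b + 1),
      (0 : ℝ) ≤ (if (Nice d η N0 (w.drop (2 * b + 1)) ∧ Dev d η (2 * b + 1) (s - a') (w.take (2 * b + 1)) ∧ Vl d m r y w) then wt d m w else 0) := by
    intro s _
    split_ifs
    · exact wt_nonneg w
    · exact le_rfl
  by_cases hV : Nice d η N0 (w.drop (b + 1)) ∧ True ∧ Vl d m r y w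
  · rw [if_pos hV]
    obtain ⟨hV1, -, hV2⟩ := hV
    by_cases hN : Nice d η N0 w
    · rw [if_pos ⟨hN, hV2⟩]
      have := Finset.sum_nonneg hnn
      linarith
    · rw [if_neg (fun hh => hN hh.1), zero_add]
      have hN' : ∃ s, N0 ≤ s ∧ s ≤ w.length ∧ ∃ i < d,
          ¬ |((w.drop (w.length - s)).count i : ℝ) - (s : ℝ) / d| ≤ η * s := by
        by_contra hcon
        apply hN
        intro s hs1 hs2 i hi
        by_contra hcc
        exact hcon ⟨s, hs1, hs2, i, hi, hcc⟩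
      obtain ⟨s, hs1, hs2, i, hi, hdev⟩ := hN'
      -- s > a
      have hsa : a' + b + 1 ≤ s := by
        by_contra hcon
        have hsa' : s ≤ a' + b := by omega
        apply hdev
        have hl : (w.drop (b + 1)).length = a' + b := by
          simp [hwl]; omega
        have h3 := hV1 s hs1 (by rw [hl]; exact hsa') i hi
        rw [hl, List.drop_drop] at h3
        have e : b + 1 + (a' + b - s) = w.length - s := by omega
        rw [e] at h3
        exact h3
      have hmem : s ∈ Icc (a' + b + 1) (a' + 2 * b + 1) := by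
        rw [mem_Icc]; omega
      have hnice' : Nice d η N0 (w.drop (2 * b + 1)) := by
        have h4 : w.drop (b + 1) = (w.drop (b + 1)).take b ++ w.drop (2 * b + 1) := by
          conv_lhs => rw [← List.take_append_drop b (w.drop (b + 1))]
          rw [List.drop_drop]
          congr 2
          ring
        rw [h4] at hV1
        exact Nice.suffix hV1
      refine le_trans ?_ (Finset.single_le_sum hnn hmem)
      rw [if_pos]
      refine ⟨hnice', ⟨i, hi, ?_⟩, hV2⟩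
      exact dev_split hN0 (by omega) hnice' (by omega) (by omega) hi hdev
  · rw [if_neg hV]
    have h5 : (0 : ℝ) ≤ (if (Nice d η N0 w ∧ Vl d m r y w) then wt d m w else 0) := by
      split_ifs
      · exact wt_nonneg w
      · exact le_rfl
    exact add_nonneg h5 (Finset.sum_nonneg hnn)

theorem asym1 (d : ℕ) {C κ k b a : ℝ} (hC : 0 ≤ C) (hκ : 0 < κ) (hk : 0 < k) (ha : 0 ≤ a)
    (hak : a + 1 ≤ 2 * k) (hb : κ * k / 2 ≤ b) :
    C * (a + 1) ^ d / b ^ (d + 2) ≤ (C * 2 ^ d * (2 / κ) ^ (d + 2)) / k ^ 2 := by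
  have hx : 0 < κ * k / 2 := by positivity
  have hb0 : 0 < b := lt_of_lt_of_le hx hb
  have h1 : (a + 1) ^ d ≤ (2 * k) ^ d := pow_le_pow_left₀ (by linarith) hak d
  have h2 : (κ * k / 2) ^ (d + 2) ≤ b ^ (d + 2) := pow_le_pow_left₀ hx.le hb (d + 2)
  calc C * (a + 1) ^ d / b ^ (d + 2) ≤ C * (2 * k) ^ d / (κ * k / 2) ^ (d + 2) := by
        apply div_le_div₀ (by positivity) (mul_le_mul_of_nonneg_left h1 hC) (by positivity) h2
    _ = (C * 2 ^ d * (2 / κ) ^ (d + 2)) / k ^ 2 := by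
        rw [mul_pow, div_pow, mul_pow, div_pow, pow_add k d 2]
        field_simp

theorem asym2 (d : ℕ) {C0 κ c₃ k b a' : ℝ} (hC0 : 1 ≤ C0) (hκ : 0 < κ) (hc : 0 < c₃) (hk : 0 < k)
    (ha : 0 ≤ a') (hak : a' + 1 ≤ 2 * k) (hbk : b + 1 ≤ 2 * k) (hb : κ * k / 2 ≤ b) :
    (b + 1) * ((a' + 1) ^ d * (2 * C0 + 1) * (2 * d * Real.exp (-(c₃ * b)))) ≤
      (2 ^ (d + 1) * (2 * C0 + 1) * (2 * d) * ((d + 3).factorial : ℝ) * (2 / (c₃ * κ)) ^ (d + 3))
        / k ^ 2 := by
  have hx : 0 < κ * k / 2 := by positivity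
  have hb0 : 0 < b := lt_of_lt_of_le hx hb
  have h1 : (a' + 1) ^ d ≤ (2 * k) ^ d := pow_le_pow_left₀ (by linarith) hak d
  have hX : 0 < c₃ * (κ * k / 2) := by positivity
  have h3 : Real.exp (-(c₃ * b)) ≤ ((d + 3).factorial : ℝ) / (c₃ * (κ * k / 2)) ^ (d + 3) := by
    have h4 := Real.pow_div_factorial_le_exp (c₃ * (κ * k / 2)) hX.le (d + 3)
    have h5 : Real.exp (-(c₃ * b)) ≤ Real.exp (-(c₃ * (κ * k / 2))) := by
      apply Real.exp_le_exp.2
      have := mul_le_mul_of_nonneg_left hb hc.le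
      linarith
    refine h5.trans ?_
    rw [Real.exp_neg]
    have hpos : 0 < (c₃ * (κ * k / 2)) ^ (d + 3) / ((d + 3).factorial : ℝ) := by positivity
    calc (Real.exp (c₃ * (κ * k / 2)))⁻¹ ≤ ((c₃ * (κ * k / 2)) ^ (d + 3) / ((d + 3).factorial : ℝ))⁻¹ :=
          inv_anti₀ hpos h4
      _ = _ := by rw [inv_div]
  have hC1 : 0 ≤ 2 * C0 + 1 := by linarith
  calc (b + 1) * ((a' + 1) ^ d * (2 * C0 + 1) * (2 * d * Real.exp (-(c₃ * b))))
      ≤ (2 * k) * ((2 * k) ^ d * (2 * C0 + 1) * (2 * d * (((d + 3).factorial : ℝ) /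
          (c₃ * (κ * k / 2)) ^ (d + 3)))) := by
        gcongr
    _ = _ := by
        have e : c₃ * (κ * k / 2) = (c₃ * κ / 2) * k := by ring
        rw [e, mul_pow (c₃ * κ / 2) k, mul_pow 2 k, div_pow, div_pow, pow_add k d 3]
        field_simp
        ring

open scoped Classical in
theorem quenched (h : Adm d m r) {η c C0 : ℝ} {N0 : ℕ} (hn : NB d m r η c C0 N0) :
    ∃ (N1 : ℕ) (C : ℝ), 0 < C ∧ ∀ k : ℕ, N1 ≤ k → ∀ y : ℤ,
      U d m r η N0 k y ≤ U d m r η N0 (k + 1) y + C / (k : ℝ) ^ 2 := by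
  obtain ⟨C1, hC1, hstep⟩ := Ua_step h hn (d + 2)
  obtain ⟨c₃, hc₃, hdev⟩ := dev_prob h.two_le hn.η_pos
  have hP2 : (2 : ℝ) ≤ (PP d m : ℝ) := by exact_mod_cast h.big
  have hc := hn.c_pos
  have hC0 := hn.one_le
  set L : ℝ := Real.log (PP d m : ℝ) with hL
  have hLpos : 0 < L := Real.log_pos (by linarith)
  set κ : ℝ := c / (4 * (c + L)) with hκ
  have hκpos : 0 < κ := by positivity
  have hκ4 : κ ≤ 1 / 4 := by
    rw [hκ, div_le_div_iff₀ (by positivity) (by norm_num)]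
    nlinarith
  have hκL : 2 * κ * (c + L) = c / 2 := by
    rw [hκ]; field_simp; ring
  set C2 : ℝ := 2 ^ (d + 1) * (2 * C0 + 1) * (2 * d) * ((d + 3).factorial : ℝ) *
    (2 / (c₃ * κ)) ^ (d + 3) with hC2
  set C3 : ℝ := C1 * 2 ^ d * (2 / κ) ^ (d + 2) with hC3
  have hC2n : 0 ≤ C2 := by positivity
  have hC3n : 0 < C3 := by positivity
  refine ⟨⌈2 * L / c⌉₊ + ⌈2 / κ⌉₊ + 2 * N0 + 1, C3 + C2, by positivity, ?_⟩
  intro k hk y
  have hk1 : 2 * L / c ≤ k := by
    refine (Nat.le_ceil _).trans ?_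
    exact_mod_cast (by omega : ⌈2 * L / c⌉₊ ≤ k)
  have hk2 : 2 / κ ≤ k := by
    refine (Nat.le_ceil _).trans ?_
    exact_mod_cast (by omega : ⌈2 / κ⌉₊ ≤ k)
  have hk3 : 2 * N0 ≤ k := by omega
  have hk0 : 1 ≤ k := by omega
  have hkr : (1 : ℝ) ≤ k := by exact_mod_cast hk0
  have hk2' : 2 ≤ κ * k := by
    rw [div_le_iff₀ hκpos] at hk2
    linarith
  have hk1' : 2 * L ≤ c * k := by
    rw [div_le_iff₀ hc] at hk1
    linarith
  set b : ℕ := ⌊κ * k⌋₊ with hb
  have hb1 : (b : ℝ) ≤ κ * k := Nat.floor_le (by positivity)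
  have hb2 : κ * k < b + 1 := Nat.lt_floor_add_one _
  have hb3 : κ * k / 2 ≤ b := by linarith
  have hb4 : (1 : ℝ) ≤ b := by linarith
  have hb5 : 1 ≤ b := by exact_mod_cast hb4
  have hb6 : 4 * (b : ℝ) ≤ k := by nlinarith
  have hb7 : 4 * b ≤ k := by exact_mod_cast hb6
  obtain ⟨a', ha'⟩ : ∃ a', k = a' + 2 * b := ⟨k - 2 * b, by omega⟩
  have haN : N0 ≤ a' := by omega
  have hkr' : (k : ℝ) = a' + 2 * b := by rw [ha']; push_cast; ring
  -- the size condition
  have hsz : (PP d m : ℝ) ^ (2 * b + 1) ≤ Real.exp (c * a') := by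
    have h1 : (PP d m : ℝ) ^ (2 * b + 1) = Real.exp ((2 * b + 1 : ℕ) * L) := by
      rw [Real.exp_nat_mul, hL, Real.exp_log (by linarith)]
    rw [h1]
    apply Real.exp_le_exp.2
    push_cast
    have h2 : (a' : ℝ) = k - 2 * b := by linarith
    rw [h2]
    have h3 : 2 * (b : ℝ) * (c + L) ≤ 2 * (κ * k) * (c + L) := by
      have : 0 < c + L := by positivity
      nlinarith
    have h4 : 2 * (κ * k) * (c + L) = c / 2 * k := by
      rw [← hκL]; ring
    nlinarith
  have hP1 : (1 : ℝ) ≤ (PP d m : ℝ) := by linarith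
  have hsz2 : (PP d m : ℝ) ^ b ≤ Real.exp (c * ((a' + b : ℕ) : ℝ)) := by
    refine (pow_le_pow_right₀ hP1 (by omega : b ≤ 2 * b + 1)).trans (hsz.trans ?_)
    apply Real.exp_le_exp.2
    push_cast
    have : 0 ≤ c * (b : ℝ) := by positivity
    nlinarith
  -- step 1, 2
  have e1 : U d m r η N0 k y ≤ Ua d m r η N0 (a' + b) b (fun _ => True) y := by
    have e : k = a' + b + b := by omega
    rw [e]
    exact U_le_Ua h _ _ y
  have e2 := hstep (a' + b) b (by omega) hb5 hsz2 y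
  have e2' := (abs_le.1 e2).1
  -- step 3
  have e3 := Ua_split (b := b) h (η := η) haN y
  have e4 : k + 1 = a' + 2 * b + 1 := by omega
  rw [← e4] at e3
  -- the deviating words
  have e5 : ∀ s ∈ Icc (a' + b + 1) (k + 1), Ua d m r η N0 a' (2 * b + 1)
      (Dev d η (2 * b + 1) (s - a')) y ≤
      ((a' : ℝ) + 1) ^ d * (2 * C0 + 1) * (2 * d * Real.exp (-(c₃ * b))) := by
    intro s hs
    rw [mem_Icc] at hs
    refine (Ua_le h hn haN hsz _ y).trans ?_
    have hC1' : 0 ≤ 2 * C0 + 1 := by linarith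
    apply mul_le_mul_of_nonneg_left _ (by positivity)
    have hd0 : (0 : ℝ) < (d : ℝ) ^ (2 * b + 1) := by
      have : (0 : ℝ) < d := by
        have := h.two_le
        exact_mod_cast (by omega : 0 < d)
      positivity
    rw [div_le_iff₀ hd0]
    have h6 := hdev (s - a') (2 * b + 1) (by omega)
    have h7 : (((LW d (2 * b + 1)).filter (Dev d η (2 * b + 1) (s - a'))).card : ℝ) ≤
        2 * d * ((d : ℝ) ^ (2 * b + 1) * Real.exp (-(c₃ * ((s - a' : ℕ) : ℝ)))) := by
      refine le_trans (le_of_eq ?_) h6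
      congr 2
      ext u
      simp only [mem_filter, Dev]
    refine h7.trans ?_
    have h8 : Real.exp (-(c₃ * ((s - a' : ℕ) : ℝ))) ≤ Real.exp (-(c₃ * b)) := by
      apply Real.exp_le_exp.2
      have h9 : (b : ℝ) ≤ ((s - a' : ℕ) : ℝ) := by exact_mod_cast (by omega : b ≤ s - a')
      have := mul_le_mul_of_nonneg_left h9 hc₃.le
      linarith
    have h10 := mul_le_mul_of_nonneg_left h8 (by positivity : (0 : ℝ) ≤ 2 * d * (d : ℝ) ^ (2 * b + 1))
    linarith
  have e6 := Finset.sum_le_sum e5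
  rw [Finset.sum_const, Nat.card_Icc, nsmul_eq_mul] at e6
  have e7 : ((k + 1 + 1 - (a' + b + 1) : ℕ) : ℝ) = (b : ℝ) + 1 := by
    have : k + 1 + 1 - (a' + b + 1) = b + 1 := by omega
    rw [this]; push_cast; ring
  rw [e7] at e6
  have hb0 : (0 : ℝ) ≤ b := Nat.cast_nonneg b
  have ha0 : (0 : ℝ) ≤ a' := Nat.cast_nonneg a'
  have e8 := asym2 d (a' := (a' : ℝ)) hC0 hκpos hc₃ (by linarith : (0 : ℝ) < k) ha0
    (by linarith) (by linarith) hb3
  have e9 := asym1 d (a := ((a' + b : ℕ) : ℝ)) hC1.le hκpos (by linarith : (0 : ℝ) < k)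
    (Nat.cast_nonneg _) (by push_cast; linarith) hb3
  have e10 : (C3 + C2) / (k : ℝ) ^ 2 = C3 / (k : ℝ) ^ 2 + C2 / (k : ℝ) ^ 2 := add_div _ _ _
  rw [e10]
  linarith

end Pool.Agent.H319R3.PO
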