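import Pool.Agent.H319R3.PO.P1
import Pool.Agent.H319R3.PO.P2
import Pool.Agent.H319R3.PO.P3
import Pool.Agent.H319R3.PO.P9

/-! P10: a good class. -/

set_option autoImplicit false

namespace Pool.Agent.H319R3.PO
open Pool.Agent.H319R3.GC Pool.Agent.H319R3.DN Finset Filter Topology

variable {d : ℕ} {m r : ℕ → ℤ}

/-- sum of a periodic function over several periods -/
theorem p10_sum_periods (f : ℕ → ℝ) (D : ℕ) (hf : ∀ x, f (D + x) = f x) (q : ℕ) :
    ∑ y ∈ range (D * q), f y = q * ∑ y ∈ range D, f y := by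
  have hf' : ∀ (q x : ℕ), f (D * q + x) = f x := by
    intro q
    induction q with
    | zero => intro x; simp
    | succ q ih =>
      intro x
      have : D * (q + 1) + x = D * q + (D + x) := by ring
      rw [this, ih, hf]
  induction q with
  | zero => simp
  | succ q ih =>
    rw [Nat.mul_succ, Finset.sum_range_add, ih, Finset.sum_congr rfl (fun x _ => hf' q x)]
    push_cast
    ring

open scoped Classical in
/-- number of `y < P^k` at which a word of length `k` is valid -/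
theorem p10_sum_valid (h : Adm d m r) {k : ℕ} {w : List ℕ} (hw : w ∈ LW d k) :
    wt d m w * ∑ y ∈ range (PP d m ^ k), (if Vl d m r (y : ℤ) w then (1 : ℝ) else 0)
      = (PP d m : ℝ) ^ k / (d : ℝ) ^ k := by
  obtain ⟨q, hq⟩ := natAbs_Mw_dvd (d := d) (m := m) hw
  have hM0 : Mw m w ≠ 0 := Mw_ne_zero h (mem_LW.1 hw).2
  have hMa : ((Mw m w).natAbs : ℝ) = |(Mw m w : ℝ)| := by
    rw [← Int.cast_abs, Int.abs_eq_natAbs, Int.cast_natCast]
  have hper : ∀ x : ℕ, (if Vl d m r (((Mw m w).natAbs + x : ℕ) : ℤ) w then (1 : ℝ) else 0)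
      = if Vl d m r (x : ℤ) w then (1 : ℝ) else 0 := by
    intro x
    have h1 := Vl_per (m := m) (r := r) h hw (x : ℤ)
    have h2 : (((Mw m w).natAbs + x : ℕ) : ℤ) = (x : ℤ) + (Mw m w).natAbs := by
      push_cast; ring
    rw [h2]
    simp only [h1]
  have hone : ∑ y ∈ range (Mw m w).natAbs, (if Vl d m r (y : ℤ) w then (1 : ℝ) else 0) = 1 := by
    rw [Finset.sum_ite, Finset.sum_const_zero, add_zero, Finset.sum_const, nsmul_eq_mul, mul_one]
    exact_mod_cast Vl_card h hw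
  rw [hq, p10_sum_periods _ _ hper, hone, mul_one]
  have hP : (PP d m : ℝ) ^ k = |(Mw m w : ℝ)| * q := by
    rw [← hMa]
    exact_mod_cast hq
  rw [hP]
  unfold wt
  rw [(mem_LW.1 hw).1]
  ring

theorem p10_PP_pos (h : Adm d m r) : 0 < (PP d m : ℝ) := by
  have := h.big
  exact_mod_cast (by omega : 0 < PP d m)

open scoped Classical in
/-- average of `U` over all classes mod `P^k` -/
theorem p10_average (h : Adm d m r) (η : ℝ) (N0 k : ℕ) :
    ∑ y ∈ range (PP d m ^ k), U d m r η N0 k (y : ℤ)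
      = (((LW d k).filter fun w => Nice d η N0 w).card : ℝ) * ((PP d m : ℝ) ^ k / (d : ℝ) ^ k) := by
  have h1 : ∀ y : ℤ, U d m r η N0 k y = ∑ w ∈ (LW d k).filter (fun w => Nice d η N0 w),
      wt d m w * (if Vl d m r y w then (1 : ℝ) else 0) := by
    intro y
    unfold U
    rw [← Finset.filter_filter, Finset.sum_filter]
    refine Finset.sum_congr rfl fun w _ => ?_
    split_ifs <;> simp
  calc ∑ y ∈ range (PP d m ^ k), U d m r η N0 k (y : ℤ)
      = ∑ y ∈ range (PP d m ^ k), ∑ w ∈ (LW d k).filter (fun w => Nice d η N0 w),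
          wt d m w * (if Vl d m r (y : ℤ) w then (1 : ℝ) else 0) :=
        Finset.sum_congr rfl fun y _ => h1 y
    _ = ∑ w ∈ (LW d k).filter (fun w => Nice d η N0 w), ∑ y ∈ range (PP d m ^ k),
          wt d m w * (if Vl d m r (y : ℤ) w then (1 : ℝ) else 0) := Finset.sum_comm
    _ = ∑ w ∈ (LW d k).filter (fun w => Nice d η N0 w), (PP d m : ℝ) ^ k / (d : ℝ) ^ k := by
        refine Finset.sum_congr rfl fun w hw => ?_
        rw [← Finset.mul_sum]
        exact p10_sum_valid h (Finset.mem_filter.1 hw).1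
    _ = _ := by rw [Finset.sum_const, nsmul_eq_mul]

open scoped Classical in
/-- some class mod `P^k` has `U ≥ 1 - ε` -/
theorem p10_exists (h : Adm d m r) (η : ℝ) (N0 k : ℕ) {ε : ℝ}
    (hN : (((LW d k).filter fun w => ¬ Nice d η N0 w).card : ℝ) ≤ ε * (d : ℝ) ^ k) :
    ∃ y₀ : ℤ, 1 - ε ≤ U d m r η N0 k y₀ := by
  have hd0 : (0 : ℝ) < (d : ℝ) ^ k := by
    have := h.two_le
    have : 0 < d := by omega
    positivity
  have hP := p10_PP_pos h
  have hPk : (0 : ℝ) < (PP d m : ℝ) ^ k := by positivity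
  have hcard : (1 - ε) * (d : ℝ) ^ k ≤ (((LW d k).filter fun w => Nice d η N0 w).card : ℝ) := by
    have h1 := Finset.card_filter_add_card_filter_not (s := LW d k) (fun w => Nice d η N0 w)
    rw [card_LW] at h1
    have h2 : (((LW d k).filter fun w => Nice d η N0 w).card : ℝ) +
        (((LW d k).filter fun w => ¬ Nice d η N0 w).card : ℝ) = (d : ℝ) ^ k := by
      exact_mod_cast h1
    linarith
  have hne : (range (PP d m ^ k)).Nonempty := by
    rw [Finset.nonempty_range_iff]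
    have : 0 < PP d m := by exact_mod_cast hP
    positivity
  have hle : ∑ _y ∈ range (PP d m ^ k), (1 - ε) ≤ ∑ y ∈ range (PP d m ^ k), U d m r η N0 k (y : ℤ) := by
    rw [p10_average h, Finset.sum_const, Finset.card_range, nsmul_eq_mul]
    push_cast
    calc (PP d m : ℝ) ^ k * (1 - ε)
        = ((1 - ε) * (d : ℝ) ^ k) * ((PP d m : ℝ) ^ k / (d : ℝ) ^ k) := by
          field_simp
      _ ≤ _ := mul_le_mul_of_nonneg_right hcard (by positivity)
  obtain ⟨y, _, hy⟩ := Finset.exists_le_of_sum_le hne hle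
  exact ⟨y, hy⟩

theorem p10_congr (h : Adm d m r) (η : ℝ) (N0 k : ℕ) {y y' : ℤ}
    (hyy : (PP d m : ℤ) ^ k ∣ y - y') : U d m r η N0 k y = U d m r η N0 k y' := by
  classical
  unfold U
  congr 1
  refine Finset.filter_congr fun w hw => ?_
  rw [Vl_congr h hw hyy]

theorem good_class (h : Adm d m r) : ∃ (η c C0 : ℝ) (N0 N : ℕ) (y₀ : ℤ), NB d m r η c C0 N0 ∧
    N0 ≤ N ∧ 1 ≤ N ∧ ∀ y : ℤ, (PP d m : ℤ) ^ N ∣ y - y₀ → ∀ k : ℕ, N ≤ k →
      1 / 2 ≤ U d m r η N0 k y := by
  obtain ⟨η, c, hnb⟩ := nice_bounds h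
  obtain ⟨_, hn0⟩ := hnb 0
  have hη : 0 < η := hn0.η_pos
  obtain ⟨N0, hN0⟩ := nice_prob h.two_le hη (show (0 : ℝ) < 1 / 8 by norm_num)
  obtain ⟨C0, hn⟩ := hnb N0
  obtain ⟨N1, C, hC, hq⟩ := quenched h hn
  obtain ⟨N2, hN2⟩ := exists_nat_ge (8 * C / 3)
  set N := N0 + N1 + N2 + 2 with hN
  obtain ⟨y₀, hy₀⟩ := p10_exists h η N0 N (hN0 N)
  refine ⟨η, c, C0, N0, N, y₀, hn, by omega, by omega, ?_⟩
  intro y hy k hk
  have hNr : (N2 : ℝ) + 2 ≤ (N : ℝ) := by
    have : N2 + 2 ≤ N := by omega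
    exact_mod_cast this
  have key : 1 - 1 / 8 - C * (1 / ((N : ℝ) - 1) - 1 / ((k : ℝ) - 1)) ≤ U d m r η N0 k y := by
    induction k, hk using Nat.le_induction with
    | base =>
      rw [p10_congr h η N0 N hy, sub_self, mul_zero, sub_zero]
      exact hy₀
    | succ k hk ih =>
      have hkN : (N : ℝ) ≤ (k : ℝ) := by exact_mod_cast hk
      have hk1 : 1 < (k : ℝ) := by
        have : (0 : ℝ) ≤ (N2 : ℝ) := Nat.cast_nonneg _
        linarith
      have h1 := hq k (by omega) y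
      have h2 : C / (k : ℝ) ^ 2 ≤ C * (1 / ((k : ℝ) - 1) - 1 / (((k + 1 : ℕ) : ℝ) - 1)) := by
        have e : (((k + 1 : ℕ) : ℝ) - 1) = k := by push_cast; ring
        rw [e, div_eq_mul_one_div C]
        refine mul_le_mul_of_nonneg_left ?_ hC.le
        have e2 : 1 / ((k : ℝ) - 1) - 1 / k = 1 / (((k : ℝ) - 1) * k) := by
          have : (k : ℝ) - 1 ≠ 0 := by linarith
          have : (k : ℝ) ≠ 0 := by linarith
          field_simp
          ring
        rw [e2]
        refine one_div_le_one_div_of_le ?_ ?_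
        · exact mul_pos (by linarith) (by linarith)
        · nlinarith
      nlinarith
  have hkN : (N : ℝ) ≤ (k : ℝ) := by exact_mod_cast hk
  have h0 : (0 : ℝ) ≤ (N2 : ℝ) := Nat.cast_nonneg _
  have h3 : 0 ≤ 1 / ((k : ℝ) - 1) := by
    apply one_div_nonneg.2
    linarith
  have h4 : C * (1 / ((N : ℝ) - 1)) ≤ 3 / 8 := by
    rw [mul_one_div, div_le_iff₀ (by linarith)]
    have : 8 * C / 3 ≤ (N : ℝ) - 1 := by linarith
    linarith
  have h5 : 0 ≤ C * (1 / ((k : ℝ) - 1)) := mul_nonneg hC.le h3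
  have h6 : C * (1 / ((N : ℝ) - 1) - 1 / ((k : ℝ) - 1)) =
    C * (1 / ((N : ℝ) - 1)) - C * (1 / ((k : ℝ) - 1)) := by ring
  rw [h6] at key
  linarith

end Pool.Agent.H319R3.PO
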