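import Pool.Agent.H319R3.DN.Defs

/-!
Positive densities of invariant sets of generalised Collatz maps of coprime type: definitions.

A word `w` (first letter first) of length `k` is valid at `y` if there is an integer `x = pre y w`
with itinerary `w` and `T^k x = y`. Nice words: the frequencies of the letters in all long suffixes
(the letters next to `y`) are close to `1/d`.
-/

set_option autoImplicit false

namespace Pool.Agent.H319R3.PO
open Pool.Agent.H319R3.GC Pool.Agent.H319R3.DN Finset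

/-- all suffixes of length at least `N0` have letter frequencies within `η` of `1/d` -/
def Nice (d : ℕ) (η : ℝ) (N0 : ℕ) (w : List ℕ) : Prop :=
  ∀ s : ℕ, N0 ≤ s → s ≤ w.length → ∀ i < d,
    |((w.drop (w.length - s)).count i : ℝ) - (s : ℝ) / d| ≤ η * s

/-- the word `w` is valid at `y` -/
def Vl (d : ℕ) (m r : ℕ → ℤ) (y : ℤ) (w : List ℕ) : Prop :=
  Mw m w ∣ (d : ℤ) ^ w.length * y + Ww d m r w

/-- the preimage of `y` along `w` -/
def pre (d : ℕ) (m r : ℕ → ℤ) (y : ℤ) (w : List ℕ) : ℤ :=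
  ((d : ℤ) ^ w.length * y + Ww d m r w) / Mw m w

/-- weight of a word -/
noncomputable def wt (d : ℕ) (m : ℕ → ℤ) (w : List ℕ) : ℝ := |(Mw m w : ℝ)| / (d : ℝ) ^ w.length

open scoped Classical in
/-- sum over all words of length `b` valid at `x` -/
noncomputable def uf (d : ℕ) (m r : ℕ → ℤ) (b : ℕ) (x : ℤ) : ℝ :=
  ∑ u ∈ (LW d b).filter (fun u => Vl d m r x u), wt d m u

open scoped Classical in
/-- sum over the nice words of length `k` valid at `y` -/
noncomputable def U (d : ℕ) (m r : ℕ → ℤ) (η : ℝ) (N0 k : ℕ) (y : ℤ) : ℝ :=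
  ∑ w ∈ (LW d k).filter (fun w => Nice d η N0 w ∧ Vl d m r y w), wt d m w

open scoped Classical in
/-- sum over the valid words `u ++ v`, `v` nice of length `a`, `u` of length `b` in a collection -/
noncomputable def Ua (d : ℕ) (m r : ℕ → ℤ) (η : ℝ) (N0 a b : ℕ) (Co : List ℕ → Prop) (y : ℤ) : ℝ :=
  ∑ v ∈ (LW d a).filter (fun v => Nice d η N0 v ∧ Vl d m r y v),
    wt d m v * ∑ u ∈ (LW d b).filter (fun u => Co u ∧ Vl d m r (pre d m r y v) u), wt d m u

/-- bounds for nice words -/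
structure NB (d : ℕ) (m r : ℕ → ℤ) (η c C0 : ℝ) (N0 : ℕ) : Prop where
  η_pos : 0 < η
  c_pos : 0 < c
  one_le : 1 ≤ C0
  off : ∀ w : List ℕ, (∀ i ∈ w, i < d) → Nice d η N0 w →
    |(Ww d m r w : ℝ)| ≤ C0 * (d : ℝ) ^ w.length
  mul : ∀ w : List ℕ, (∀ i ∈ w, i < d) → Nice d η N0 w → N0 ≤ w.length →
    |(Mw m w : ℝ)| ≤ (d : ℝ) ^ w.length * Real.exp (-(c * w.length))

open scoped Classical in
/-- harmonic sum of the elements of `S` on the side `σ` up to `N` -/
noncomputable def HS (S : Set ℤ) (σ : ℤ) (N : ℕ) : ℝ :=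
  ∑ n ∈ (Icc 1 N).filter (fun n : ℕ => σ * (n : ℤ) ∈ S), 1 / (n : ℝ)

/-- Moeller's maps: `x/d` if `d ∣ x`, `(μ x - r_i)/d` if `x ≡ i ≠ 0` -/
structure Mol (d μ : ℕ) (m r : ℕ → ℤ) : Prop where
  m0 : m 0 = 1
  r0 : r 0 = 0
  mi : ∀ i, 1 ≤ i → i < d → m i = μ

end Pool.Agent.H319R3.PO
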