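import Pool.Agent.H319R3.PO.Defs
import Pool.Agent.H319R3.GC.W1
import Pool.Agent.H319R3.GC.W2
import Pool.Agent.H319R3.DN.T1

/-! Positive densities of invariant sets of generalised Collatz maps, task P1: validity of words
(helper267). -/

set_option autoImplicit false

namespace Pool.Agent.H319R3.PO
open Pool.Agent.H319R3.GC Pool.Agent.H319R3.DN Finset Filter Topology

variable {d : ℕ} {m r : ℕ → ℤ}

theorem pre_mul {y : ℤ} {w : List ℕ} (hy : Vl d m r y w) :
    Mw m w * pre d m r y w = (d : ℤ) ^ w.length * y + Ww d m r w := by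
  unfold pre
  exact Int.mul_ediv_cancel' hy

theorem Vl_append (h : Adm d m r) {u v : List ℕ} (hu : ∀ i ∈ u, i < d) (hv : ∀ i ∈ v, i < d)
    (y : ℤ) : Vl d m r y (u ++ v) ↔ Vl d m r y v ∧ Vl d m r (pre d m r y v) u := by
  have hMv := Mw_ne_zero h hv
  -- the dividend, for `v` valid
  have hid : Vl d m r y v → (d : ℤ) ^ (u ++ v).length * y + Ww d m r (u ++ v) =
      Mw m v * ((d : ℤ) ^ u.length * pre d m r y v + Ww d m r u) := by
    intro hy
    have h1 := pre_mul hy
    rw [List.length_append, Ww_append, pow_add]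
    linear_combination (-(d : ℤ) ^ u.length) * h1
  constructor
  · intro hy
    have hv' : Vl d m r y v := by
      unfold Vl at hy ⊢
      rw [List.length_append, Ww_append, Mw_append, pow_add] at hy
      have h1 : Mw m v ∣ (d : ℤ) ^ u.length * ((d : ℤ) ^ v.length * y + Ww d m r v) := by
        have h2 : Mw m v ∣ (d : ℤ) ^ u.length * (d : ℤ) ^ v.length * y +
            (Mw m v * Ww d m r u + (d : ℤ) ^ u.length * Ww d m r v) :=
          (Dvd.intro_left _ rfl).trans hy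
        have h3 : (d : ℤ) ^ u.length * ((d : ℤ) ^ v.length * y + Ww d m r v) =
            ((d : ℤ) ^ u.length * (d : ℤ) ^ v.length * y +
            (Mw m v * Ww d m r u + (d : ℤ) ^ u.length * Ww d m r v)) - Mw m v * Ww d m r u := by
          ring
        rw [h3]
        exact dvd_sub h2 (Dvd.intro _ rfl)
      exact (IsCoprime.pow_right (Mw_cop h hv)).dvd_of_dvd_mul_left h1
    refine ⟨hv', ?_⟩
    unfold Vl at hy
    rw [hid hv', Mw_append, mul_comm (Mw m u)] at hy
    exact Int.dvd_of_mul_dvd_mul_left hMv hy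
  · rintro ⟨hv', hu'⟩
    unfold Vl
    rw [hid hv', Mw_append, mul_comm (Mw m u)]
    exact mul_dvd_mul_left _ hu'

theorem pre_append (h : Adm d m r) {u v : List ℕ} (hu : ∀ i ∈ u, i < d) (hv : ∀ i ∈ v, i < d)
    {y : ℤ} (hy : Vl d m r y v) (hyu : Vl d m r (pre d m r y v) u) :
    pre d m r y (u ++ v) = pre d m r (pre d m r y v) u := by
  have hMv := Mw_ne_zero h hv
  have hMu := Mw_ne_zero h hu
  have hy2 : Vl d m r y (u ++ v) := (Vl_append h hu hv y).2 ⟨hy, hyu⟩
  have h1 := pre_mul hy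
  have h2 := pre_mul hyu
  have h3 := pre_mul hy2
  rw [Mw_append, List.length_append, Ww_append, pow_add] at h3
  have h4 : Mw m u * Mw m v * pre d m r y (u ++ v) =
      Mw m u * Mw m v * pre d m r (pre d m r y v) u := by
    linear_combination h3 - Mw m v * h2 - (d : ℤ) ^ u.length * h1
  exact mul_left_cancel₀ (mul_ne_zero hMu hMv) h4

theorem wt_append (h : 2 ≤ d) (u v : List ℕ) : wt d m (u ++ v) = wt d m u * wt d m v := by
  unfold wt
  rw [Mw_append, List.length_append, pow_add]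
  push_cast
  rw [abs_mul, mul_div_mul_comm]

theorem wt_nonneg (w : List ℕ) : 0 ≤ wt d m w := by
  unfold wt
  positivity

theorem P1_dpow (h : Adm d m r) (k : ℕ) : ((d : ℤ)) ^ k ≠ 0 :=
  pow_ne_zero _ (by have := h.two_le; omega)

theorem pre_iter (h : Adm d m r) {k : ℕ} {w : List ℕ} (hw : w ∈ LW d k) {y : ℤ}
    (hy : Vl d m r y w) : (Tm d m r)^[k] (pre d m r y w) = y ∧ wd d m r k (pre d m r y w) = w := by
  have hlen := (mem_LW.1 hw).1
  have h1 := pre_mul hy
  rw [hlen] at h1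
  have h2 : wd d m r k (pre d m r y w) = w := by
    refine wd_of_dvd h hw ⟨y, ?_⟩
    rw [h1]; ring
  refine ⟨?_, h2⟩
  have h3 := iter_eq h k (pre d m r y w)
  rw [h2] at h3
  apply mul_left_cancel₀ (P1_dpow h k)
  rw [h3, h1]
  ring

theorem pre_inj (h : Adm d m r) {k : ℕ} {w w' : List ℕ} (hw : w ∈ LW d k) (hw' : w' ∈ LW d k)
    {y : ℤ} (hy : Vl d m r y w) (hy' : Vl d m r y w')
    (he : pre d m r y w = pre d m r y w') : w = w' := by
  rw [← (pre_iter h hw hy).2, ← (pre_iter h hw' hy').2, he]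

/-- the itinerary of a preimage is valid -/
theorem Vl_itin (h : Adm d m r) (k : ℕ) (x : ℤ) :
    Vl d m r ((Tm d m r)^[k] x) (wd d m r k x) ∧
      pre d m r ((Tm d m r)^[k] x) (wd d m r k x) = x := by
  have hmem := wd_mem (m := m) (r := r) h.two_le k x
  have hlen := (mem_LW.1 hmem).1
  have h1 : (d : ℤ) ^ (wd d m r k x).length * (Tm d m r)^[k] x + Ww d m r (wd d m r k x) =
      Mw m (wd d m r k x) * x := by
    rw [hlen, iter_eq h]
    ring
  refine ⟨?_, ?_⟩
  · unfold Vl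
    rw [h1]
    exact Dvd.intro _ rfl
  · unfold pre
    rw [h1]
    exact Int.mul_ediv_cancel_left _ (Mw_ne_zero h (mem_LW.1 hmem).2)

theorem P1_dvd_iff {M D W y y' : ℤ} (h : M ∣ y - y') : M ∣ D * y + W ↔ M ∣ D * y' + W := by
  have h1 : D * y + W = (D * y' + W) + D * (y - y') := by ring
  rw [h1]
  exact dvd_add_left (Dvd.dvd.mul_left h D)

theorem Vl_congr (h : Adm d m r) {k : ℕ} {w : List ℕ} (hw : w ∈ LW d k) {y y' : ℤ}
    (hyy : ((PP d m : ℤ)) ^ k ∣ y - y') : Vl d m r y w ↔ Vl d m r y' w := by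
  unfold Vl
  apply P1_dvd_iff
  refine dvd_trans ?_ hyy
  have h1 := natAbs_Mw_dvd (m := m) hw
  have h2 : ((Mw m w).natAbs : ℤ) ∣ ((PP d m ^ k : ℕ) : ℤ) := Int.natCast_dvd_natCast.2 h1
  rw [Nat.cast_pow] at h2
  exact Int.natAbs_dvd.1 h2

open scoped Classical in
/-- exactly one class mod `|M_w|` is valid -/
theorem Vl_card (h : Adm d m r) {k : ℕ} {w : List ℕ} (hw : w ∈ LW d k) :
    ((range (Mw m w).natAbs).filter (fun e : ℕ => Vl d m r (e : ℤ) w)).card = 1 := by
  have hwd := (mem_LW.1 hw).2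
  have hM := Mw_ne_zero h hwd
  have hcop : IsCoprime (Mw m w) ((d : ℤ) ^ w.length) := (Mw_cop h hwd).pow_right
  obtain ⟨a, b, hab⟩ := hcop
  rw [Finset.card_eq_one]
  have hMa : 0 < |Mw m w| := abs_pos.2 hM
  have hr0 : 0 ≤ (-(Ww d m r w) * b) % |Mw m w| := Int.emod_nonneg _ hMa.ne'
  have hr1 : (-(Ww d m r w) * b) % |Mw m w| < |Mw m w| := Int.emod_lt_of_pos _ hMa
  refine ⟨((-(Ww d m r w) * b) % |Mw m w|).toNat, ?_⟩
  ext e
  rw [mem_filter, mem_singleton, mem_range]
  have hkey : ∀ z : ℤ, Mw m w ∣ (d : ℤ) ^ w.length * z + Ww d m r w ↔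
      Mw m w ∣ z - (-(Ww d m r w) * b) % |Mw m w| := by
    intro z
    have h1 : Mw m w ∣ (-(Ww d m r w) * b) - (-(Ww d m r w) * b) % |Mw m w| := by
      have h2 : |Mw m w| ∣ (-(Ww d m r w) * b) - (-(Ww d m r w) * b) % |Mw m w| :=
        Int.dvd_self_sub_emod
      exact (abs_dvd _ _).1 h2
    constructor
    · intro h3
      have h4 : z - (-(Ww d m r w) * b) % |Mw m w| = b * ((d : ℤ) ^ w.length * z + Ww d m r w) +
          Mw m w * (a * z) + ((-(Ww d m r w) * b) - (-(Ww d m r w) * b) % |Mw m w|) := by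
        linear_combination (-z) * hab
      rw [h4]
      exact dvd_add (dvd_add (Dvd.dvd.mul_left h3 b) (Dvd.intro _ rfl)) h1
    · intro h3
      have h4 : (d : ℤ) ^ w.length * z + Ww d m r w =
          (d : ℤ) ^ w.length * (z - (-(Ww d m r w) * b) % |Mw m w|) +
          Mw m w * (a * Ww d m r w) -
          (d : ℤ) ^ w.length * ((-(Ww d m r w) * b) - (-(Ww d m r w) * b) % |Mw m w|) := by
        linear_combination (-(Ww d m r w)) * hab
      rw [h4]
      exact dvd_sub (dvd_add (Dvd.dvd.mul_left h3 _) (Dvd.intro _ rfl)) (Dvd.dvd.mul_left h1 _)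
  have hnat : ((Mw m w).natAbs : ℤ) = |Mw m w| := Int.natCast_natAbs _
  constructor
  · rintro ⟨he, hV⟩
    have h5 := (hkey (e : ℤ)).1 hV
    have h6 : |Mw m w| ∣ (e : ℤ) - (-(Ww d m r w) * b) % |Mw m w| := (abs_dvd _ _).2 h5
    have h7 : (e : ℤ) < |Mw m w| := by rw [← hnat]; exact_mod_cast he
    have h8 : (e : ℤ) - (-(Ww d m r w) * b) % |Mw m w| = 0 :=
      Int.eq_zero_of_abs_lt_dvd h6 (by rw [abs_lt]; constructor <;> omega)
    omega
  · intro he
    have h5 : (e : ℤ) = (-(Ww d m r w) * b) % |Mw m w| := by omega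
    refine ⟨by omega, ?_⟩
    unfold Vl
    rw [hkey, h5, sub_self]
    exact dvd_zero _

theorem Vl_per (h : Adm d m r) {k : ℕ} {w : List ℕ} (hw : w ∈ LW d k) (y : ℤ) :
    Vl d m r (y + (Mw m w).natAbs) w ↔ Vl d m r y w := by
  unfold Vl
  apply P1_dvd_iff
  rw [add_sub_cancel_left]
  exact Int.dvd_natAbs.2 dvd_rfl

end Pool.Agent.H319R3.PO
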