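import Pool.Agent.H319R3.PO.Defs
import Pool.Agent.H319R3.PO.P1

/-!
Positive densities, task P11: lower bound of the harmonic sum of an invariant set.
-/

set_option autoImplicit false

namespace Pool.Agent.H319R3.PO
open Pool.Agent.H319R3.GC Pool.Agent.H319R3.DN Finset Filter Topology

variable {d : ℕ} {m r : ℕ → ℤ}

/-- iterated invariance -/
theorem inv_iter_p11 {S : Set ℤ} (hS : Inv d m r S) (k : ℕ) (x : ℤ) :
    x ∈ S ↔ (Tm d m r)^[k] x ∈ S := by
  induction k generalizing x with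
  | zero => simp
  | succ k ih =>
    rw [Function.iterate_succ_apply, ← ih (Tm d m r x)]
    exact hS x

/-- a finite set of elements of `S` on one side -/
theorem side_p11 {S : Set ℤ} {σ : ℤ} (hσ : σ = 1 ∨ σ = -1) (X : ℕ) (Z : Finset ℤ)
    (h1 : ∀ x ∈ Z, x ∈ S) (h2 : ∀ x ∈ Z, 0 < σ * x) (h3 : ∀ x ∈ Z, |(x : ℝ)| ≤ X) :
    ∑ x ∈ Z, 1 / |(x : ℝ)| ≤ HS S σ X := by
  classical
  have hσσ : σ * σ = 1 := by rcases hσ with h | h <;> rw [h] <;> norm_num
  have habs : |(σ : ℝ)| = 1 := by rcases hσ with h | h <;> rw [h] <;> norm_num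
  have hinj : Set.InjOn (fun n : ℕ => σ * (n : ℤ))
      (((Icc 1 X).filter (fun n : ℕ => σ * (n : ℤ) ∈ S) : Finset ℕ) : Set ℕ) := by
    intro a _ b _ hab
    have : σ * (σ * (a : ℤ)) = σ * (σ * (b : ℤ)) := congrArg (σ * ·) hab
    rw [← mul_assoc, ← mul_assoc, hσσ, one_mul, one_mul] at this
    exact_mod_cast this
  have hHS : HS S σ X = ∑ x ∈ ((Icc 1 X).filter (fun n : ℕ => σ * (n : ℤ) ∈ S)).image
      (fun n : ℕ => σ * (n : ℤ)), 1 / |(x : ℝ)| := by
    rw [Finset.sum_image hinj]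
    unfold HS
    refine Finset.sum_congr (by congr) fun n _ => ?_
    push_cast
    rw [abs_mul, habs, one_mul, Nat.abs_cast]
  rw [hHS]
  refine Finset.sum_le_sum_of_subset_of_nonneg ?_ fun x _ _ => by positivity
  intro x hx
  rw [mem_image]
  have hpos := h2 x hx
  have hcast : (((σ * x).toNat : ℕ) : ℤ) = σ * x := Int.toNat_of_nonneg hpos.le
  refine ⟨(σ * x).toNat, ?_, ?_⟩
  · rw [mem_filter, mem_Icc]
    refine ⟨⟨?_, ?_⟩, ?_⟩
    · omega
    · have hle : ((σ * x : ℤ) : ℝ) ≤ X := by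
        refine le_trans (le_abs_self _) ?_
        push_cast
        rw [abs_mul, habs, one_mul]
        exact h3 x hx
      have : (σ * x : ℤ) ≤ (X : ℤ) := by exact_mod_cast hle
      omega
    · rw [hcast, ← mul_assoc, hσσ, one_mul]
      exact h1 x hx
  · show σ * (((σ * x).toNat : ℕ) : ℤ) = x
    rw [hcast, ← mul_assoc, hσσ, one_mul]

/-- a finite set of nonzero elements of `S` -/
theorem sides_p11 {S : Set ℤ} (X : ℕ) (Z : Finset ℤ)
    (h1 : ∀ x ∈ Z, x ∈ S) (h2 : ∀ x ∈ Z, x ≠ 0) (h3 : ∀ x ∈ Z, |(x : ℝ)| ≤ X) :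
    ∑ x ∈ Z, 1 / |(x : ℝ)| ≤ HS S 1 X + HS S (-1) X := by
  classical
  rw [← Finset.sum_filter_add_sum_filter_not Z (fun x => 0 < x)]
  refine add_le_add ?_ ?_
  · refine side_p11 (Or.inl rfl) X _ ?_ ?_ ?_
    · intro x hx; exact h1 x (mem_filter.1 hx).1
    · intro x hx; rw [one_mul]; exact (mem_filter.1 hx).2
    · intro x hx; exact h3 x (mem_filter.1 hx).1
  · refine side_p11 (Or.inr rfl) X _ ?_ ?_ ?_
    · intro x hx; exact h1 x (mem_filter.1 hx).1
    · intro x hx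
      have := h2 x (mem_filter.1 hx).1
      have := (mem_filter.1 hx).2
      omega
    · intro x hx; exact h3 x (mem_filter.1 hx).1

/-- the multiplier is positive if all multipliers are -/
theorem Mw_pos_p11 (hm : ∀ i < d, 0 < m i) {w : List ℕ} (hw : ∀ i ∈ w, i < d) : 0 < Mw m w := by
  induction w with
  | nil => simp [Mw]
  | cons i w ih =>
    rw [Mw_cons]
    exact mul_pos (hm i (hw i (by simp))) (ih fun j hj => hw j (by simp [hj]))

/-- properties of the preimages along nice words -/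
theorem pre_bounds_p11 (h : Adm d m r) {η c C0 : ℝ} {N0 : ℕ} (hn : NB d m r η c C0 N0) {z : ℤ}
    (hz : C0 < |(z : ℝ)|) {k : ℕ} {w : List ℕ} (hw : w ∈ LW d k) (hni : Nice d η N0 w)
    (hv : Vl d m r z w) :
    pre d m r z w ≠ 0 ∧ |(pre d m r z w : ℝ)| ≤ (|(z : ℝ)| + C0) * (d : ℝ) ^ k ∧
    wt d m w / (|(z : ℝ)| + C0) ≤ 1 / |(pre d m r z w : ℝ)| ∧
    ((∀ i < d, 0 < m i) → ∀ σ : ℤ, (σ = 1 ∨ σ = -1) → 0 < σ * z → 0 < σ * pre d m r z w) := by
  obtain ⟨hl, hd⟩ := mem_LW.1 hw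
  have hC : 1 ≤ C0 := hn.one_le
  have hd2 : (2 : ℝ) ≤ d := by exact_mod_cast h.two_le
  have hdk : 0 < (d : ℝ) ^ k := by positivity
  have e := pre_mul hv
  have eR : (Mw m w : ℝ) * (pre d m r z w : ℝ) = (d : ℝ) ^ k * z + Ww d m r w := by
    rw [hl] at e
    exact_mod_cast e
  have hoff := hn.off w hd hni
  rw [hl] at hoff
  have hM0 : Mw m w ≠ 0 := Mw_ne_zero h hd
  have hM1 : 1 ≤ |(Mw m w : ℝ)| := by
    have : 1 ≤ |Mw m w| := Int.one_le_abs hM0
    exact_mod_cast this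
  have hup : |(Mw m w : ℝ)| * |(pre d m r z w : ℝ)| ≤ (|(z : ℝ)| + C0) * (d : ℝ) ^ k := by
    rw [← abs_mul, eR]
    calc |(d : ℝ) ^ k * z + Ww d m r w| ≤ |(d : ℝ) ^ k * z| + |(Ww d m r w : ℝ)| := abs_add_le _ _
      _ = (d : ℝ) ^ k * |(z : ℝ)| + |(Ww d m r w : ℝ)| := by rw [abs_mul, abs_of_pos hdk]
      _ ≤ (d : ℝ) ^ k * |(z : ℝ)| + C0 * (d : ℝ) ^ k := by linarith
      _ = (|(z : ℝ)| + C0) * (d : ℝ) ^ k := by ring
  have hlow : 0 < |(Mw m w : ℝ)| * |(pre d m r z w : ℝ)| := by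
    rw [← abs_mul, eR]
    have h1 : |(d : ℝ) ^ k * z| - |(Ww d m r w : ℝ)| ≤ |(d : ℝ) ^ k * z + Ww d m r w| := by
      have := abs_sub_abs_le_abs_sub ((d : ℝ) ^ k * z) (-(Ww d m r w : ℝ))
      rw [abs_neg, sub_neg_eq_add] at this
      exact this
    rw [abs_mul, abs_of_pos hdk] at h1
    have h2 : C0 * (d : ℝ) ^ k < (d : ℝ) ^ k * |(z : ℝ)| := by
      rw [mul_comm]; exact mul_lt_mul_of_pos_left hz hdk
    linarith
  have hx : 0 < |(pre d m r z w : ℝ)| := by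
    rcases (abs_nonneg (pre d m r z w : ℝ)).lt_or_eq with h' | h'
    · exact h'
    · rw [← h', mul_zero] at hlow; exact absurd hlow (lt_irrefl _)
  have hR : 0 < |(z : ℝ)| + C0 := by
    have := abs_nonneg (z : ℝ)
    linarith
  refine ⟨?_, ?_, ?_, ?_⟩
  · intro h0
    rw [h0] at hx
    simp at hx
  · refine le_trans ?_ hup
    nlinarith
  · rw [div_le_div_iff₀ hR hx, one_mul]
    unfold wt
    rw [hl, div_mul_eq_mul_div, div_le_iff₀ hdk]
    exact hup
  · intro hm σ hσ hσz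
    have hMp : 0 < (Mw m w : ℝ) := by exact_mod_cast Mw_pos_p11 hm hd
    have hσR : 0 < (σ : ℝ) * z := by exact_mod_cast hσz
    have habs : |(σ : ℝ)| = 1 := by rcases hσ with h | h <;> rw [h] <;> norm_num
    have hσz' : (σ : ℝ) * z = |(z : ℝ)| := by
      rw [← abs_of_pos hσR, abs_mul, habs, one_mul]
    have hσW : -(C0 * (d : ℝ) ^ k) ≤ (σ : ℝ) * Ww d m r w := by
      have : |(σ : ℝ) * Ww d m r w| ≤ C0 * (d : ℝ) ^ k := by
        rw [abs_mul, habs, one_mul]; exact hoff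
      exact (abs_le.1 this).1
    have key : 0 < (Mw m w : ℝ) * ((σ : ℝ) * (pre d m r z w : ℝ)) := by
      have : (Mw m w : ℝ) * ((σ : ℝ) * (pre d m r z w : ℝ)) =
          (d : ℝ) ^ k * ((σ : ℝ) * z) + (σ : ℝ) * Ww d m r w := by
        rw [← mul_assoc, mul_comm (Mw m w : ℝ) (σ : ℝ), mul_assoc, eR]; ring
      rw [this, hσz']
      have h2 : C0 * (d : ℝ) ^ k < (d : ℝ) ^ k * |(z : ℝ)| := by
        rw [mul_comm]; exact mul_lt_mul_of_pos_left hz hdk
      linarith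
    have := (mul_pos_iff_of_pos_left hMp).1 key
    exact_mod_cast this

theorem harm_lower (h : Adm d m r) {η c C0 : ℝ} {N0 N : ℕ} (hn : NB d m r η c C0 N0) {z : ℤ}
    (hz : C0 < |(z : ℝ)|) (hU : ∀ k : ℕ, N ≤ k → 1 / 2 ≤ U d m r η N0 k z)
    (hper : ∀ j : ℕ, 1 ≤ j → (Tm d m r)^[j] z ≠ z) {S : Set ℤ} (hS : Inv d m r S) (hzS : z ∈ S) :
    ∃ (c' : ℝ) (X₀ : ℕ), 0 < c' ∧ (∀ X : ℕ, X₀ ≤ X → c' * Real.log X ≤ HS S 1 X + HS S (-1) X) ∧
      ((∀ i < d, 0 < m i) → ∀ σ : ℤ, (σ = 1 ∨ σ = -1) → 0 < σ * z → ∀ X : ℕ, X₀ ≤ X →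
        c' * Real.log X ≤ HS S σ X) := by
  classical
  obtain ⟨R, hRdef⟩ : ∃ R : ℝ, R = |(z : ℝ)| + C0 := ⟨_, rfl⟩
  have hC : 1 ≤ C0 := hn.one_le
  have hR : 1 < R := by rw [hRdef]; linarith
  have hR0 : 0 < R := by linarith
  have hd2 : (2 : ℝ) ≤ d := by exact_mod_cast h.two_le
  have hld : 0 < Real.log d := Real.log_pos (by linarith)
  -- the sets of preimages
  let Wk : ℕ → Finset (List ℕ) := fun k =>
    (LW d k).filter (fun w => Nice d η N0 w ∧ Vl d m r z w)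
  let Zk : ℕ → Finset ℤ := fun k => (Wk k).image (pre d m r z)
  have hWk : ∀ k w, w ∈ Wk k → w ∈ LW d k ∧ Nice d η N0 w ∧ Vl d m r z w := by
    intro k w hw
    exact mem_filter.1 hw
  have hZk : ∀ k x, x ∈ Zk k → ∃ w, w ∈ LW d k ∧ Nice d η N0 w ∧ Vl d m r z w ∧
      pre d m r z w = x := by
    intro k x hx
    obtain ⟨w, hw, hwx⟩ := mem_image.1 hx
    obtain ⟨a, b, c⟩ := hWk k w hw
    exact ⟨w, a, b, c, hwx⟩
  have hZiter : ∀ k x, x ∈ Zk k → (Tm d m r)^[k] x = z := by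
    intro k x hx
    obtain ⟨w, hw, -, hv, rfl⟩ := hZk k x hx
    exact (pre_iter h hw hv).1
  have hdisj : ∀ k l, k ≠ l → Disjoint (Zk k) (Zk l) := by
    have key : ∀ k l, k < l → Disjoint (Zk k) (Zk l) := by
      intro k l hkl
      rw [Finset.disjoint_left]
      intro x hx hx'
      have e1 := hZiter k x hx
      have e2 := hZiter l x hx'
      have : (Tm d m r)^[l - k] z = z := by
        rw [← e1, ← Function.iterate_add_apply, Nat.sub_add_cancel hkl.le, e2, e1]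
      exact hper (l - k) (by omega) this
    intro k l hkl
    rcases lt_or_gt_of_ne hkl with h' | h'
    · exact key k l h'
    · exact (key l k h').symm
  have hsum : ∀ k, N ≤ k → 1 / (2 * R) ≤ ∑ x ∈ Zk k, 1 / |(x : ℝ)| := by
    intro k hk
    have hinj : Set.InjOn (pre d m r z) ((Wk k : Finset (List ℕ)) : Set (List ℕ)) := by
      intro w hw w' hw' he
      obtain ⟨a, -, b⟩ := hWk k w hw
      obtain ⟨a', -, b'⟩ := hWk k w' hw'
      exact pre_inj h a a' b b' he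
    rw [Finset.sum_image hinj]
    have h1 : U d m r η N0 k z / R ≤ ∑ w ∈ Wk k, 1 / |(pre d m r z w : ℝ)| := by
      unfold U
      rw [Finset.sum_div]
      have hfe : (LW d k).filter (fun w => Nice d η N0 w ∧ Vl d m r z w) = Wk k := rfl
      have : ∑ w ∈ Wk k, wt d m w / R ≤ ∑ w ∈ Wk k, 1 / |(pre d m r z w : ℝ)| := by
        refine Finset.sum_le_sum fun w hw => ?_
        obtain ⟨a, b, c⟩ := hWk k w hw
        rw [hRdef]
        exact (pre_bounds_p11 h hn hz a b c).2.2.1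
      refine le_trans (le_of_eq ?_) this
      refine Finset.sum_congr ?_ fun _ _ => rfl
      rw [← hfe]
    refine le_trans ?_ h1
    rw [div_le_div_iff₀ (by positivity) hR0]
    have := hU k hk
    nlinarith
  have hunion : ∀ K : ℕ, ((Finset.Ico N K).card : ℝ) * (1 / (2 * R)) ≤
      ∑ x ∈ (Finset.Ico N K).biUnion Zk, 1 / |(x : ℝ)| := by
    intro K
    rw [Finset.sum_biUnion (fun k _ l _ hkl => hdisj k l hkl)]
    rw [← nsmul_eq_mul]
    refine Finset.card_nsmul_le_sum _ _ _ fun k hk => hsum k (Finset.mem_Ico.1 hk).1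
  have hbound : ∀ (X : ℕ), (1 : ℝ) ≤ X → Real.log R ≤ Real.log X → ∀ k, k <
      ⌊(Real.log X - Real.log R) / Real.log d⌋₊ + 1 → R * (d : ℝ) ^ k ≤ X := by
    intro X hX1 hX k hk
    have hk' : k ≤ ⌊(Real.log X - Real.log R) / Real.log d⌋₊ := by omega
    have h1 : (k : ℝ) ≤ (Real.log X - Real.log R) / Real.log d := by
      refine le_trans (Nat.cast_le.2 hk') (Nat.floor_le ?_)
      exact div_nonneg (by linarith) hld.le
    rw [le_div_iff₀ hld] at h1
    have hXp : (0 : ℝ) < X := by linarith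
    rw [← Real.log_le_log_iff (by positivity) hXp, Real.log_mul (by positivity) (by positivity),
      Real.log_pow]
    linarith
  have hZprop : ∀ (X : ℕ), (1 : ℝ) ≤ X → Real.log R ≤ Real.log X →
      ∀ x ∈ (Finset.Ico N (⌊(Real.log X - Real.log R) / Real.log d⌋₊ + 1)).biUnion Zk,
      x ∈ S ∧ x ≠ 0 ∧ |(x : ℝ)| ≤ X ∧
      ((∀ i < d, 0 < m i) → ∀ σ : ℤ, (σ = 1 ∨ σ = -1) → 0 < σ * z → 0 < σ * x) := by
    intro X hX1 hX x hx
    obtain ⟨k, hk, hxk⟩ := Finset.mem_biUnion.1 hx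
    rw [Finset.mem_Ico] at hk
    have e1 := hZiter k x hxk
    obtain ⟨w, hw, hni, hv, rfl⟩ := hZk k x hxk
    obtain ⟨p1, p2, -, p4⟩ := pre_bounds_p11 h hn hz hw hni hv
    refine ⟨?_, p1, ?_, p4⟩
    · rw [inv_iter_p11 hS k, e1]; exact hzS
    · rw [← hRdef] at p2
      exact p2.trans (hbound X hX1 hX k hk.2)
  have hcount : ∀ (X : ℕ), 2 * (Real.log R + N * Real.log d) ≤ Real.log X →
      1 / (4 * R * Real.log d) * Real.log X ≤
        ((Finset.Ico N (⌊(Real.log X - Real.log R) / Real.log d⌋₊ + 1)).card : ℝ) *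
          (1 / (2 * R)) := by
    intro X hX
    have h1 : (Real.log X - Real.log R) / Real.log d - N ≤
        ((Finset.Ico N (⌊(Real.log X - Real.log R) / Real.log d⌋₊ + 1)).card : ℝ) := by
      rw [Nat.card_Ico]
      have a1 := (Nat.lt_floor_add_one ((Real.log X - Real.log R) / Real.log d)).le
      have a2 : ((⌊(Real.log X - Real.log R) / Real.log d⌋₊ + 1 : ℕ) : ℝ) ≤
          ((⌊(Real.log X - Real.log R) / Real.log d⌋₊ + 1 - N : ℕ) : ℝ) + N := by
        have : ⌊(Real.log X - Real.log R) / Real.log d⌋₊ + 1 ≤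
          ⌊(Real.log X - Real.log R) / Real.log d⌋₊ + 1 - N + N := by omega
        exact_mod_cast this
      push_cast at a2
      linarith
    have h2 : Real.log X / (2 * Real.log d) ≤ (Real.log X - Real.log R) / Real.log d - N := by
      rw [div_sub' hld.ne', div_le_div_iff₀ (by positivity) hld]
      nlinarith
    calc 1 / (4 * R * Real.log d) * Real.log X = Real.log X / (2 * Real.log d) * (1 / (2 * R)) := by
          field_simp; ring
      _ ≤ _ := mul_le_mul_of_nonneg_right (h2.trans h1) (by positivity)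
  have hlogR : 0 < Real.log R := Real.log_pos hR
  have hX0 : ∀ X : ℕ, ⌈Real.exp (2 * (Real.log R + N * Real.log d))⌉₊ ≤ X →
      (1 : ℝ) ≤ X ∧ Real.log R ≤ Real.log X ∧ 2 * (Real.log R + N * Real.log d) ≤ Real.log X := by
    intro X hX
    have h0 : 0 ≤ (N : ℝ) * Real.log d := by positivity
    have h1 : Real.exp (2 * (Real.log R + N * Real.log d)) ≤ X :=
      (Nat.le_ceil _).trans (by exact_mod_cast hX)
    have h2 : 1 ≤ Real.exp (2 * (Real.log R + N * Real.log d)) := Real.one_le_exp (by positivity)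
    have h3 : 2 * (Real.log R + N * Real.log d) ≤ Real.log X := by
      rw [← Real.log_exp (2 * (Real.log R + N * Real.log d))]
      exact Real.log_le_log (Real.exp_pos _) h1
    exact ⟨h2.trans h1, by linarith, h3⟩
  refine ⟨1 / (4 * R * Real.log d), ⌈Real.exp (2 * (Real.log R + N * Real.log d))⌉₊, by positivity,
    ?_, ?_⟩
  · intro X hX
    obtain ⟨a1, a2, a3⟩ := hX0 X hX
    refine (hcount X a3).trans ((hunion _).trans ?_)
    exact sides_p11 X _ (fun x hx => (hZprop X a1 a2 x hx).1) (fun x hx => (hZprop X a1 a2 x hx).2.1)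
      (fun x hx => (hZprop X a1 a2 x hx).2.2.1)
  · intro hm σ hσ hσz X hX
    obtain ⟨a1, a2, a3⟩ := hX0 X hX
    refine (hcount X a3).trans ((hunion _).trans ?_)
    exact side_p11 hσ X _ (fun x hx => (hZprop X a1 a2 x hx).1)
      (fun x hx => (hZprop X a1 a2 x hx).2.2.2 hm σ hσ hσz)
      (fun x hx => (hZprop X a1 a2 x hx).2.2.1)

end Pool.Agent.H319R3.PO
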