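import Pool.Agent.H319R3.PO.Defs

/-! Task P12: zero density implies a small harmonic sum (helper114). -/

set_option autoImplicit false

namespace Pool.Agent.H319R3.PO
open Pool.Agent.H319R3.GC Pool.Agent.H319R3.DN Finset Filter Topology

namespace P12

open scoped Classical in
/-- the number of `n` in `[1, N]` with `σ n` in `S` -/
noncomputable def cn (S : Set ℤ) (σ : ℤ) (N : ℕ) : ℝ :=
  (((Icc 1 N).filter (fun n : ℕ => σ * (n : ℤ) ∈ S)).card : ℝ)

theorem cn_zero (S : Set ℤ) (σ : ℤ) : cn S σ 0 = 0 := by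
  unfold cn
  simp

theorem cn_nonneg (S : Set ℤ) (σ : ℤ) (N : ℕ) : 0 ≤ cn S σ N := Nat.cast_nonneg _

theorem cn_le (S : Set ℤ) (σ : ℤ) (N : ℕ) : cn S σ N ≤ N := by
  classical
  unfold cn
  have h := Finset.card_filter_le (Icc 1 N) (fun n : ℕ => σ * (n : ℤ) ∈ S)
  rw [Nat.card_Icc, Nat.add_sub_cancel] at h
  exact_mod_cast h

theorem filter_succ {p : ℕ → Prop} [DecidablePred p] (N : ℕ) :
    (Icc 1 (N + 1)).filter p = if p (N + 1) then insert (N + 1) ((Icc 1 N).filter p)
      else (Icc 1 N).filter p := by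
  have h : Icc 1 (N + 1) = insert (N + 1) (Icc 1 N) := by
    ext x
    simp only [mem_Icc, mem_insert]
    omega
  rw [h, Finset.filter_insert]

theorem not_mem_filter {p : ℕ → Prop} [DecidablePred p] (N : ℕ) :
    N + 1 ∉ (Icc 1 N).filter p := by
  simp

open scoped Classical in
theorem cn_succ (S : Set ℤ) (σ : ℤ) (N : ℕ) :
    cn S σ (N + 1) = cn S σ N + if σ * ((N + 1 : ℕ) : ℤ) ∈ S then 1 else 0 := by
  unfold cn
  rw [filter_succ]
  split_ifs with h
  · rw [Finset.card_insert_of_notMem (not_mem_filter N)]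
    push_cast
    ring
  · rw [add_zero]

open scoped Classical in
theorem HS_succ (S : Set ℤ) (σ : ℤ) (N : ℕ) :
    HS S σ (N + 1) = HS S σ N +
      if σ * ((N + 1 : ℕ) : ℤ) ∈ S then 1 / ((N + 1 : ℕ) : ℝ) else 0 := by
  unfold HS
  rw [filter_succ]
  split_ifs with h
  · rw [Finset.sum_insert (not_mem_filter N)]
    ring
  · rw [add_zero]

theorem abel (S : Set ℤ) (σ : ℤ) (N : ℕ) :
    HS S σ N = cn S σ N / N + ∑ n ∈ range N, cn S σ n * (1 / (n : ℝ) - 1 / ((n : ℝ) + 1)) := by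
  classical
  induction N with
  | zero =>
    unfold HS
    simp [cn_zero]
  | succ N ih =>
    rw [HS_succ, ih, Finset.sum_range_succ, cn_succ]
    push_cast
    have hN : (0 : ℝ) < (N : ℝ) + 1 := by positivity
    rcases Nat.eq_zero_or_pos N with h0 | h0
    · subst h0
      rw [cn_zero]
      split_ifs <;> simp
    · have hN0 : (N : ℝ) ≠ 0 := by exact_mod_cast h0.ne'
      split_ifs with h
      · field_simp
        ring
      · field_simp
        ring

theorem cn_le_G (S : Set ℤ) {σ : ℤ} (hσ : σ = 1 ∨ σ = -1) (N : ℕ) :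
    cn S σ N ≤ G S σ ((N : ℝ) + 1) := by
  classical
  unfold cn G
  have hσ0 : σ ≠ 0 := by
    rcases hσ with h | h <;> rw [h] <;> decide
  have hσσ : σ * σ = 1 := by
    rcases hσ with h | h <;> rw [h] <;> decide
  have hinj : Function.Injective fun n : ℕ => σ * (n : ℤ) := by
    intro a b hab
    have := mul_left_cancel₀ hσ0 hab
    exact_mod_cast this
  have hfin : {x : ℤ | x ∈ S ∧ 0 < σ * x ∧ ((σ * x : ℤ) : ℝ) < (N : ℝ) + 1}.Finite := by
    refine ((Finset.Icc 1 N).image fun n : ℕ => σ * (n : ℤ)).finite_toSet.subset ?_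
    rintro x ⟨_, hx1, hx2⟩
    rw [Finset.mem_coe, Finset.mem_image]
    have hx3 : σ * x < (N : ℤ) + 1 := by exact_mod_cast hx2
    refine ⟨(σ * x).toNat, ?_, ?_⟩
    · rw [Finset.mem_Icc]
      omega
    · rw [Int.toNat_of_nonneg hx1.le, ← mul_assoc, hσσ, one_mul]
  have hsub : ((((Icc 1 N).filter (fun n : ℕ => σ * (n : ℤ) ∈ S)).image
      fun n : ℕ => σ * (n : ℤ) : Finset ℤ) : Set ℤ) ⊆
      {x : ℤ | x ∈ S ∧ 0 < σ * x ∧ ((σ * x : ℤ) : ℝ) < (N : ℝ) + 1} := by
    intro x hx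
    rw [Finset.mem_coe, Finset.mem_image] at hx
    obtain ⟨n, hn, rfl⟩ := hx
    rw [Finset.mem_filter, Finset.mem_Icc] at hn
    have h1 : σ * (σ * (n : ℤ)) = n := by rw [← mul_assoc, hσσ, one_mul]
    refine ⟨hn.2, ?_, ?_⟩
    · rw [h1]
      omega
    · rw [h1]
      have : (n : ℝ) ≤ N := by exact_mod_cast hn.1.2
      push_cast
      linarith
  have h := Set.ncard_le_ncard hsub hfin
  rw [Set.ncard_coe_finset, Finset.card_image_of_injective _ hinj] at h
  exact_mod_cast h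

theorem harm_le (N : ℕ) : ∑ n ∈ range N, 1 / ((n : ℝ) + 1) ≤ 1 + Real.log N := by
  have h := harmonic_le_one_add_log N
  refine le_of_eq_of_le ?_ h
  unfold harmonic
  push_cast
  refine Finset.sum_congr rfl fun n _ => ?_
  rw [one_div]

end P12

theorem harm_small {S : Set ℤ} {σ : ℤ} (hσ : σ = 1 ∨ σ = -1)
    (h0 : Tendsto (fun X : ℝ => G S σ X / X) atTop (𝓝 0)) {ε : ℝ} (hε : 0 < ε) :
    ∃ X₀ : ℕ, ∀ X : ℕ, X₀ ≤ X → HS S σ X ≤ ε * Real.log X := by
  have h1 : ∀ᶠ X : ℝ in atTop, G S σ X / X < ε / 4 := h0.eventually_lt_const (by positivity)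
  have h2 : Tendsto (fun n : ℕ => (n : ℝ) + 1) atTop atTop :=
    tendsto_atTop_add_const_right _ _ tendsto_natCast_atTop_atTop
  obtain ⟨n0, hn0⟩ := eventually_atTop.1 (h2.eventually h1)
  have h3 : Tendsto (fun n : ℕ => ε / 2 * Real.log (n : ℝ)) atTop atTop :=
    (Real.tendsto_log_atTop.comp tendsto_natCast_atTop_atTop).const_mul_atTop (by positivity)
  obtain ⟨X₁, hX₁⟩ := eventually_atTop.1 (h3.eventually_ge_atTop (1 + (n0 + 1) + ε / 2))
  refine ⟨X₁, fun X hX => ?_⟩
  have hterm : ∀ n : ℕ, P12.cn S σ n * (1 / (n : ℝ) - 1 / ((n : ℝ) + 1)) ≤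
      (if n < n0 + 1 then 1 else 0) + ε / 2 * (1 / ((n : ℝ) + 1)) := by
    intro n
    rcases Nat.eq_zero_or_pos n with hz | hz
    · subst hz
      rw [P12.cn_zero, zero_mul, if_pos (Nat.succ_pos _)]
      positivity
    · have hn : (0 : ℝ) < n := by exact_mod_cast hz
      have he : (1 / (n : ℝ) - 1 / ((n : ℝ) + 1)) = 1 / n * (1 / ((n : ℝ) + 1)) := by
        field_simp
        ring
      rw [he]
      split_ifs with hlt
      · have h4 := P12.cn_le S σ n
        have h5 : P12.cn S σ n * (1 / n * (1 / ((n : ℝ) + 1))) ≤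
            n * (1 / n * (1 / ((n : ℝ) + 1))) := by gcongr
        have h6 : (n : ℝ) * (1 / n * (1 / ((n : ℝ) + 1))) = 1 / ((n : ℝ) + 1) := by
          field_simp
        have h7 : 1 / ((n : ℝ) + 1) ≤ 1 := by
          rw [div_le_one (by positivity)]
          linarith
        have h8 : 0 ≤ ε / 2 * (1 / ((n : ℝ) + 1)) := by positivity
        linarith
      · have h4 := P12.cn_le_G S hσ n
        have h5 := hn0 n (by omega)
        rw [div_lt_iff₀ (by positivity)] at h5
        have h6 : P12.cn S σ n ≤ ε / 2 * n := by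
          have h7 : (1 : ℝ) ≤ n := by exact_mod_cast hz
          nlinarith
        rw [zero_add]
        calc P12.cn S σ n * (1 / n * (1 / ((n : ℝ) + 1)))
            ≤ ε / 2 * n * (1 / n * (1 / ((n : ℝ) + 1))) := by gcongr
          _ = ε / 2 * (1 / ((n : ℝ) + 1)) := by field_simp
  have hX₂ := hX₁ X hX
  rw [P12.abel]
  have h9 : P12.cn S σ X / X ≤ 1 := by
    rcases Nat.eq_zero_or_pos X with hz | hz
    · subst hz
      simp
    · rw [div_le_one (by exact_mod_cast hz)]
      exact P12.cn_le S σ X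
  have h10 : ∑ n ∈ range X, (if n < n0 + 1 then (1 : ℝ) else 0) ≤ n0 + 1 := by
    rw [Finset.sum_boole]
    have : ((range X).filter fun n => n < n0 + 1).card ≤ (range (n0 + 1)).card := by
      refine Finset.card_le_card fun n hn => ?_
      rw [Finset.mem_filter] at hn
      exact Finset.mem_range.2 hn.2
    rw [Finset.card_range] at this
    exact_mod_cast this
  calc P12.cn S σ X / X + ∑ n ∈ range X, P12.cn S σ n * (1 / (n : ℝ) - 1 / ((n : ℝ) + 1))
      ≤ 1 + ∑ n ∈ range X, ((if n < n0 + 1 then 1 else 0) + ε / 2 * (1 / ((n : ℝ) + 1))) :=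
        add_le_add h9 (Finset.sum_le_sum fun n _ => hterm n)
    _ = 1 + (∑ n ∈ range X, (if n < n0 + 1 then (1 : ℝ) else 0)) +
          ε / 2 * ∑ n ∈ range X, 1 / ((n : ℝ) + 1) := by
        rw [Finset.sum_add_distrib, Finset.mul_sum]
        ring
    _ ≤ 1 + (n0 + 1) + ε / 2 * (1 + Real.log X) := by
        gcongr
        exact P12.harm_le X
    _ = (1 + (n0 + 1) + ε / 2) + ε / 2 * Real.log X := by ring
    _ ≤ ε / 2 * Real.log X + ε / 2 * Real.log X := by gcongr
    _ = ε * Real.log X := by ring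

end Pool.Agent.H319R3.PO
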