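import Pool.Agent.H319R3.PO.Defs
import Pool.Agent.H319R3.GC.S3

/-! Positivity for one residue class, from the statements of P10, P11, P12. -/

set_option autoImplicit false

namespace Pool.Agent.H319R3.PO
open Pool.Agent.H319R3.GC Pool.Agent.H319R3.DN Finset Filter Topology

variable {d : ℕ} {m r : ℕ → ℤ}

/-- from the statements of P10, P11, P12 -/
theorem pos_general_core
    (good_class : ∃ (η c C0 : ℝ) (N0 N : ℕ) (y₀ : ℤ), NB d m r η c C0 N0 ∧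
      N0 ≤ N ∧ 1 ≤ N ∧ ∀ y : ℤ, (PP d m : ℤ) ^ N ∣ y - y₀ → ∀ k : ℕ, N ≤ k →
        1 / 2 ≤ U d m r η N0 k y)
    (harm_lower : ∀ {η c C0 : ℝ} {N0 N : ℕ}, NB d m r η c C0 N0 → ∀ {z : ℤ},
      C0 < |(z : ℝ)| → (∀ k : ℕ, N ≤ k → 1 / 2 ≤ U d m r η N0 k z) →
      (∀ j : ℕ, 1 ≤ j → (Tm d m r)^[j] z ≠ z) → ∀ {S : Set ℤ}, Inv d m r S → z ∈ S →
      ∃ (c' : ℝ) (X₀ : ℕ), 0 < c' ∧ (∀ X : ℕ, X₀ ≤ X → c' * Real.log X ≤ HS S 1 X + HS S (-1) X) ∧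
        ((∀ i < d, 0 < m i) → ∀ σ : ℤ, (σ = 1 ∨ σ = -1) → 0 < σ * z → ∀ X : ℕ, X₀ ≤ X →
          c' * Real.log X ≤ HS S σ X))
    (harm_small : ∀ {S : Set ℤ} {σ : ℤ}, (σ = 1 ∨ σ = -1) →
      Tendsto (fun X : ℝ => G S σ X / X) atTop (𝓝 0) → ∀ {ε : ℝ}, 0 < ε →
      ∃ X₀ : ℕ, ∀ X : ℕ, X₀ ≤ X → HS S σ X ≤ ε * Real.log X) :
    ∃ (N : ℕ) (y₀ : ℤ) (C0 : ℝ), 1 ≤ N ∧ 1 ≤ C0 ∧
    ∀ S : Set ℤ, Inv d m r S → ∀ z ∈ S, (PP d m : ℤ) ^ N ∣ z - y₀ → C0 < |(z : ℝ)| →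
      (∀ j : ℕ, 1 ≤ j → (Tm d m r)^[j] z ≠ z) →
      ¬ (Tendsto (fun X : ℝ => G S 1 X / X) atTop (𝓝 0) ∧
          Tendsto (fun X : ℝ => G S (-1) X / X) atTop (𝓝 0)) ∧
      ((∀ i < d, 0 < m i) → ∀ σ : ℤ, (σ = 1 ∨ σ = -1) → 0 < σ * z →
        ¬ Tendsto (fun X : ℝ => G S σ X / X) atTop (𝓝 0)) := by
  obtain ⟨η, c, C0, N0, N, y₀, hn, hN0, hN1, hU⟩ := good_class
  refine ⟨N, y₀, C0, hN1, hn.one_le, ?_⟩
  intro S hS z hz hzy hzC hper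
  obtain ⟨c', X₀, hc', hlow, hside⟩ := harm_lower hn hzC (hU z hzy) hper hS hz
  have hlogpos : ∀ X : ℕ, 2 ≤ X → 0 < Real.log X := by
    intro X hX
    exact Real.log_pos (by exact_mod_cast (by omega : 1 < X))
  refine ⟨?_, ?_⟩
  · rintro ⟨h1, h2⟩
    obtain ⟨X₁, hX₁⟩ := harm_small (Or.inl rfl) h1 (ε := c' / 4) (by positivity)
    obtain ⟨X₂, hX₂⟩ := harm_small (Or.inr rfl) h2 (ε := c' / 4) (by positivity)
    set X : ℕ := X₀ + X₁ + X₂ + 2 with hX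
    have a1 := hlow X (by omega)
    have a2 := hX₁ X (by omega)
    have a3 := hX₂ X (by omega)
    have a4 : 0 < c' * Real.log X := mul_pos hc' (hlogpos X (by omega))
    nlinarith
  · intro hm σ hσ hσz h1
    obtain ⟨X₁, hX₁⟩ := harm_small hσ h1 (ε := c' / 4) (by positivity)
    set X : ℕ := X₀ + X₁ + 2 with hX
    have a1 := hside hm σ hσ hσz X (by omega)
    have a2 := hX₁ X (by omega)
    have a4 : 0 < c' * Real.log X := mul_pos hc' (hlogpos X (by omega))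
    nlinarith

end Pool.Agent.H319R3.PO
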