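import Pool.Agent.H319R3.PO.P10
import Pool.Agent.H319R3.PO.P11
import Pool.Agent.H319R3.PO.P12
import Pool.Agent.H319R3.PO.P13

/-! P13 (helper627): positivity for one residue class. -/

set_option autoImplicit false

namespace Pool.Agent.H319R3.PO
open Pool.Agent.H319R3.GC Pool.Agent.H319R3.DN Finset Filter Topology

variable {d : ℕ} {m r : ℕ → ℤ}

theorem pos_general (h : Adm d m r) : ∃ (N : ℕ) (y₀ : ℤ) (C0 : ℝ), 1 ≤ N ∧ 1 ≤ C0 ∧
    ∀ S : Set ℤ, Inv d m r S → ∀ z ∈ S, (PP d m : ℤ) ^ N ∣ z - y₀ → C0 < |(z : ℝ)| →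
      (∀ j : ℕ, 1 ≤ j → (Tm d m r)^[j] z ≠ z) →
      ¬ (Tendsto (fun X : ℝ => G S 1 X / X) atTop (𝓝 0) ∧
          Tendsto (fun X : ℝ => G S (-1) X / X) atTop (𝓝 0)) ∧
      ((∀ i < d, 0 < m i) → ∀ σ : ℤ, (σ = 1 ∨ σ = -1) → 0 < σ * z →
        ¬ Tendsto (fun X : ℝ => G S σ X / X) atTop (𝓝 0)) :=
  pos_general_core (good_class h)
    (fun hn _ hz hU hper _ hS hzS => harm_lower h hn hz hU hper hS hzS)
    (fun hσ h0 _ hε => harm_small hσ h0 hε)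

end Pool.Agent.H319R3.PO
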