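import Pool.Agent.H319R3.PO.Defs

/-! P14: the powers of `d` congruent to `1` fill a ball. -/

set_option autoImplicit false

namespace Pool.Agent.H319R3.PO
open Pool.Agent.H319R3.GC Pool.Agent.H319R3.DN Finset Filter Topology

/-- binomial theorem modulo squares -/
theorem p14_pow (a : ℤ) (n : ℕ) : ∃ w : ℤ, (1 + a) ^ n = 1 + n * a + a ^ 2 * w := by
  induction n with
  | zero => exact ⟨0, by simp⟩
  | succ n ih =>
    obtain ⟨w, hw⟩ := ih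
    refine ⟨n + w * (1 + a), ?_⟩
    rw [pow_succ, hw]
    push_cast
    ring

/-- one step of the lifting -/
theorem p14_lift (μ : ℕ) (M u : ℤ) (hM : (μ : ℤ) ^ 2 ∣ M) (hu : IsCoprime u (μ : ℤ)) :
    ∃ u' : ℤ, (1 + M * u) ^ μ = 1 + (M * μ) * u' ∧ IsCoprime u' (μ : ℤ) := by
  obtain ⟨w, hw⟩ := p14_pow (M * u) μ
  obtain ⟨c, hc⟩ := hM
  refine ⟨u + μ * (c * u ^ 2 * w), ?_, hu.add_mul_left_left _⟩
  rw [hw, hc]
  ring

/-- the `μ`-part of an integer -/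
theorem p14_part (μ : ℕ) (n : ℕ) : ∀ u : ℕ, 0 < u → ∀ D : ℕ, 0 < D → n = D * u → μ ^ 2 ∣ D →
    ∃ D' u' : ℕ, 0 < D' ∧ n = D' * u' ∧ μ ^ 2 ∣ D' ∧ Nat.Coprime u' μ := by
  intro u
  induction u using Nat.strong_induction_on with
  | _ u ih =>
    intro hu D hD hn hμ
    by_cases hc : Nat.Coprime u μ
    · exact ⟨D, u, hD, hn, hμ, hc⟩
    · obtain ⟨v, hv⟩ := Nat.gcd_dvd_left u μ
      have hg0 : 0 < Nat.gcd u μ := Nat.gcd_pos_of_pos_left _ hu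
      have hg1 : Nat.gcd u μ ≠ 1 := hc
      have hv0 : 0 < v := by
        rcases Nat.eq_zero_or_pos v with h | h
        · rw [h, mul_zero] at hv
          omega
        · exact h
      have hvu : v < u := by
        have h2 : 2 ≤ Nat.gcd u μ := by omega
        calc v < 2 * v := by omega
          _ ≤ Nat.gcd u μ * v := Nat.mul_le_mul_right v h2
          _ = u := hv.symm
      exact ih v hvu hv0 (D * Nat.gcd u μ) (Nat.mul_pos hD hg0) (by rw [hn, mul_assoc, ← hv])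
        (Dvd.dvd.mul_right hμ _)

/-- the powers of `d` congruent to `1` fill a ball -/
theorem powers {d μ : ℕ} (hd : 2 ≤ d) (hμ : 2 ≤ μ) (hc : Nat.Coprime μ d) :
    ∃ (f D : ℕ), 0 < f ∧ 0 < D ∧ μ ∣ D ∧ ∀ (B : ℕ) (τ : ℤ) (t₀ : ℕ), ∃ t : ℕ, t₀ ≤ t ∧
      ((μ : ℤ)) ^ B ∣ (d : ℤ) ^ (f * t) - 1 - D * τ := by
  set f := Nat.totient (μ ^ 2) with hf
  have hf0 : 0 < f := Nat.totient_pos.2 (by positivity)
  have hmod : d ^ f ≡ 1 [MOD μ ^ 2] := Nat.ModEq.pow_totient (hc.symm.pow_right 2)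
  have hdf : 1 < d ^ f := Nat.one_lt_pow hf0.ne' (by omega)
  have hdvd : μ ^ 2 ∣ d ^ f - 1 := (Nat.modEq_iff_dvd' hdf.le).1 hmod.symm
  obtain ⟨u₀, hu₀⟩ := hdvd
  have hu₀p : 0 < u₀ := by
    rcases Nat.eq_zero_or_pos u₀ with h | h
    · rw [h, mul_zero] at hu₀
      omega
    · exact h
  obtain ⟨D, u, hD, hn, hμD, hcop⟩ :=
    p14_part μ (d ^ f - 1) u₀ hu₀p (μ ^ 2) (by positivity) hu₀ dvd_rfl
  have hμD1 : μ ∣ D := (dvd_pow_self μ two_ne_zero).trans hμD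
  have hDz : (d : ℤ) ^ f = 1 + (D : ℤ) * u := by
    have h1 : d ^ f = 1 + D * u := by omega
    exact_mod_cast h1
  have hμDz : (μ : ℤ) ^ 2 ∣ (D : ℤ) := by exact_mod_cast hμD
  have hcopz : IsCoprime (u : ℤ) (μ : ℤ) := Nat.isCoprime_iff_coprime.2 hcop
  -- claim A
  have hA : ∀ B : ℕ, ∃ v : ℤ, (d : ℤ) ^ (f * μ ^ B) = 1 + (D * (μ : ℤ) ^ B) * v ∧
      IsCoprime v (μ : ℤ) := by
    intro B
    induction B with
    | zero => exact ⟨u, by simpa using hDz, hcopz⟩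
    | succ B ih =>
      obtain ⟨v, hv, hvc⟩ := ih
      obtain ⟨v', hv', hvc'⟩ := p14_lift μ (D * (μ : ℤ) ^ B) v (Dvd.dvd.mul_right hμDz _) hvc
      refine ⟨v', ?_, hvc'⟩
      rw [pow_succ μ B, ← mul_assoc, pow_mul, hv, hv', pow_succ]
      ring
  refine ⟨f, D, hf0, hD, hμD1, fun B τ t₀ => ?_⟩
  -- claim B
  have hB : ∀ B : ℕ, ∃ t : ℕ, t₀ ≤ t ∧ (D * (μ : ℤ) ^ B) ∣ (d : ℤ) ^ (f * t) - 1 - D * τ := by
    intro B
    induction B with
    | zero =>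
      refine ⟨t₀, le_rfl, ?_⟩
      rw [pow_zero, mul_one]
      apply dvd_sub _ (dvd_mul_right _ _)
      rw [pow_mul]
      have h1 : (D : ℤ) ∣ (d : ℤ) ^ f - 1 := ⟨u, by rw [hDz]; ring⟩
      exact h1.trans (sub_one_dvd_pow_sub_one _ _)
    | succ B ih =>
      obtain ⟨t, ht, k, hk⟩ := ih
      obtain ⟨v, hv, hvc⟩ := hA B
      obtain ⟨a, b, hab⟩ := hvc
      -- s = natural number congruent to `-k a`
      obtain ⟨s, hs⟩ : ∃ s : ℕ, (μ : ℤ) ∣ k + s * v := by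
        refine ⟨((-(k * a)) % (μ : ℤ)).toNat, ?_⟩
        have hμ0 : (μ : ℤ) ≠ 0 := by exact_mod_cast (by omega : μ ≠ 0)
        rw [Int.toNat_of_nonneg (Int.emod_nonneg _ hμ0)]
        have h1 : (-(k * a)) % (μ : ℤ) = -(k * a) - μ * ((-(k * a)) / μ) := Int.emod_def _ _
        rw [h1]
        refine ⟨k * b - ((-(k * a)) / μ) * v, ?_⟩
        linear_combination (-k) * hab
      refine ⟨t + s * μ ^ B, by omega, ?_⟩
      obtain ⟨w, hw⟩ := p14_pow (D * (μ : ℤ) ^ B * v) s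
      obtain ⟨c, hcD⟩ := (dvd_pow_self (μ : ℤ) two_ne_zero).trans hμDz
      obtain ⟨e, he⟩ := hs
      have h1 : (d : ℤ) ^ (f * (t + s * μ ^ B)) = (d : ℤ) ^ (f * t) * ((d : ℤ) ^ (f * μ ^ B)) ^ s := by
        rw [← pow_mul, ← pow_add]
        congr 1
        ring
      have h2 : (d : ℤ) ^ (f * t) = 1 + D * τ + D * (μ : ℤ) ^ B * k := by linarith
      rw [h1, h2, hv, hw, pow_succ]
      refine ⟨e + (c * τ + c * (μ : ℤ) ^ B * k) * s * v +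
        (1 + D * τ + D * (μ : ℤ) ^ B * k) * c * (μ : ℤ) ^ B * v ^ 2 * w, ?_⟩
      linear_combination (D * (μ : ℤ) ^ B) * he + (D * (μ : ℤ) ^ B * ((τ + (μ : ℤ) ^ B * k) * s * v +
        (1 + D * τ + D * (μ : ℤ) ^ B * k) * (μ : ℤ) ^ B * v ^ 2 * w)) * hcD
  obtain ⟨t, ht, h⟩ := hB B
  exact ⟨t, ht, (dvd_mul_left _ _).trans h⟩

end Pool.Agent.H319R3.PO
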