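import Pool.Agent.H319R3.PO.Defs
import Pool.Agent.H319R3.DN.T1

/-! Positive densities, P15: hitting residue classes for Moeller maps. -/

set_option autoImplicit false

namespace Pool.Agent.H319R3.PO
open Pool.Agent.H319R3.GC Pool.Agent.H319R3.DN Finset Filter Topology

variable {d : ℕ} {m r : ℕ → ℤ}

namespace P15aux

theorem wd_succ' (k : ℕ) (x : ℤ) :
    wd d m r (k + 1) x = wd d m r k x ++ [(((Tm d m r)^[k] x) % d).toNat] := by
  induction k generalizing x with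
  | zero => simp [wd]
  | succ k ih =>
    rw [wd, ih (Tm d m r x), wd, Function.iterate_succ_apply]
    rfl

theorem T_eq (h : Adm d m r) (x : ℤ) :
    (d : ℤ) * Tm d m r x = m (x % d).toNat * x - r (x % d).toNat := by
  have h1 := iter_eq h 1 x
  simpa [wd, Mw, Ww] using h1

theorem T_zero (h : Adm d m r) {μ : ℕ} (hM : Mol d μ m r) {x : ℤ} (hx : (x % d).toNat = 0) :
    (d : ℤ) * Tm d m r x = x := by
  rw [T_eq h x, hx, hM.m0, hM.r0]
  ring

theorem d_ne (h : Adm d m r) : (d : ℤ) ≠ 0 := by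
  have := h.two_le
  exact_mod_cast (by omega : d ≠ 0)

theorem T_pow (h : Adm d m r) {μ : ℕ} (hM : Mol d μ m r) (n : ℕ) (y : ℤ) :
    (Tm d m r)^[n] ((d : ℤ) ^ n * y) = y := by
  induction n with
  | zero => simp
  | succ n ih =>
    rw [Function.iterate_succ_apply]
    have h1 : Tm d m r ((d : ℤ) ^ (n + 1) * y) = (d : ℤ) ^ n * y := by
      have h2 : (((d : ℤ) ^ (n + 1) * y) % d).toNat = 0 := by
        have : (d : ℤ) ∣ (d : ℤ) ^ (n + 1) * y := ⟨(d : ℤ) ^ n * y, by ring⟩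
        rw [Int.emod_eq_zero_of_dvd this]
        rfl
      have h3 := T_zero h hM h2
      have h4 : (d : ℤ) * Tm d m r ((d : ℤ) ^ (n + 1) * y) = d * ((d : ℤ) ^ n * y) := by
        rw [h3]; ring
      exact mul_left_cancel₀ (d_ne h) h4
    rw [h1, ih]

theorem Mw_Mol {μ : ℕ} (hM : Mol d μ m r) {w : List ℕ} (hw : ∀ i ∈ w, i < d) :
    Mw m w = (μ : ℤ) ^ ((w.filter (fun i => i ≠ 0)).length) := by
  induction w with
  | nil => simp [Mw]
  | cons i w ih =>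
    have h1 := ih fun j hj => hw j (by simp [hj])
    have h2 : Mw m (i :: w) = m i * Mw m w := by simp [Mw]
    rw [h2, h1]
    by_cases hi : i = 0
    · subst hi
      rw [hM.m0]
      simp
    · rw [hM.mi i (by omega) (hw i (by simp)), List.filter_cons_of_pos (by simpa using hi),
        List.length_cons, pow_succ]
      ring

theorem decomp (h : Adm d m r) {μ : ℕ} (hM : Mol d μ m r) (x : ℤ) (s : ℕ) (k : ℕ)
    (hk : (((wd d m r k x).filter (fun i => i ≠ 0)).length = s + 1)) :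
    ∃ n e : ℕ, k = n + 1 + e ∧ ((wd d m r n x).filter (fun i => i ≠ 0)).length = s ∧
      (((Tm d m r)^[n] x) % d).toNat ≠ 0 ∧
      (d : ℤ) ^ e * (Tm d m r)^[k] x = (Tm d m r)^[n + 1] x := by
  induction k with
  | zero => simp [wd] at hk
  | succ k ih =>
    rw [wd_succ', List.filter_append, List.length_append] at hk
    by_cases hl : (((Tm d m r)^[k] x) % d).toNat = 0
    · rw [hl] at hk
      have hk2 : ((wd d m r k x).filter (fun i => i ≠ 0)).length = s + 1 := by simpa using hk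
      obtain ⟨n, e, h1, h2, h3, h4⟩ := ih hk2
      refine ⟨n, e + 1, by omega, h2, h3, ?_⟩
      rw [Function.iterate_succ_apply', ← h4, pow_succ, mul_assoc, T_zero h hM hl]
    · refine ⟨k, 0, rfl, ?_, hl, by simp⟩
      rw [List.filter_cons_of_pos (by simpa using hl)] at hk
      simpa using hk

theorem shift (h : Adm d m r) (n : ℕ) (x q : ℤ) :
    (Tm d m r)^[n] (x + (d : ℤ) ^ n * q) = (Tm d m r)^[n] x + Mw m (wd d m r n x) * q := by
  have h1 := iter_eq h n x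
  have hw : wd d m r n (x + (d : ℤ) ^ n * q) = wd d m r n x := by
    apply wd_of_dvd h (wd_mem h.two_le n x)
    exact ⟨(Tm d m r)^[n] x + Mw m (wd d m r n x) * q, by linear_combination -h1⟩
  have h2 := iter_eq h n (x + (d : ℤ) ^ n * q)
  rw [hw] at h2
  apply mul_left_cancel₀ (pow_ne_zero n (d_ne h))
  linear_combination h2 - h1

theorem bez {μ : ℕ} (hμ : μ ≠ 0) {n : ℤ} (hn : n ≠ 0) {s : ℕ}
    (hv : ∀ p : ℕ, p.Prime → p ∣ μ → padicValInt p n ≤ s * padicValNat p μ) (B : ℕ) :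
    ∃ a : ℤ, (μ : ℤ) ^ B ∣ n * a - (μ : ℤ) ^ s := by
  have hg : Int.gcd n ((μ : ℤ) ^ B) ∣ μ ^ s := by
    have hg0 : Int.gcd n ((μ : ℤ) ^ B) ≠ 0 := by
      intro h0
      rw [Int.gcd_eq_zero_iff] at h0
      exact hn h0.1
    rw [← Nat.factorization_prime_le_iff_dvd hg0 (pow_ne_zero _ hμ)]
    intro p hp
    have hgd : Int.gcd n ((μ : ℤ) ^ B) ∣ μ ^ B := by
      have h1 : ((Int.gcd n ((μ : ℤ) ^ B) : ℕ) : ℤ) ∣ (μ : ℤ) ^ B := Int.gcd_dvd_right _ _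
      exact_mod_cast h1
    have hgn : Int.gcd n ((μ : ℤ) ^ B) ∣ n.natAbs := by
      have h1 : ((Int.gcd n ((μ : ℤ) ^ B) : ℕ) : ℤ) ∣ n := Int.gcd_dvd_left _ _
      exact Int.natCast_dvd.1 h1
    by_cases hpm : p ∣ μ
    · have h1 : (Int.gcd n ((μ : ℤ) ^ B)).factorization p ≤ n.natAbs.factorization p :=
        (Nat.factorization_prime_le_iff_dvd hg0 (by simpa using hn)).2 hgn p hp
      refine h1.trans ?_
      have h2 := hv p hp hpm
      rw [Nat.factorization_def _ hp, Nat.factorization_pow, Finsupp.smul_apply,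
        Nat.factorization_def _ hp, smul_eq_mul]
      exact h2
    · have h1 : ¬ p ∣ Int.gcd n ((μ : ℤ) ^ B) := fun h2 =>
        hpm (hp.dvd_of_dvd_pow (h2.trans hgd))
      rw [Nat.factorization_eq_zero_of_not_dvd h1]
      exact Nat.zero_le _
  obtain ⟨c, hc⟩ := hg
  have hc' : (μ : ℤ) ^ s = (Int.gcd n ((μ : ℤ) ^ B) : ℤ) * c := by exact_mod_cast hc
  have hb := Int.gcd_eq_gcd_ab n ((μ : ℤ) ^ B)
  refine ⟨Int.gcdA n ((μ : ℤ) ^ B) * c, -(Int.gcdB n ((μ : ℤ) ^ B) * c), ?_⟩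
  rw [hc']
  linear_combination -(c : ℤ) * hb


theorem mu_ge (h : Adm d m r) {μ : ℕ} (hM : Mol d μ m r) : 2 ≤ μ := by
  by_contra hlt
  have hd := h.two_le
  have hb := h.big
  have h0 : μ = 0 ∨ μ = 1 := by omega
  rcases h0 with h0 | h0
  · have : PP d m = 0 := by
      apply Finset.prod_eq_zero (i := 1) (Finset.mem_range.2 (by omega))
      rw [hM.mi 1 le_rfl (by omega), h0]
      rfl
    omega
  · have : PP d m = 1 := by
      apply Finset.prod_eq_one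
      intro i hi
      rcases Nat.eq_zero_or_pos i with h1 | h1
      · rw [h1, hM.m0]; rfl
      · rw [hM.mi i h1 (Finset.mem_range.1 hi), h0]; rfl
    omega

theorem mu_cop (h : Adm d m r) {μ : ℕ} (hM : Mol d μ m r) : IsCoprime (μ : ℤ) (d : ℤ) := by
  have hd := h.two_le
  have := h.cop 1 (by omega)
  rwa [hM.mi 1 le_rfl (by omega)] at this

/-- a periodic orbit is bounded -/
theorem orbit_bdd (z : ℤ) : ∃ R : ℤ, 0 ≤ R ∧ ((∃ j : ℕ, 1 ≤ j ∧ (Tm d m r)^[j] z = z) →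
    ∀ i : ℕ, |(Tm d m r)^[i] z| ≤ R) := by
  by_cases hz : ∃ j : ℕ, 1 ≤ j ∧ (Tm d m r)^[j] z = z
  · obtain ⟨j, hj, hper⟩ := hz
    refine ⟨∑ i ∈ range j, |(Tm d m r)^[i] z|, Finset.sum_nonneg fun _ _ => abs_nonneg _,
      fun _ i => ?_⟩
    have h1 : (Tm d m r)^[i % j] z = (Tm d m r)^[i] z :=
      Function.IsPeriodicPt.iterate_mod_apply (h := hper) i
    rw [← h1]
    exact Finset.single_le_sum (f := fun i => |(Tm d m r)^[i] z|) (fun _ _ => abs_nonneg _)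
      (Finset.mem_range.2 (Nat.mod_lt _ (by omega)))
  · exact ⟨0, le_rfl, fun h => absurd h hz⟩

theorem inv_iter {S : Set ℤ} (hS : Inv d m r S) (n : ℕ) (x : ℤ) :
    x ∈ S ↔ (Tm d m r)^[n] x ∈ S := by
  induction n generalizing x with
  | zero => simp
  | succ n ih =>
    rw [Function.iterate_succ_apply, ← ih (Tm d m r x)]
    exact hS x

theorem size_lem {P Q z z' x E Y' R : ℤ} (hP1 : 1 ≤ P) (hQ1 : 1 ≤ Q) (hz0 : z ≠ 0)
    (hE0 : 0 ≤ E) (hPz : P * z' = P * x + Q * z * E) (hEb : P * (|x| + Y' + R + 1) + 1 ≤ E) :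
    (0 < z ∧ Y' + R + 1 ≤ z') ∨ (z < 0 ∧ z' ≤ -(Y' + R + 1)) := by
  rcases lt_or_gt_of_ne hz0 with hneg | hpos
  · right
    refine ⟨hneg, ?_⟩
    have h0 : 1 ≤ Q * (-z) := by
      calc (1 : ℤ) = 1 * 1 := by ring
        _ ≤ Q * (-z) := mul_le_mul hQ1 (by omega) (by norm_num) (by omega)
    have h1 : E ≤ Q * (-z) * E := le_mul_of_one_le_left hE0 h0
    have h2 : P * x ≤ P * |x| := mul_le_mul_of_nonneg_left (le_abs_self x) (by omega)
    by_contra hcon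
    push Not at hcon
    have h3 : P * (-(Y' + R + 1)) < P * z' := mul_lt_mul_of_pos_left hcon (by omega)
    have h4 : Q * (-z) * E = -(Q * z * E) := by ring
    have h5 : P * (-(Y' + R + 1)) = -(P * (|x| + Y' + R + 1)) + P * |x| := by ring
    linarith
  · left
    refine ⟨hpos, ?_⟩
    have h0 : 1 ≤ Q * z := by
      calc (1 : ℤ) = 1 * 1 := by ring
        _ ≤ Q * z := mul_le_mul hQ1 (by omega) (by norm_num) (by omega)
    have h1 : E ≤ Q * z * E := le_mul_of_one_le_left hE0 h0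
    have h2 : P * (-|x|) ≤ P * x := mul_le_mul_of_nonneg_left (neg_abs_le x) (by omega)
    by_contra hcon
    push Not at hcon
    have h3 : P * z' < P * (Y' + R + 1) := mul_lt_mul_of_pos_left hcon (by omega)
    have h5 : P * (Y' + R + 1) = P * (|x| + Y' + R + 1) + P * (-|x|) := by ring
    linarith

theorem hit' (hpow : ∀ {d μ : ℕ} (_ : 2 ≤ d) (_ : 2 ≤ μ) (_ : Nat.Coprime μ d),
    ∃ (f D : ℕ), 0 < f ∧ 0 < D ∧ μ ∣ D ∧ ∀ (B : ℕ) (τ : ℤ) (t₀ : ℕ), ∃ t : ℕ, t₀ ≤ t ∧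
      ((μ : ℤ)) ^ B ∣ (d : ℤ) ^ (f * t) - 1 - D * τ)
    (h : Adm d m r) {μ : ℕ} (hM : Mol d μ m r) : ∃ D : ℕ, 0 < D ∧
    ∀ S : Set ℤ, Inv d m r S → ∀ x ∈ S, ∀ (k s : ℕ) (z : ℤ), z = (Tm d m r)^[k] x → z ≠ 0 →
      (((wd d m r k x).filter (fun i => i ≠ 0)).length = s + 1) →
      (∀ p : ℕ, p.Prime → p ∣ μ → padicValInt p (D * z) ≤ s * padicValNat p μ) →
      ∀ (N : ℕ) (y₀ : ℤ) (Y : ℝ), ∃ z' ∈ S, (μ : ℤ) ^ N ∣ z' - y₀ ∧ Y < |(z' : ℝ)| ∧ 0 < z * z' ∧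
        ∀ j : ℕ, 1 ≤ j → (Tm d m r)^[j] z' ≠ z' := by
  have hd := h.two_le
  have hμ := mu_ge h hM
  have hcop := mu_cop h hM
  have hcopN : Nat.Coprime μ d := Nat.isCoprime_iff_coprime.1 hcop
  obtain ⟨f, D, hf, hD, hμD, hpw⟩ := hpow hd hμ hcopN
  refine ⟨D, hD, ?_⟩
  intro S hS x hx k s z hz hz0 hk hval N y₀ Y
  obtain ⟨n, e, hkn, hsn, hl, hde⟩ := decomp h hM x s k hk
  rw [← hz] at hde
  have hμ0 : (μ : ℤ) ≠ 0 := by exact_mod_cast (by omega : μ ≠ 0)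
  have hdz : (d : ℤ) ≠ 0 := d_ne h
  have hDz : (D : ℤ) * z ≠ 0 := mul_ne_zero (by exact_mod_cast hD.ne') hz0
  -- the point `b`
  obtain ⟨b, hb⟩ : ∃ b, b = (Tm d m r)^[n] x := ⟨_, rfl⟩
  have hTb : Tm d m r b = (d : ℤ) ^ e * z := by
    rw [hb, hde, Function.iterate_succ_apply']
  obtain ⟨j, hj⟩ : ∃ j, j = (b % d).toNat := ⟨_, rfl⟩
  have hj0 : j ≠ 0 := by rw [hj, hb]; exact hl
  have hjd : j < d := by
    rw [hj]
    have h1 : b % (d : ℤ) < d := Int.emod_lt_of_pos _ (by exact_mod_cast (by omega : 0 < d))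
    have h0 : 0 ≤ b % (d : ℤ) := Int.emod_nonneg _ hdz
    omega
  have hmj : m j = μ := hM.mi j (by omega) hjd
  have hμb : (μ : ℤ) * b = (d : ℤ) ^ (e + 1) * z + r j := by
    have h1 := T_eq h b
    rw [hTb, ← hj, hmj] at h1
    rw [pow_succ]
    linear_combination -h1
  have hMw : Mw m (wd d m r n x) = (μ : ℤ) ^ s := by
    rw [Mw_Mol hM (mem_LW.1 (wd_mem hd n x)).2, hsn]
  -- the class
  obtain ⟨R, hR0, hR⟩ := orbit_bdd (d := d) (m := m) (r := r) z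
  have hcn : IsCoprime ((μ : ℤ) ^ N) ((d : ℤ) ^ n) := hcop.pow
  obtain ⟨u1, v1, huv1⟩ := hcn
  obtain ⟨c, hc⟩ : ∃ c, c = v1 * (y₀ - x) := ⟨_, rfl⟩
  have hcB : IsCoprime ((μ : ℤ) ^ (N + s + 1)) ((d : ℤ) ^ (e + 1)) := hcop.pow
  obtain ⟨u2, v2, huv2⟩ := hcB
  obtain ⟨a, a', ha⟩ := bez (by omega : μ ≠ 0) hDz hval (N + s + 1)
  obtain ⟨τ, hτ⟩ : ∃ τ, τ = a * μ * c * v2 := ⟨_, rfl⟩
  obtain ⟨Y', hY'⟩ : ∃ Y' : ℕ, (⌈|Y|⌉₊ : ℕ) = Y' := ⟨_, rfl⟩
  obtain ⟨t, ht, u3, hu3⟩ := hpw (N + s + 1) τ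
    (μ ^ (s + 1) * (x.natAbs + Y' + R.natAbs + 1) + 1)
  -- the quotient
  obtain ⟨E, hE⟩ : ∃ E, E = (d : ℤ) ^ (f * t) - 1 := ⟨_, rfl⟩
  obtain ⟨q', hq'⟩ : ∃ q' : ℤ, (d : ℤ) ^ (e + 1) * z * E
      = (μ : ℤ) ^ (s + 1) * (c + (μ : ℤ) ^ N * q') := by
    refine ⟨μ * c * a' - z * D * a * μ * c * u2 + (d : ℤ) ^ (e + 1) * z * u3, ?_⟩
    have e1 : E = D * τ + (μ : ℤ) ^ (N + s + 1) * u3 := by
      rw [hE]; linear_combination hu3
    rw [e1, hτ]
    linear_combination (z * D * a * μ * c) * huv2 + (μ * c) * ha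
  obtain ⟨q, hq⟩ : ∃ q, q = c + (μ : ℤ) ^ N * q' := ⟨_, rfl⟩
  rw [← hq] at hq'
  have hdq : (d : ℤ) ∣ q := by
    have h1 : (d : ℤ) ∣ (μ : ℤ) ^ (s + 1) * q :=
      ⟨(d : ℤ) ^ e * z * E, by rw [← hq']; ring⟩
    exact (hcop.symm.pow_right (n := s + 1)).dvd_of_dvd_mul_left h1
  obtain ⟨z', hz'⟩ : ∃ z', z' = x + (d : ℤ) ^ n * q := ⟨_, rfl⟩
  have hTn : (Tm d m r)^[n] z' = b + (μ : ℤ) ^ s * q := by
    rw [hz', shift h, hMw, ← hb]
  have hTb' : Tm d m r (b + (μ : ℤ) ^ s * q) = (d : ℤ) ^ (e + f * t) * z := by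
    have h1 : (b + (μ : ℤ) ^ s * q) % (d : ℤ) = b % d := by
      obtain ⟨q1, hq1⟩ := hdq
      rw [hq1, show b + (μ : ℤ) ^ s * (d * q1) = b + d * ((μ : ℤ) ^ s * q1) by ring]
      exact Int.add_mul_emod_self_left _ _ _
    have h2 := T_eq h (b + (μ : ℤ) ^ s * q)
    rw [h1, ← hj, hmj] at h2
    apply mul_left_cancel₀ hdz
    rw [h2]
    have e1 : (d : ℤ) ^ (f * t) = E + 1 := by rw [hE]; ring
    rw [pow_add, e1]
    linear_combination hμb - hq'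
  have hTL : (Tm d m r)^[n + 1 + (e + f * t)] z' = z := by
    rw [add_comm, Function.iterate_add_apply, Function.iterate_succ_apply', hTn, hTb']
    exact T_pow h hM _ _
  have hzS : z ∈ S := by rw [hz]; exact (inv_iter hS k x).1 hx
  have hz'S : z' ∈ S := by rw [inv_iter hS (n + 1 + (e + f * t)) z', hTL]; exact hzS
  -- size
  have hEt : (t : ℤ) ≤ E := by
    rw [hE]
    have h1 : t + 1 ≤ d ^ (f * t) := by
      calc t + 1 ≤ 2 ^ t := Nat.succ_le_of_lt (Nat.lt_two_pow_self)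
        _ ≤ d ^ t := Nat.pow_le_pow_left hd t
        _ ≤ d ^ (f * t) := Nat.pow_le_pow_right (by omega) (Nat.le_mul_of_pos_left t hf)
    have h2 : ((t + 1 : ℕ) : ℤ) ≤ ((d ^ (f * t) : ℕ) : ℤ) := by exact_mod_cast h1
    push_cast at h2
    linarith
  obtain ⟨P, hP⟩ : ∃ P : ℤ, P = (μ : ℤ) ^ (s + 1) := ⟨_, rfl⟩
  have hP1 : 1 ≤ P := by
    rw [hP]
    exact_mod_cast Nat.one_le_pow _ _ (by omega)
  obtain ⟨Q, hQ⟩ : ∃ Q : ℤ, Q = (d : ℤ) ^ n * (d : ℤ) ^ (e + 1) := ⟨_, rfl⟩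
  have hQ1 : 1 ≤ Q := by
    rw [hQ]
    exact_mod_cast Nat.one_le_iff_ne_zero.2 (mul_ne_zero (pow_ne_zero _ (by omega))
      (pow_ne_zero _ (by omega)))
  have hPz : P * z' = P * x + Q * z * E := by
    rw [hz', hP, hQ]
    linear_combination -(d : ℤ) ^ n * hq'
  have hEb : P * (|x| + Y' + R + 1) + 1 ≤ E := by
    have h1 : ((μ ^ (s + 1) * (x.natAbs + Y' + R.natAbs + 1) + 1 : ℕ) : ℤ) ≤ (t : ℤ) := by
      exact_mod_cast ht
    push_cast at h1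
    rw [abs_of_nonneg hR0, ← hP] at h1
    linarith
  have hE0 : 0 ≤ E := by
    have : 0 ≤ P * (|x| + Y' + R + 1) := by positivity
    linarith
  have hbig : (0 < z ∧ (Y' : ℤ) + R + 1 ≤ z') ∨ (z < 0 ∧ z' ≤ -((Y' : ℤ) + R + 1)) :=
    size_lem hP1 hQ1 hz0 hE0 hPz hEb
  have habs : (Y' : ℤ) + R + 1 ≤ |z'| := by
    rcases hbig with ⟨_, h1⟩ | ⟨_, h1⟩
    · exact h1.trans (le_abs_self _)
    · have := neg_le_abs z'
      linarith
  refine ⟨z', hz'S, ⟨(x - y₀) * u1 + (d : ℤ) ^ n * q', ?_⟩, ?_, ?_, ?_⟩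
  · rw [hz', hq, hc]
    linear_combination (y₀ - x) * huv1
  · have h1 : ((Y' : ℤ) : ℝ) < ((|z'| : ℤ) : ℝ) := by exact_mod_cast (by linarith : (Y' : ℤ) < |z'|)
    have h2 : |Y| ≤ (Y' : ℝ) := by rw [← hY']; exact Nat.le_ceil _
    rw [Int.cast_abs, Int.cast_natCast] at h1
    exact lt_of_le_of_lt ((le_abs_self Y).trans h2) h1
  · rcases hbig with ⟨h0, h1⟩ | ⟨h0, h1⟩
    · exact mul_pos h0 (by linarith [Int.natCast_nonneg Y'])
    · exact mul_pos_of_neg_of_neg h0 (by linarith [Int.natCast_nonneg Y'])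
  · intro i hi hper
    have hzper : (Tm d m r)^[i] z = z := by
      rw [← hTL, ← Function.iterate_add_apply, add_comm, Function.iterate_add_apply, hper]
    have hR' := hR ⟨i, hi, hzper⟩
    have h1 : (Tm d m r)^[i * (n + 1 + (e + f * t))] z' = z' :=
      Function.IsPeriodicPt.mul_const (f := Tm d m r) hper _
    obtain ⟨i', rfl⟩ : ∃ i', i = i' + 1 := ⟨i - 1, by omega⟩
    rw [add_mul, one_mul, Function.iterate_add_apply, hTL] at h1
    have h2 := hR' (i' * (n + 1 + (e + f * t)))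
    rw [h1] at h2
    linarith [Int.natCast_nonneg Y']

end P15aux

end Pool.Agent.H319R3.PO
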