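import Pool.Agent.H319R3.PO.P14
import Pool.Agent.H319R3.PO.P15a

/-! Positive densities, P15: hitting residue classes for Moeller maps. -/

set_option autoImplicit false

namespace Pool.Agent.H319R3.PO
open Pool.Agent.H319R3.GC Pool.Agent.H319R3.DN Finset Filter Topology

variable {d : ℕ} {m r : ℕ → ℤ}

/-- `s` = number of nonzero letters of the itinerary from `x` to `z = T^k x` -/
theorem hit (h : Adm d m r) {μ : ℕ} (hM : Mol d μ m r) : ∃ D : ℕ, 0 < D ∧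
    ∀ S : Set ℤ, Inv d m r S → ∀ x ∈ S, ∀ (k s : ℕ) (z : ℤ), z = (Tm d m r)^[k] x → z ≠ 0 →
      (((wd d m r k x).filter (fun i => i ≠ 0)).length = s + 1) →
      (∀ p : ℕ, p.Prime → p ∣ μ → padicValInt p (D * z) ≤ s * padicValNat p μ) →
      ∀ (N : ℕ) (y₀ : ℤ) (Y : ℝ), ∃ z' ∈ S, (μ : ℤ) ^ N ∣ z' - y₀ ∧ Y < |(z' : ℝ)| ∧ 0 < z * z' ∧
        ∀ j : ℕ, 1 ≤ j → (Tm d m r)^[j] z' ≠ z' :=
  P15aux.hit' (fun hd hμ hc => powers hd hμ hc) h hM

end Pool.Agent.H319R3.PO
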