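import Pool.Agent.H319R3.PO.Defs

/-! P16: which points satisfy the condition of `hit`. -/

set_option autoImplicit false

namespace Pool.Agent.H319R3.PO
open Pool.Agent.H319R3.GC Pool.Agent.H319R3.DN Finset Filter Topology

variable {d : ℕ} {m r : ℕ → ℤ}

private theorem p16_toNat_mod (h : 2 ≤ d) (x : ℤ) :
    ((x % d).toNat : ℤ) = x % d ∧ (x % d).toNat < d := by
  have hd : (0 : ℤ) < d := by exact_mod_cast (by omega : 0 < d)
  have h0 : 0 ≤ x % d := Int.emod_nonneg _ (by omega)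
  have h1 : x % d < d := Int.emod_lt_of_pos _ hd
  have h2 : ((x % d).toNat : ℤ) = x % d := Int.toNat_of_nonneg h0
  refine ⟨h2, ?_⟩
  have : ((x % d).toNat : ℤ) < (d : ℤ) := by rw [h2]; exact h1
  exact_mod_cast this

private theorem p16_Tm_eq (h : Adm d m r) (x : ℤ) :
    (d : ℤ) * Tm d m r x = m (x % d).toNat * x - r (x % d).toNat := by
  obtain ⟨h1, h2⟩ := p16_toNat_mod h.two_le x
  unfold Tm
  apply Int.mul_ediv_cancel'
  have h3 := h.adm _ h2
  have h4 : (d : ℤ) ∣ m (x % d).toNat * (x - ((x % d).toNat : ℤ)) := by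
    apply Dvd.dvd.mul_left
    rw [h1]
    exact Int.dvd_self_sub_emod
  have h5 := dvd_add h3 h4
  have h6 : m (x % d).toNat * ((x % d).toNat : ℤ) - r (x % d).toNat
      + m (x % d).toNat * (x - ((x % d).toNat : ℤ)) = m (x % d).toNat * x - r (x % d).toNat := by
    ring
  rwa [h6] at h5

/-- number of nonzero letters -/
private def p16_nz (d : ℕ) (m r : ℕ → ℤ) (k : ℕ) (x : ℤ) : ℕ :=
  ((wd d m r k x).filter (fun i => i ≠ 0)).length

private theorem p16_wd_add (a b : ℕ) (x : ℤ) :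
    wd d m r (a + b) x = wd d m r a x ++ wd d m r b ((Tm d m r)^[a] x) := by
  induction a generalizing x with
  | zero => simp [wd]
  | succ a ih =>
    have e : a + 1 + b = (a + b) + 1 := by omega
    rw [e]
    show (x % d).toNat :: wd d m r (a + b) (Tm d m r x) = _
    rw [ih]
    rfl

private theorem p16_nz_add (a b : ℕ) (x : ℤ) :
    p16_nz d m r (a + b) x = p16_nz d m r a x + p16_nz d m r b ((Tm d m r)^[a] x) := by
  unfold p16_nz
  rw [p16_wd_add, List.filter_append, List.length_append]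

private theorem p16_nz_mono {a b : ℕ} (hab : a ≤ b) (x : ℤ) :
    p16_nz d m r a x ≤ p16_nz d m r b x := by
  obtain ⟨c, rfl⟩ := Nat.exists_eq_add_of_le hab
  rw [p16_nz_add]
  omega

private theorem p16_nz_one {x : ℤ} (hx : ¬ (d : ℤ) ∣ x) (h : 2 ≤ d) : p16_nz d m r 1 x = 1 := by
  unfold p16_nz
  have h1 : (x % d).toNat ≠ 0 := by
    intro h0
    apply hx
    have := (p16_toNat_mod h x).1
    rw [h0] at this
    exact Int.dvd_of_emod_eq_zero this.symm
  simp [wd, h1]

private theorem p16_zero (h : Adm d m r) {μ : ℕ} (hM : Mol d μ m r) {x : ℤ} (hx : (d : ℤ) ∣ x) :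
    (d : ℤ) * Tm d m r x = x := by
  have h1 := p16_Tm_eq h x
  have h0 : (x % d).toNat = 0 := by
    rw [Int.emod_eq_zero_of_dvd hx]; rfl
  rw [h0, hM.m0, hM.r0] at h1
  linarith

/-- a run of zero letters -/
private theorem p16_run (h : Adm d m r) {μ : ℕ} (hM : Mol d μ m r) (x : ℤ) (j : ℕ)
    (hz : ∀ i < j, (d : ℤ) ∣ (Tm d m r)^[i] x) : (d : ℤ) ^ j * (Tm d m r)^[j] x = x := by
  induction j with
  | zero => simp
  | succ j ih =>
    have h1 := ih (fun i hi => hz i (by omega))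
    have h2 := p16_zero h hM (hz j (by omega))
    rw [Function.iterate_succ_apply', pow_succ]
    calc (d : ℤ) ^ j * d * Tm d m r ((Tm d m r)^[j] x)
        = (d : ℤ) ^ j * (d * Tm d m r ((Tm d m r)^[j] x)) := by ring
      _ = (d : ℤ) ^ j * (Tm d m r)^[j] x := by rw [h2]
      _ = x := h1

private theorem p16_mu (h : Adm d m r) {μ : ℕ} (hM : Mol d μ m r) : μ ≠ 0 := by
  rintro rfl
  have h2 := h.two_le
  have h1 := h.cop 1 (by omega)
  rw [hM.mi 1 le_rfl (by omega)] at h1
  simp only [Nat.cast_zero, isCoprime_zero_left] at h1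
  have := Int.isUnit_iff.1 h1
  omega

private theorem p16_val_le (q : ℕ) (hq : q.Prime) (x : ℤ) (hx : x ≠ 0) :
    padicValInt q x ≤ x.natAbs := by
  have := Fact.mk hq
  have h1 : q ^ padicValInt q x ∣ x.natAbs := pow_padicValNat_dvd
  have h2 := Nat.le_of_dvd (Int.natAbs_pos.2 hx) h1
  have h3 : padicValInt q x < q ^ padicValInt q x := Nat.lt_pow_self hq.one_lt
  omega

private theorem p16_one_le {μ q : ℕ} (hμ : μ ≠ 0) (hq : q.Prime) (hqμ : q ∣ μ) :
    1 ≤ padicValNat q μ := by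
  have := Fact.mk hq
  exact one_le_padicValNat_of_dvd hμ hqμ

/-- nonzero periodic points -/
theorem cond_periodic (h : Adm d m r) {μ : ℕ} (hM : Mol d μ m r) {x : ℤ} (hx : x ≠ 0) {p : ℕ}
    (hp : 1 ≤ p) (hper : (Tm d m r)^[p] x = x) (D : ℕ) (hD : 0 < D) :
    ∃ k s : ℕ, (Tm d m r)^[k] x = x ∧ ((wd d m r k x).filter (fun i => i ≠ 0)).length = s + 1 ∧
      ∀ q : ℕ, q.Prime → q ∣ μ → padicValInt q (D * x) ≤ s * padicValNat q μ := by
  have hDx : (D : ℤ) * x ≠ 0 := mul_ne_zero (by exact_mod_cast hD.ne') hx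
  -- one nonzero letter in a period
  have hone : 1 ≤ p16_nz d m r p x := by
    by_contra hcon
    have h0 : p16_nz d m r p x = 0 := by omega
    have hz : ∀ i < p, (d : ℤ) ∣ (Tm d m r)^[i] x := by
      intro i hi
      by_contra hn
      have h1 := p16_nz_one (m := m) (r := r) hn h.two_le
      have h2 := p16_nz_add (d := d) (m := m) (r := r) i 1 x
      have h3 := p16_nz_mono (d := d) (m := m) (r := r) (show i + 1 ≤ p by omega) x
      omega
    have h1 := p16_run h hM x p hz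
    rw [hper] at h1
    have h2 : (d : ℤ) ^ p = 1 := by
      have : ((d : ℤ) ^ p - 1) * x = 0 := by linarith
      rcases mul_eq_zero.1 this with h3 | h3
      · linarith
      · exact absurd h3 hx
    have h3 : d ^ p = 1 := by exact_mod_cast h2
    have h4 := h.two_le
    have h5 : 1 < d ^ p := Nat.one_lt_pow (by omega) (by omega)
    omega
  have hiter : ∀ n : ℕ, (Tm d m r)^[p * n] x = x := by
    intro n
    rw [Function.iterate_mul]
    exact Function.iterate_fixed hper n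
  have hcount : ∀ n : ℕ, n ≤ p16_nz d m r (p * n) x := by
    intro n
    induction n with
    | zero => omega
    | succ n ih =>
      rw [Nat.mul_succ, p16_nz_add, hiter]
      omega
  obtain ⟨n, hn⟩ : ∃ n, n = (D * x : ℤ).natAbs + 1 := ⟨_, rfl⟩
  have hc := hcount n
  refine ⟨p * n, p16_nz d m r (p * n) x - 1, hiter n, ?_, ?_⟩
  · show p16_nz d m r (p * n) x = _
    omega
  · intro q hq hqμ
    have h1 := p16_val_le q hq _ hDx
    have h2 := p16_one_le (p16_mu h hM) hq hqμ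
    calc padicValInt q (D * x) ≤ (p16_nz d m r (p * n) x - 1) * 1 := by omega
      _ ≤ _ := Nat.mul_le_mul_left _ h2

/-- trajectories that do not reach `0`, if all `r_i` are prime to `μ` or `μ` is a prime power -/
theorem cond_general (h : Adm d m r) {μ : ℕ} (hM : Mol d μ m r)
    (hc : (∀ i, 1 ≤ i → i < d → IsCoprime (r i) (μ : ℤ)) ∨ IsPrimePow μ) {x : ℤ}
    (hx : ∀ k : ℕ, (Tm d m r)^[k] x ≠ 0) (D : ℕ) (hD : 0 < D) :
    ∀ k₀ : ℕ, ∃ k s : ℕ, k₀ ≤ k ∧ ((wd d m r k x).filter (fun i => i ≠ 0)).length = s + 1 ∧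
      ∀ q : ℕ, q.Prime → q ∣ μ →
        padicValInt q (D * (Tm d m r)^[k] x) ≤ s * padicValNat q μ := by
  have hμ := p16_mu h hM
  have h2 := h.two_le
  -- infinitely many nonzero letters
  have hinf : ∀ k₁ : ℕ, ∃ t, k₁ ≤ t ∧ ¬ (d : ℤ) ∣ (Tm d m r)^[t] x := by
    intro k₁
    by_contra hcon
    push Not at hcon
    obtain ⟨y, hy⟩ : ∃ y, y = (Tm d m r)^[k₁] x := ⟨_, rfl⟩
    have hy0 : y ≠ 0 := by rw [hy]; exact hx k₁
    have hrun : ∀ j, (d : ℤ) ^ j * (Tm d m r)^[j] y = y := by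
      intro j
      apply p16_run h hM y j
      intro i _
      rw [hy, ← Function.iterate_add_apply]
      exact hcon _ (by omega)
    have h3 : ∀ j, d ^ j ∣ y.natAbs := by
      intro j
      rw [← Int.natCast_dvd]
      push_cast
      exact ⟨_, (hrun j).symm⟩
    have h4 := Nat.le_of_dvd (Int.natAbs_pos.2 hy0) (h3 y.natAbs)
    have h5 : y.natAbs < d ^ y.natAbs := Nat.lt_pow_self (by omega)
    omega
  have hgrow : ∀ B k₁ : ℕ, ∃ t, k₁ ≤ t ∧ B ≤ p16_nz d m r t x := by
    intro B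
    induction B with
    | zero => intro k₁; exact ⟨k₁, le_rfl, Nat.zero_le _⟩
    | succ B ih =>
      intro k₁
      obtain ⟨t, ht, hB⟩ := ih k₁
      obtain ⟨t', ht', hn⟩ := hinf t
      refine ⟨t' + 1, by omega, ?_⟩
      rw [p16_nz_add, p16_nz_one hn h2]
      have := p16_nz_mono (d := d) (m := m) (r := r) ht' x
      omega
  intro k₀
  obtain ⟨R, hR⟩ : ∃ R, R = ∑ j ∈ range d, (r j).natAbs := ⟨_, rfl⟩
  obtain ⟨t0, ht0, hB⟩ := hgrow (D + R + 1) k₀
  obtain ⟨t, ht, hn⟩ := hinf t0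
  have hBt : D + R + 1 ≤ p16_nz d m r t x := hB.trans (p16_nz_mono ht x)
  -- the letter
  obtain ⟨i, hi⟩ : ∃ i, i = ((Tm d m r)^[t] x % d).toNat := ⟨_, rfl⟩
  obtain ⟨e1, e2⟩ := p16_toNat_mod h2 ((Tm d m r)^[t] x)
  rw [← hi] at e1 e2
  have hi0 : 1 ≤ i := by
    rw [Nat.one_le_iff_ne_zero]
    rintro rfl
    exact hn (Int.dvd_of_emod_eq_zero e1.symm)
  have hstep : (d : ℤ) * (Tm d m r)^[t + 1] x = μ * (Tm d m r)^[t] x - r i := by
    rw [Function.iterate_succ_apply', p16_Tm_eq h, ← hi, hM.mi i hi0 e2]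
  have hri : r i ≠ 0 := by
    intro h0
    have h3 := h.adm i e2
    rw [h0, sub_zero] at h3
    have h4 := (h.cop i e2).symm.dvd_of_dvd_mul_left h3
    have h5 : d ∣ i := by exact_mod_cast h4
    exact absurd (Nat.le_of_dvd (by omega) h5) (by omega)
  have hriR : (r i).natAbs ≤ R := by
    rw [hR]
    exact single_le_sum (f := fun j => (r j).natAbs) (fun j _ => Nat.zero_le _) (mem_range.2 e2)
  -- a time with small valuations
  have hval : ∀ (q : ℕ) (_ : q.Prime) (z : ℤ), z ≠ 0 → ¬ (q : ℤ) ^ (R + 1) ∣ z →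
      padicValInt q z ≤ R := by
    intro q hq z hz hnd
    have := Fact.mk hq
    rw [padicValInt_dvd_iff] at hnd
    push Not at hnd
    omega
  have hclaim : ∃ k, (k = t ∨ k = t + 1) ∧ ∀ q : ℕ, q.Prime → q ∣ μ →
      padicValInt q ((Tm d m r)^[k] x) ≤ R := by
    rcases hc with hc | hc
    · refine ⟨t + 1, Or.inr rfl, fun q hq hqμ => ?_⟩
      apply hval q hq _ (hx _)
      intro hdv
      have h3 : (q : ℤ) ∣ (Tm d m r)^[t + 1] x := (dvd_pow_self _ (by omega)).trans hdv
      have h4 : (q : ℤ) ∣ μ := by exact_mod_cast hqμ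
      have h5 : (q : ℤ) ∣ r i := by
        have : r i = μ * (Tm d m r)^[t] x - (d : ℤ) * (Tm d m r)^[t + 1] x := by linarith
        rw [this]
        exact dvd_sub (h4.mul_right _) (h3.mul_left _)
      have h6 := (hc i hi0 e2).isUnit_of_dvd' h5 h4
      have h7 := Int.isUnit_iff.1 h6
      have h8 := hq.one_lt
      omega
    · obtain ⟨p, a, hp, ha, hpa⟩ := hc
      have hp' : p.Prime := hp.nat_prime
      have hqp : ∀ q : ℕ, q.Prime → q ∣ μ → q = p := by
        intro q hq hqμ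
        rw [← hpa] at hqμ
        exact (Nat.prime_dvd_prime_iff_eq hq hp').1 (hq.dvd_of_dvd_pow hqμ)
      by_cases h3 : (p : ℤ) ^ (R + 1) ∣ (Tm d m r)^[t + 1] x
      · refine ⟨t, Or.inl rfl, fun q hq hqμ => ?_⟩
        rw [hqp q hq hqμ]
        apply hval p hp' _ (hx _)
        intro h4
        have h5 : (p : ℤ) ^ (R + 1) ∣ r i := by
          have : r i = μ * (Tm d m r)^[t] x - (d : ℤ) * (Tm d m r)^[t + 1] x := by linarith
          rw [this]
          exact dvd_sub (h4.mul_left _) (h3.mul_left _)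
        have h6 : p ^ (R + 1) ∣ (r i).natAbs := by
          rw [← Int.natCast_dvd]
          exact_mod_cast h5
        have h7 := Nat.le_of_dvd (Int.natAbs_pos.2 hri) h6
        have h8 : R + 1 < p ^ (R + 1) := Nat.lt_pow_self hp'.one_lt
        omega
      · refine ⟨t + 1, Or.inr rfl, fun q hq hqμ => ?_⟩
        rw [hqp q hq hqμ]
        exact hval p hp' _ (hx _) h3
  obtain ⟨k, hk, hkv⟩ := hclaim
  have hBk : D + R + 1 ≤ p16_nz d m r k x := by
    refine hBt.trans (p16_nz_mono ?_ x)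
    omega
  refine ⟨k, p16_nz d m r k x - 1, by omega, ?_, ?_⟩
  · show p16_nz d m r k x = _
    omega
  · intro q hq hqμ
    have := Fact.mk hq
    have h3 := hkv q hq hqμ
    have h4 : padicValInt q (D : ℤ) ≤ D := by
      have := p16_val_le q hq (D : ℤ) (by exact_mod_cast hD.ne')
      simpa using this
    have h5 := p16_one_le hμ hq hqμ
    rw [padicValInt.mul (by exact_mod_cast hD.ne') (hx k)]
    calc padicValInt q (D : ℤ) + padicValInt q ((Tm d m r)^[k] x)
        ≤ (p16_nz d m r k x - 1) * 1 := by omega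
      _ ≤ _ := Nat.mul_le_mul_left _ h5

end Pool.Agent.H319R3.PO
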