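import Pool.Agent.H319R3.PO.P17a
import Pool.Agent.H319R3.PO.P13g
import Pool.Agent.H319R3.PO.P15
import Pool.Agent.H319R3.PO.P16

/-! P17: Moeller maps -/

set_option autoImplicit false

namespace Pool.Agent.H319R3.PO
open Pool.Agent.H319R3.GC Pool.Agent.H319R3.DN Finset Filter Topology

variable {d : ℕ} {m r : ℕ → ℤ}

/-- a nonzero periodic point: positive density on its side -/
theorem moeller_cycle (h : Adm d m r) {μ : ℕ} (hμ : 2 ≤ μ) (hM : Mol d μ m r) {S : Set ℤ}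
    (hS : Inv d m r S) {x : ℤ} (hxS : x ∈ S) {p : ℕ} (hp : 1 ≤ p)
    (hper : (Tm d m r)^[p] x = x) {σ : ℤ} (hσ : σ = 1 ∨ σ = -1) (hx : 0 < σ * x) :
    ¬ Tendsto (fun X : ℝ => G S σ X / X) atTop (𝓝 0) :=
  moeller_cycle_of (pos_general h) (hit h hM) h.two_le hμ hM hS hxS
    (cond_periodic h hM (by rintro rfl; simp at hx) hp hper) hσ hx

/-- any invariant set that does not contain `0` -/
theorem moeller_general (h : Adm d m r) {μ : ℕ} (_hμ : 2 ≤ μ) (hM : Mol d μ m r)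
    (hc : (∀ i, 1 ≤ i → i < d → IsCoprime (r i) (μ : ℤ)) ∨ IsPrimePow μ) {S : Set ℤ}
    (hS : Inv d m r S) (hne : S.Nonempty) (h0 : (0 : ℤ) ∉ S) :
    ¬ (Tendsto (fun X : ℝ => G S 1 X / X) atTop (𝓝 0) ∧
          Tendsto (fun X : ℝ => G S (-1) X / X) atTop (𝓝 0)) :=
  moeller_general_of (pos_general h) (hit h hM) h.two_le hM
    (fun _ hx => cond_general h hM hc hx) hS hne h0

end Pool.Agent.H319R3.PO
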