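import Pool.Agent.H319R3.PO.Defs

/-! P17 (core): Moeller maps, from the conclusions of P13, P15, P16 -/

set_option autoImplicit false

namespace Pool.Agent.H319R3.PO
open Pool.Agent.H319R3.GC Pool.Agent.H319R3.DN Finset Filter Topology

variable {d : ℕ} {m r : ℕ → ℤ}

/-- conclusion of `pos_general` -/
def StPos (d : ℕ) (m r : ℕ → ℤ) : Prop := ∃ (N : ℕ) (y₀ : ℤ) (C0 : ℝ), 1 ≤ N ∧ 1 ≤ C0 ∧
    ∀ S : Set ℤ, Inv d m r S → ∀ z ∈ S, (PP d m : ℤ) ^ N ∣ z - y₀ → C0 < |(z : ℝ)| →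
      (∀ j : ℕ, 1 ≤ j → (Tm d m r)^[j] z ≠ z) →
      ¬ (Tendsto (fun X : ℝ => G S 1 X / X) atTop (𝓝 0) ∧
          Tendsto (fun X : ℝ => G S (-1) X / X) atTop (𝓝 0)) ∧
      ((∀ i < d, 0 < m i) → ∀ σ : ℤ, (σ = 1 ∨ σ = -1) → 0 < σ * z →
        ¬ Tendsto (fun X : ℝ => G S σ X / X) atTop (𝓝 0))

/-- conclusion of `hit` -/
def StHit (d μ : ℕ) (m r : ℕ → ℤ) : Prop := ∃ D : ℕ, 0 < D ∧
    ∀ S : Set ℤ, Inv d m r S → ∀ x ∈ S, ∀ (k s : ℕ) (z : ℤ), z = (Tm d m r)^[k] x → z ≠ 0 →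
      (((wd d m r k x).filter (fun i => i ≠ 0)).length = s + 1) →
      (∀ p : ℕ, p.Prime → p ∣ μ → padicValInt p (D * z) ≤ s * padicValNat p μ) →
      ∀ (N : ℕ) (y₀ : ℤ) (Y : ℝ), ∃ z' ∈ S, (μ : ℤ) ^ N ∣ z' - y₀ ∧ Y < |(z' : ℝ)| ∧ 0 < z * z' ∧
        ∀ j : ℕ, 1 ≤ j → (Tm d m r)^[j] z' ≠ z'

theorem PP_moeller (hd : 2 ≤ d) {μ : ℕ} (hM : Mol d μ m r) : PP d m = μ ^ (d - 1) := by
  obtain ⟨e, rfl⟩ : ∃ e, d = e + 1 := ⟨d - 1, by omega⟩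
  unfold PP
  rw [Finset.prod_range_succ', hM.m0]
  have h1 : ∏ i ∈ range e, (m (i + 1)).natAbs = ∏ _i ∈ range e, μ := by
    refine Finset.prod_congr rfl fun i hi => ?_
    rw [hM.mi (i + 1) (by omega) (by have := Finset.mem_range.1 hi; omega), Int.natAbs_natCast]
  rw [h1, Finset.prod_const, Finset.card_range]
  simp

theorem iter_mem {S : Set ℤ} (hS : Inv d m r S) {x : ℤ} (hx : x ∈ S) (k : ℕ) :
    (Tm d m r)^[k] x ∈ S := by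
  induction k with
  | zero => exact hx
  | succ k ih =>
    rw [Function.iterate_succ_apply']
    exact (hS _).1 ih

theorem moeller_cycle_of (hpos : StPos d m r) {μ : ℕ} (hhit : StHit d μ m r) (hd : 2 ≤ d)
    (hμ : 2 ≤ μ) (hM : Mol d μ m r) {S : Set ℤ}
    (hS : Inv d m r S) {x : ℤ} (hxS : x ∈ S)
    (hcond : ∀ D : ℕ, 0 < D →
      ∃ k s : ℕ, (Tm d m r)^[k] x = x ∧ ((wd d m r k x).filter (fun i => i ≠ 0)).length = s + 1 ∧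
        ∀ q : ℕ, q.Prime → q ∣ μ → padicValInt q (D * x) ≤ s * padicValNat q μ)
    {σ : ℤ} (hσ : σ = 1 ∨ σ = -1) (hx : 0 < σ * x) :
    ¬ Tendsto (fun X : ℝ => G S σ X / X) atTop (𝓝 0) := by
  obtain ⟨N, y₀, C0, hN, hC0, H⟩ := hpos
  obtain ⟨D, hD, hh⟩ := hhit
  obtain ⟨k, s, hk, hlen, hv⟩ := hcond D hD
  have hx0 : x ≠ 0 := by
    rintro rfl
    simp at hx
  obtain ⟨z', hz'S, hdvd, hbig, hsign, hnp⟩ := hh S hS x hxS k s x hk.symm hx0 hlen hv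
    ((d - 1) * N) y₀ C0
  have hdvd' : (PP d m : ℤ) ^ N ∣ z' - y₀ := by
    rw [PP_moeller hd hM, Nat.cast_pow, ← pow_mul]
    exact hdvd
  refine (H S hS z' hz'S hdvd' hbig hnp).2 ?_ σ hσ ?_
  · intro i hi
    rcases Nat.eq_zero_or_pos i with h | h
    · rw [h, hM.m0]
      exact one_pos
    · rw [hM.mi i h hi]
      exact_mod_cast (by omega : 0 < μ)
  · rcases hσ with rfl | rfl
    · rw [one_mul] at hx ⊢
      exact (mul_pos_iff_of_pos_left hx).1 hsign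
    · have h1 : x < 0 := by linarith
      have h2 : z' < 0 := by
        by_contra h3
        push Not at h3
        have := mul_nonpos_of_nonpos_of_nonneg h1.le h3
        omega
      linarith

theorem moeller_general_of (hpos : StPos d m r) {μ : ℕ} (hhit : StHit d μ m r) (hd : 2 ≤ d)
    (hM : Mol d μ m r)
    (hcond : ∀ x : ℤ, (∀ k : ℕ, (Tm d m r)^[k] x ≠ 0) → ∀ D : ℕ, 0 < D →
      ∀ k₀ : ℕ, ∃ k s : ℕ, k₀ ≤ k ∧ ((wd d m r k x).filter (fun i => i ≠ 0)).length = s + 1 ∧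
      ∀ q : ℕ, q.Prime → q ∣ μ →
        padicValInt q (D * (Tm d m r)^[k] x) ≤ s * padicValNat q μ)
    {S : Set ℤ} (hS : Inv d m r S) (hne : S.Nonempty) (h0 : (0 : ℤ) ∉ S) :
    ¬ (Tendsto (fun X : ℝ => G S 1 X / X) atTop (𝓝 0) ∧
          Tendsto (fun X : ℝ => G S (-1) X / X) atTop (𝓝 0)) := by
  obtain ⟨x, hxS⟩ := hne
  have hx : ∀ k : ℕ, (Tm d m r)^[k] x ≠ 0 := fun k h => h0 (by
    rw [← h]
    exact iter_mem hS hxS k)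
  obtain ⟨N, y₀, C0, hN, hC0, H⟩ := hpos
  obtain ⟨D, hD, hh⟩ := hhit
  obtain ⟨k, s, -, hlen, hv⟩ := hcond x hx D hD 0
  obtain ⟨z', hz'S, hdvd, hbig, -, hnp⟩ := hh S hS x hxS k s _ rfl (hx k) hlen hv
    ((d - 1) * N) y₀ C0
  have hdvd' : (PP d m : ℤ) ^ N ∣ z' - y₀ := by
    rw [PP_moeller hd hM, Nat.cast_pow, ← pow_mul]
    exact hdvd
  exact (H S hS z' hz'S hdvd' hbig hnp).1

end Pool.Agent.H319R3.PO
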