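import Pool.Agent.H319R3.PO.Defs
import Pool.Agent.H319R3.PO.P1
import Pool.Agent.H319R3.PO.P11

/-!
Positive densities, task P18: lower bound of the harmonic sum of an invariant set, for every
element `z` (small or periodic ones included).
-/

set_option autoImplicit false

namespace Pool.Agent.H319R3.PO
open Pool.Agent.H319R3.GC Pool.Agent.H319R3.DN Finset Filter Topology

variable {d : ℕ} {m r : ℕ → ℤ}

theorem wd_add_p18 (k j : ℕ) (x : ℤ) :
    wd d m r (k + j) x = wd d m r k x ++ wd d m r j ((Tm d m r)^[k] x) := by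
  induction k generalizing x with
  | zero => simp [wd]
  | succ k ih =>
    rw [Nat.succ_add, wd, ih, wd, List.cons_append, Function.iterate_succ_apply]

/-- suffixes of nice words are nice -/
theorem nice_suffix_p18 {η : ℝ} {N0 : ℕ} {u v : List ℕ} (h : Nice d η N0 (u ++ v)) :
    Nice d η N0 v := by
  intro s h1 h2 i hi
  have h3 := h s h1 (by rw [List.length_append]; omega) i hi
  rw [List.length_append, show u.length + v.length - s = u.length + (v.length - s) by omega,
    List.drop_length_add_append] at h3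
  exact h3

/-- the factor for going around the cycle of `z` -/
noncomputable def hf18 (d : ℕ) (m r : ℕ → ℤ) (c : ℝ) (N0 : ℕ) (z : ℤ) (j : ℕ) : ℝ :=
  (if j < N0 then wt d m (wd d m r j z) else 0) + Real.exp (-(c * j))

/-- the bound for the sum of the factors -/
noncomputable def K18 (d : ℕ) (m r : ℕ → ℤ) (c : ℝ) (N0 : ℕ) (z : ℤ) : ℝ :=
  ∑ j ∈ range N0, wt d m (wd d m r j z) + (1 - Real.exp (-c))⁻¹

theorem hf18_nonneg (c : ℝ) (N0 : ℕ) (z : ℤ) (j : ℕ) : 0 ≤ hf18 d m r c N0 z j := by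
  unfold hf18
  have h1 := (Real.exp_pos (-(c * j))).le
  split_ifs
  · exact add_nonneg (wt_nonneg _) h1
  · simpa using h1

theorem hf18_sum {c : ℝ} (hc : 0 < c) (N0 : ℕ) (z : ℤ) (J : Finset ℕ) :
    ∑ j ∈ J, hf18 d m r c N0 z j ≤ K18 d m r c N0 z := by
  classical
  unfold hf18 K18
  rw [sum_add_distrib]
  refine add_le_add ?_ ?_
  · rw [← sum_filter]
    refine sum_le_sum_of_subset_of_nonneg ?_ fun j _ _ => wt_nonneg _
    intro j hj
    exact mem_range.2 (mem_filter.1 hj).2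
  · have h1 : Real.exp (-c) < 1 := by
      rw [Real.exp_lt_one_iff]
      linarith
    have h2 : ∀ j : ℕ, Real.exp (-(c * j)) = Real.exp (-c) ^ j := by
      intro j
      rw [← Real.exp_nat_mul]
      congr 1
      ring
    simp_rw [h2]
    rw [← tsum_geometric_of_lt_one (Real.exp_pos _).le h1]
    exact (summable_geometric_of_lt_one (Real.exp_pos _).le h1).sum_le_tsum _
      fun j _ => by positivity

/-- the nonzero preimages -/
theorem pre_bounds_p18 (h : Adm d m r) {η c C0 : ℝ} {N0 : ℕ} (hn : NB d m r η c C0 N0) {z : ℤ}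
    {k : ℕ} {w : List ℕ} (hw : w ∈ LW d k) (hni : Nice d η N0 w)
    (hv : Vl d m r z w) (hx0 : pre d m r z w ≠ 0) :
    |(pre d m r z w : ℝ)| ≤ (|(z : ℝ)| + C0) * (d : ℝ) ^ k ∧
    wt d m w ≤ (|(z : ℝ)| + C0) * (1 / |(pre d m r z w : ℝ)|) := by
  obtain ⟨hl, hd⟩ := mem_LW.1 hw
  have hC : 1 ≤ C0 := hn.one_le
  have hd2 : (2 : ℝ) ≤ d := by exact_mod_cast h.two_le
  have hdk : 0 < (d : ℝ) ^ k := by positivity
  have e := pre_mul hv
  have eR : (Mw m w : ℝ) * (pre d m r z w : ℝ) = (d : ℝ) ^ k * z + Ww d m r w := by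
    rw [hl] at e
    exact_mod_cast e
  have hoff := hn.off w hd hni
  rw [hl] at hoff
  have hM0 : Mw m w ≠ 0 := Mw_ne_zero h hd
  have hM1 : 1 ≤ |(Mw m w : ℝ)| := by
    have : 1 ≤ |Mw m w| := Int.one_le_abs hM0
    exact_mod_cast this
  have hup : |(Mw m w : ℝ)| * |(pre d m r z w : ℝ)| ≤ (|(z : ℝ)| + C0) * (d : ℝ) ^ k := by
    rw [← abs_mul, eR]
    calc |(d : ℝ) ^ k * z + Ww d m r w| ≤ |(d : ℝ) ^ k * z| + |(Ww d m r w : ℝ)| := abs_add_le _ _
      _ = (d : ℝ) ^ k * |(z : ℝ)| + |(Ww d m r w : ℝ)| := by rw [abs_mul, abs_of_pos hdk]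
      _ ≤ (d : ℝ) ^ k * |(z : ℝ)| + C0 * (d : ℝ) ^ k := by linarith
      _ = (|(z : ℝ)| + C0) * (d : ℝ) ^ k := by ring
  have hx : 0 < |(pre d m r z w : ℝ)| := abs_pos.2 (by exact_mod_cast hx0)
  refine ⟨?_, ?_⟩
  · refine le_trans ?_ hup
    nlinarith
  · unfold wt
    rw [hl, mul_one_div, div_le_div_iff₀ hdk hx]
    exact hup

theorem harm_lower2 (h : Adm d m r) {η c C0 : ℝ} {N0 N : ℕ} (hn : NB d m r η c C0 N0) {z : ℤ}
    (hU : ∀ k : ℕ, N ≤ k → 1 / 2 ≤ U d m r η N0 k z) {S : Set ℤ} (hS : Inv d m r S) (hzS : z ∈ S) :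
    ∃ (c' : ℝ) (X₀ : ℕ), 0 < c' ∧
      ∀ X : ℕ, X₀ ≤ X → c' * Real.log X ≤ HS S 1 X + HS S (-1) X := by
  classical
  obtain ⟨R, hRdef⟩ : ∃ R : ℝ, R = |(z : ℝ)| + C0 + 1 := ⟨_, rfl⟩
  have hC : 1 ≤ C0 := hn.one_le
  have hc : 0 < c := hn.c_pos
  have hz0 := abs_nonneg (z : ℝ)
  have hR : 1 < R := by rw [hRdef]; linarith
  have hR0 : 0 < R := by linarith
  have hd2 : (2 : ℝ) ≤ d := by exact_mod_cast h.two_le
  have hld : 0 < Real.log d := Real.log_pos (by linarith)
  -- the constant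
  obtain ⟨K2, hK2⟩ : ∃ K2 : ℝ, K2 = K18 d m r c N0 z := ⟨_, rfl⟩
  have hK2pos : 0 < K2 := by
    rw [hK2]
    unfold K18
    have h1 : Real.exp (-c) < 1 := by
      rw [Real.exp_lt_one_iff]
      linarith
    have h2 : 0 < (1 - Real.exp (-c))⁻¹ := inv_pos.2 (by linarith)
    have h3 : 0 ≤ ∑ j ∈ range N0, wt d m (wd d m r j z) := sum_nonneg fun j _ => wt_nonneg _
    linarith
  -- the first length
  obtain ⟨N', hN'N, hN'0, hN'⟩ : ∃ N' : ℕ, N ≤ N' ∧ N0 ≤ N' ∧
      ∀ k : ℕ, N' ≤ k → Real.exp (-(c * k)) ≤ 1 / 4 := by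
    obtain ⟨n1, hn1⟩ := exists_nat_ge (Real.log 4 / c)
    refine ⟨max (max N N0) n1, le_trans (le_max_left _ _) (le_max_left _ _),
      le_trans (le_max_right _ _) (le_max_left _ _), fun k hk => ?_⟩
    have h1 : (n1 : ℝ) ≤ k := by exact_mod_cast le_trans (le_max_right _ _) hk
    have h2 : Real.log 4 ≤ c * k := by
      rw [div_le_iff₀ hc] at hn1
      nlinarith
    rw [Real.exp_neg, one_div]
    apply inv_anti₀ (by norm_num)
    rw [← Real.log_le_iff_le_exp (by norm_num)]
    exact h2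
  -- the sets of preimages
  let Wk : ℕ → Finset (List ℕ) := fun k =>
    (LW d k).filter (fun w => (Nice d η N0 w ∧ Vl d m r z w) ∧ pre d m r z w ≠ 0)
  let Zk : ℕ → Finset ℤ := fun k => (Wk k).image (pre d m r z)
  have hWk : ∀ k w, w ∈ Wk k → w ∈ LW d k ∧ Nice d η N0 w ∧ Vl d m r z w ∧
      pre d m r z w ≠ 0 := by
    intro k w hw
    obtain ⟨a, ⟨b, c⟩, e⟩ := mem_filter.1 hw
    exact ⟨a, b, c, e⟩
  -- properties of the elements
  have hZk : ∀ k x, x ∈ Zk k → x ≠ 0 ∧ (Tm d m r)^[k] x = z ∧ Nice d η N0 (wd d m r k x) ∧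
      |(x : ℝ)| ≤ R * (d : ℝ) ^ k ∧ wt d m (wd d m r k x) ≤ R * (1 / |(x : ℝ)|) := by
    intro k x hx
    obtain ⟨w, hw, rfl⟩ := mem_image.1 hx
    obtain ⟨a, b, c, e⟩ := hWk k w hw
    obtain ⟨i1, i2⟩ := pre_iter h a c
    obtain ⟨b1, b2⟩ := pre_bounds_p18 h hn a b c e
    have hRle : |(z : ℝ)| + C0 ≤ R := by rw [hRdef]; linarith
    refine ⟨e, i1, by rw [i2]; exact b, ?_, ?_⟩
    · exact b1.trans (mul_le_mul_of_nonneg_right hRle (by positivity))
    · rw [i2]
      exact b2.trans (mul_le_mul_of_nonneg_right hRle (by positivity))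
  -- the mass of one length
  have hsum : ∀ k, N' ≤ k → 1 / 4 ≤ ∑ x ∈ Zk k, wt d m (wd d m r k x) := by
    intro k hk
    have hinj : Set.InjOn (pre d m r z) ((Wk k : Finset (List ℕ)) : Set (List ℕ)) := by
      intro w hw w' hw' he
      obtain ⟨a, -, b, -⟩ := hWk k w hw
      obtain ⟨a', -, b', -⟩ := hWk k w' hw'
      exact pre_inj h a a' b b' he
    have e1 : ∑ x ∈ Zk k, wt d m (wd d m r k x) = ∑ w ∈ Wk k, wt d m w := by
      rw [Finset.sum_image hinj]
      refine Finset.sum_congr rfl fun w hw => ?_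
      obtain ⟨a, -, b, -⟩ := hWk k w hw
      rw [(pre_iter h a b).2]
    rw [e1]
    have hUk := hU k (hN'N.trans hk)
    have e2 : U d m r η N0 k z = ∑ w ∈ Wk k, wt d m w +
        ∑ w ∈ (LW d k).filter (fun w => (Nice d η N0 w ∧ Vl d m r z w) ∧ pre d m r z w = 0),
          wt d m w := by
      unfold U
      rw [← Finset.sum_filter_add_sum_filter_not
        ((LW d k).filter (fun w => Nice d η N0 w ∧ Vl d m r z w)) (fun w => pre d m r z w ≠ 0),
        Finset.filter_filter, Finset.filter_filter]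
      refine congrArg₂ (· + ·) (Finset.sum_congr (Finset.filter_congr fun w _ => Iff.rfl)
        fun _ _ => rfl) (Finset.sum_congr (Finset.filter_congr fun w _ => ?_) fun _ _ => rfl)
      rw [not_not]
    have e3 : ∑ w ∈ (LW d k).filter (fun w => (Nice d η N0 w ∧ Vl d m r z w) ∧
        pre d m r z w = 0), wt d m w ≤ 1 / 4 := by
      rcases Finset.eq_empty_or_nonempty ((LW d k).filter (fun w =>
        (Nice d η N0 w ∧ Vl d m r z w) ∧ pre d m r z w = 0)) with he | ⟨w0, hw0⟩
      · rw [he, Finset.sum_empty]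
        norm_num
      · have h1 : (LW d k).filter (fun w => (Nice d η N0 w ∧ Vl d m r z w) ∧
            pre d m r z w = 0) = {w0} := by
          refine Finset.eq_singleton_iff_unique_mem.2 ⟨hw0, fun w hw => ?_⟩
          obtain ⟨a, ⟨-, b⟩, e⟩ := mem_filter.1 hw
          obtain ⟨a', ⟨-, b'⟩, e'⟩ := mem_filter.1 hw0
          exact pre_inj h a a' b b' (e.trans e'.symm)
        rw [h1, Finset.sum_singleton]
        obtain ⟨a, ⟨b, -⟩, -⟩ := mem_filter.1 hw0
        obtain ⟨hl, hd⟩ := mem_LW.1 a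
        have h2 := hn.mul w0 hd b (by omega)
        rw [hl] at h2
        refine le_trans ?_ (hN' k hk)
        unfold wt
        rw [hl, div_le_iff₀ (by positivity), mul_comm]
        exact h2
    linarith
  -- sum over the lengths of one element
  have hone : ∀ (I : Finset ℕ) (x : ℤ),
      ∑ k ∈ I, (if x ∈ Zk k then wt d m (wd d m r k x) else 0) ≤ K2 * (R * (1 / |(x : ℝ)|)) := by
    intro I x
    have hpos : 0 ≤ R * (1 / |(x : ℝ)|) := by positivity
    rw [← Finset.sum_filter]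
    rcases Finset.eq_empty_or_nonempty (I.filter (fun k => x ∈ Zk k)) with he | hne
    · rw [he, Finset.sum_empty]
      positivity
    · obtain ⟨k0, hk0⟩ : ∃ k0, k0 = (I.filter (fun k => x ∈ Zk k)).min' hne := ⟨_, rfl⟩
      have hk0m : x ∈ Zk k0 := by
        have := (I.filter (fun k => x ∈ Zk k)).min'_mem hne
        rw [← hk0] at this
        exact (mem_filter.1 this).2
      obtain ⟨-, hT, -, -, hw0⟩ := hZk k0 x hk0m
      have hstep : ∀ k ∈ I.filter (fun k => x ∈ Zk k), wt d m (wd d m r k x) ≤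
          wt d m (wd d m r k0 x) * hf18 d m r c N0 z (k - k0) := by
        intro k hk
        have hle : k0 ≤ k := by
          rw [hk0]
          exact Finset.min'_le _ _ hk
        obtain ⟨-, -, hni, -, -⟩ := hZk k x (mem_filter.1 hk).2
        obtain ⟨j, rfl⟩ := Nat.exists_eq_add_of_le hle
        rw [Nat.add_sub_cancel_left]
        rw [wd_add_p18, hT] at hni ⊢
        rw [wt_append h.two_le]
        refine mul_le_mul_of_nonneg_left ?_ (wt_nonneg _)
        have hnj := nice_suffix_p18 hni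
        unfold hf18
        by_cases hj : j < N0
        · rw [if_pos hj]
          have := (Real.exp_pos (-(c * j))).le
          linarith
        · rw [if_neg hj, zero_add]
          obtain ⟨hl, hd⟩ := mem_LW.1 (wd_mem (m := m) (r := r) h.two_le j z)
          have h2 := hn.mul _ hd hnj (by omega)
          rw [hl] at h2
          unfold wt
          rw [hl, div_le_iff₀ (by positivity), mul_comm]
          exact h2
      calc ∑ k ∈ I.filter (fun k => x ∈ Zk k), wt d m (wd d m r k x)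
          ≤ ∑ k ∈ I.filter (fun k => x ∈ Zk k), wt d m (wd d m r k0 x) *
              hf18 d m r c N0 z (k - k0) := Finset.sum_le_sum hstep
        _ = wt d m (wd d m r k0 x) * ∑ k ∈ I.filter (fun k => x ∈ Zk k),
              hf18 d m r c N0 z (k - k0) := by rw [Finset.mul_sum]
        _ = wt d m (wd d m r k0 x) * ∑ j ∈ (I.filter (fun k => x ∈ Zk k)).image (fun k => k - k0),
              hf18 d m r c N0 z j := by
            congr 1
            rw [Finset.sum_image]
            intro a ha b hb hab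
            have ha' : k0 ≤ a := by rw [hk0]; exact Finset.min'_le _ _ ha
            have hb' : k0 ≤ b := by rw [hk0]; exact Finset.min'_le _ _ hb
            simp only at hab
            omega
        _ ≤ (R * (1 / |(x : ℝ)|)) * K2 := by
            rw [hK2]
            exact mul_le_mul hw0 (hf18_sum hc N0 z _)
              (Finset.sum_nonneg fun j _ => hf18_nonneg c N0 z j) hpos
        _ = _ := by ring
  have hunion : ∀ K : ℕ, ((Finset.Ico N' K).card : ℝ) * (1 / (4 * K2 * R)) ≤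
      ∑ x ∈ (Finset.Ico N' K).biUnion Zk, 1 / |(x : ℝ)| := by
    intro K
    have h1 : ((Finset.Ico N' K).card : ℝ) * (1 / 4) ≤
        ∑ k ∈ Finset.Ico N' K, ∑ x ∈ Zk k, wt d m (wd d m r k x) := by
      rw [← nsmul_eq_mul]
      exact Finset.card_nsmul_le_sum _ _ _ fun k hk => hsum k (Finset.mem_Ico.1 hk).1
    have h2 : ∑ k ∈ Finset.Ico N' K, ∑ x ∈ Zk k, wt d m (wd d m r k x) =
        ∑ x ∈ (Finset.Ico N' K).biUnion Zk, ∑ k ∈ Finset.Ico N' K,
          (if x ∈ Zk k then wt d m (wd d m r k x) else 0) := by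
      rw [Finset.sum_comm]
      refine Finset.sum_congr rfl fun k hk => ?_
      rw [← Finset.sum_filter]
      refine Finset.sum_congr ?_ fun _ _ => rfl
      ext x
      rw [mem_filter, mem_biUnion]
      exact ⟨fun hx => ⟨⟨k, hk, hx⟩, hx⟩, fun hx => hx.2⟩
    have h3 : ∑ x ∈ (Finset.Ico N' K).biUnion Zk, ∑ k ∈ Finset.Ico N' K,
          (if x ∈ Zk k then wt d m (wd d m r k x) else 0) ≤
        ∑ x ∈ (Finset.Ico N' K).biUnion Zk, K2 * (R * (1 / |(x : ℝ)|)) :=
      Finset.sum_le_sum fun x _ => hone _ x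
    rw [h2] at h1
    have h4 := h1.trans h3
    have h5 : ∑ x ∈ (Finset.Ico N' K).biUnion Zk, K2 * (R * (1 / |(x : ℝ)|)) =
        (K2 * R) * ∑ x ∈ (Finset.Ico N' K).biUnion Zk, 1 / |(x : ℝ)| := by
      rw [Finset.mul_sum]
      refine Finset.sum_congr rfl fun x _ => by ring
    rw [h5] at h4
    have hKR : 0 < K2 * R := by positivity
    have h6 : ((Finset.Ico N' K).card : ℝ) * (1 / (4 * K2 * R)) =
        (((Finset.Ico N' K).card : ℝ) * (1 / 4)) / (K2 * R) := by
      field_simp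
    rw [h6, div_le_iff₀ hKR]
    linarith
  have hbound : ∀ (X : ℕ), (1 : ℝ) ≤ X → Real.log R ≤ Real.log X → ∀ k, k <
      ⌊(Real.log X - Real.log R) / Real.log d⌋₊ + 1 → R * (d : ℝ) ^ k ≤ X := by
    intro X hX1 hX k hk
    have hk' : k ≤ ⌊(Real.log X - Real.log R) / Real.log d⌋₊ := by omega
    have h1 : (k : ℝ) ≤ (Real.log X - Real.log R) / Real.log d := by
      refine le_trans (Nat.cast_le.2 hk') (Nat.floor_le ?_)
      exact div_nonneg (by linarith) hld.le
    rw [le_div_iff₀ hld] at h1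
    have hXp : (0 : ℝ) < X := by linarith
    rw [← Real.log_le_log_iff (by positivity) hXp, Real.log_mul (by positivity) (by positivity),
      Real.log_pow]
    linarith
  have hZprop : ∀ (X : ℕ), (1 : ℝ) ≤ X → Real.log R ≤ Real.log X →
      ∀ x ∈ (Finset.Ico N' (⌊(Real.log X - Real.log R) / Real.log d⌋₊ + 1)).biUnion Zk,
      x ∈ S ∧ x ≠ 0 ∧ |(x : ℝ)| ≤ X := by
    intro X hX1 hX x hx
    obtain ⟨k, hk, hxk⟩ := Finset.mem_biUnion.1 hx
    rw [Finset.mem_Ico] at hk
    obtain ⟨p0, e1, -, p2, -⟩ := hZk k x hxk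
    refine ⟨?_, p0, ?_⟩
    · rw [inv_iter_p11 hS k, e1]; exact hzS
    · exact p2.trans (hbound X hX1 hX k hk.2)
  have hcount : ∀ (X : ℕ), 2 * (Real.log R + N' * Real.log d) ≤ Real.log X →
      1 / (8 * K2 * R * Real.log d) * Real.log X ≤
        ((Finset.Ico N' (⌊(Real.log X - Real.log R) / Real.log d⌋₊ + 1)).card : ℝ) *
          (1 / (4 * K2 * R)) := by
    intro X hX
    have h1 : (Real.log X - Real.log R) / Real.log d - N' ≤
        ((Finset.Ico N' (⌊(Real.log X - Real.log R) / Real.log d⌋₊ + 1)).card : ℝ) := by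
      rw [Nat.card_Ico]
      have a1 := (Nat.lt_floor_add_one ((Real.log X - Real.log R) / Real.log d)).le
      have a2 : ((⌊(Real.log X - Real.log R) / Real.log d⌋₊ + 1 : ℕ) : ℝ) ≤
          ((⌊(Real.log X - Real.log R) / Real.log d⌋₊ + 1 - N' : ℕ) : ℝ) + N' := by
        have : ⌊(Real.log X - Real.log R) / Real.log d⌋₊ + 1 ≤
          ⌊(Real.log X - Real.log R) / Real.log d⌋₊ + 1 - N' + N' := by omega
        exact_mod_cast this
      push_cast at a2
      linarith
    have h2 : Real.log X / (2 * Real.log d) ≤ (Real.log X - Real.log R) / Real.log d - N' := by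
      rw [div_sub' hld.ne', div_le_div_iff₀ (by positivity) hld]
      nlinarith
    calc 1 / (8 * K2 * R * Real.log d) * Real.log X =
          Real.log X / (2 * Real.log d) * (1 / (4 * K2 * R)) := by
          field_simp; ring
      _ ≤ _ := mul_le_mul_of_nonneg_right (h2.trans h1) (by positivity)
  have hlogR : 0 < Real.log R := Real.log_pos hR
  have hX0 : ∀ X : ℕ, ⌈Real.exp (2 * (Real.log R + N' * Real.log d))⌉₊ ≤ X →
      (1 : ℝ) ≤ X ∧ Real.log R ≤ Real.log X ∧
        2 * (Real.log R + N' * Real.log d) ≤ Real.log X := by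
    intro X hX
    have h0 : 0 ≤ (N' : ℝ) * Real.log d := by positivity
    have h1 : Real.exp (2 * (Real.log R + N' * Real.log d)) ≤ X :=
      (Nat.le_ceil _).trans (by exact_mod_cast hX)
    have h2 : 1 ≤ Real.exp (2 * (Real.log R + N' * Real.log d)) := Real.one_le_exp (by positivity)
    have h3 : 2 * (Real.log R + N' * Real.log d) ≤ Real.log X := by
      rw [← Real.log_exp (2 * (Real.log R + N' * Real.log d))]
      exact Real.log_le_log (Real.exp_pos _) h1
    exact ⟨h2.trans h1, by linarith, h3⟩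
  refine ⟨1 / (8 * K2 * R * Real.log d), ⌈Real.exp (2 * (Real.log R + N' * Real.log d))⌉₊,
    by positivity, ?_⟩
  intro X hX
  obtain ⟨a1, a2, a3⟩ := hX0 X hX
  refine (hcount X a3).trans ((hunion _).trans ?_)
  exact sides_p11 X _ (fun x hx => (hZprop X a1 a2 x hx).1)
    (fun x hx => (hZprop X a1 a2 x hx).2.1) (fun x hx => (hZprop X a1 a2 x hx).2.2)

end Pool.Agent.H319R3.PO
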