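import Pool.Agent.H319R3.PO.Defs
import Pool.Agent.H319R3.GC.W1
import Pool.Agent.H319R3.GC.F2

/-!
One more free letter.
-/

set_option autoImplicit false

namespace Pool.Agent.H319R3.PO
open Pool.Agent.H319R3.GC Pool.Agent.H319R3.DN Finset Filter Topology

variable {d : ℕ} {m r : ℕ → ℤ}

theorem P8_Fib_shift {ι : Type*} (s : Finset ι) (v : ι → ℤ) {D R : ℕ} (hR : 1 ≤ R) (c t : ℤ) :
    Fib s v D R (c + D * t) = Fib s v D R c := by
  unfold Fib
  have hf : ∀ x : ℤ, cnt s v (D * R) (c + D * (x + R)) = cnt s v (D * R) (c + D * x) := by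
    intro x
    apply cnt_congr
    push_cast
    exact ⟨1, by ring⟩
  have h := FR_unit hR (f := fun x : ℤ => cnt s v (D * R) (c + D * x)) hf (u := 1)
    isCoprime_one_left t
  rw [← h]
  apply FR_congr
  intro a _
  show cnt s v (D * R) (c + D * t + D * a) = cnt s v (D * R) (c + D * (1 * (a : ℤ) + t))
  congr 1
  ring

theorem P8_Fib_per {ι : Type*} (s : Finset ι) (v : ι → ℤ) {D R : ℕ} (hR : 1 ≤ R) (c : ℤ) :
    Fib s v D R (c + D) = Fib s v D R c := by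
  have := P8_Fib_shift s v (D := D) hR c 1
  rwa [mul_one] at this

theorem P8_sum_phi {ι : Type*} (s : Finset ι) (v : ι → ℤ) {D R : ℕ} (hR : 1 ≤ R) (hD : 0 < D)
    {u : ℤ} (hu : IsCoprime u (D : ℤ)) :
    ∑ e ∈ range D, Fib s v D R (u * (e : ℤ)) = Gam s v D R := by
  have h := sum_affine hD (f := fun x : ℤ => Fib s v D R x) (fun x => P8_Fib_per s v hR x) hu 0
  simp only [add_zero] at h
  exact h

theorem P8_Ua_eq (η : ℝ) (N0 a b : ℕ) (y : ℤ) [DecidablePred fun v => Nice d η N0 v ∧ Vl d m r y v] :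
    Ua d m r η N0 a b (fun _ => True) y =
      ∑ v ∈ (LW d a).filter (fun v => Nice d η N0 v ∧ Vl d m r y v),
        wt d m v * uf d m r b (pre d m r y v) := by
  classical
  unfold Ua uf
  simp only [true_and]
  refine Finset.sum_congr ?_ fun v _ => rfl
  ext v
  simp only [mem_filter]

theorem P8_cs {ι : Type*} (s : Finset ι) (w F c : ι → ℝ) (hw : ∀ i, 0 ≤ w i) (hF : ∀ i, 0 ≤ F i)
    (hc : ∀ i, 0 ≤ c i) :
    ∑ i ∈ s, w i * √(F i * c i) ≤ √(∑ i ∈ s, w i * F i) * √(∑ i ∈ s, w i * c i) := by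
  have h := Real.sum_sqrt_mul_sqrt_le s (f := fun i => w i * F i) (g := fun i => w i * c i)
    (fun i => mul_nonneg (hw i) (hF i)) (fun i => mul_nonneg (hw i) (hc i))
  refine le_trans (le_of_eq ?_) h
  refine Finset.sum_congr rfl fun i _ => ?_
  rw [← Real.sqrt_mul (mul_nonneg (hw i) (hF i))]
  rw [show w i * F i * (w i * c i) = (w i) ^ 2 * (F i * c i) by ring,
    Real.sqrt_mul (sq_nonneg _), Real.sqrt_sq (hw i)]

theorem P8_wt_nonneg (w : List ℕ) : 0 ≤ wt d m w := by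
  unfold wt
  positivity

theorem P8_card (b : ℕ) (inst : DecidablePred (fun _ : List ℕ => True)) :
    (((@Finset.filter (List ℕ) (fun _ => True) inst (LW d b)).card : ℕ) : ℝ) = (d : ℝ) ^ b := by
  have h1 : @Finset.filter (List ℕ) (fun _ => True) inst (LW d b) = LW d b := by
    have h2 : inst = fun _ => instDecidableTrue := Subsingleton.elim _ _
    rw [h2]
    exact Finset.filter_true_of_mem (fun _ _ => trivial)
  rw [h1, card_LW]
  push_cast
  rfl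

open scoped Classical in
theorem Ua_step_of (h : Adm d m r) {η c C0 : ℝ} {N0 : ℕ} (hn : NB d m r η c C0 N0) (q : ℕ)
    (mass : ∀ {a : ℕ}, N0 ≤ a → ∀ (y : ℤ) {N' : ℕ}, 0 < N' → ∀ {φ : ℤ → ℝ},
      (∀ x, φ (x + N') = φ x) → (∀ x, 0 ≤ φ x) →
      ∑ v ∈ (LW d a).filter (fun v => Nice d η N0 v ∧ Vl d m r y v), wt d m v * φ (pre d m r y v)
        ≤ ((a : ℝ) + 1) ^ d * (2 * C0 / N' + Real.exp (-(c * a))) * ∑ e ∈ range N', φ (e : ℤ))
    (decay_groups : ∃ C : ℝ, 0 < C ∧ ∀ b : ℕ, 1 ≤ b →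
      ∑ M ∈ Ms d m b, Gam (gr d m b M) (Ww d m r) M.natAbs (PP d m) ≤
        C * (d : ℝ) ^ b / (b : ℝ) ^ (2 * q))
    (step : ∃ H : ℝ, 0 < H ∧ ∀ (b : ℕ) (x : ℤ),
      |uf d m r (b + 1) x - uf d m r b x| ≤ H * ∑ M ∈ Ms d m b, |(M : ℝ)| / (d : ℝ) ^ b *
        √(Fib (gr d m b M) (Ww d m r) M.natAbs (PP d m) (-(d : ℤ) ^ b * x) *
          cnt (gr d m b M) (Ww d m r) M.natAbs (-(d : ℤ) ^ b * x)))
    (uf_groups : ∀ (b : ℕ) (x : ℤ),
      uf d m r b x = ∑ M ∈ Ms d m b, |(M : ℝ)| / (d : ℝ) ^ b *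
        cnt (gr d m b M) (Ww d m r) M.natAbs (-(d : ℤ) ^ b * x))
    (Ua_le : ∀ {a b : ℕ}, N0 ≤ a → (PP d m : ℝ) ^ b ≤ Real.exp (c * a) →
      ∀ (Co : List ℕ → Prop) (y : ℤ), Ua d m r η N0 a b Co y
      ≤ ((a : ℝ) + 1) ^ d * (2 * C0 + 1) * ((((LW d b).filter Co).card : ℝ) / (d : ℝ) ^ b)) :
    ∃ C : ℝ, 0 < C ∧ ∀ a b : ℕ, N0 ≤ a → 1 ≤ b → (PP d m : ℝ) ^ b ≤ Real.exp (c * a) → ∀ y : ℤ,
      |Ua d m r η N0 a (b + 1) (fun _ => True) y - Ua d m r η N0 a b (fun _ => True) y|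
        ≤ C * ((a : ℝ) + 1) ^ d / (b : ℝ) ^ q := by
  obtain ⟨C1, hC1, hdec⟩ := decay_groups
  obtain ⟨H, hH, hstep⟩ := step
  have hC0 := hn.one_le
  have hd2 := h.two_le
  have hdpos : (0 : ℝ) < d := by
    have : 0 < d := by omega
    exact_mod_cast this
  have hP1 : 1 ≤ PP d m := le_trans (by norm_num) h.big
  refine ⟨H * (2 * C0 + 1) * √C1, by
    have : 0 < √C1 := Real.sqrt_pos.mpr hC1
    positivity, ?_⟩
  intro a b ha hb hab y
  have hdb : (0 : ℝ) < (d : ℝ) ^ b := by positivity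
  have hb0 : (0 : ℝ) < b := by exact_mod_cast hb
  set S := (LW d a).filter (fun v => Nice d η N0 v ∧ Vl d m r y v) with hS
  set X : List ℕ → ℤ := fun v => pre d m r y v with hX
  set F : ℤ → ℤ → ℝ := fun M x =>
    Fib (gr d m b M) (Ww d m r) M.natAbs (PP d m) (-(d : ℤ) ^ b * x) with hF
  set cn : ℤ → ℤ → ℝ := fun M x =>
    cnt (gr d m b M) (Ww d m r) M.natAbs (-(d : ℤ) ^ b * x) with hcn
  have hF0 : ∀ M x, 0 ≤ F M x := fun M x => Fib_nonneg _ _ _ _ _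
  have hc0 : ∀ M x, 0 ≤ cn M x := fun M x => cnt_nonneg _ _ _ _
  have hw0 : ∀ p : List ℕ × ℤ, 0 ≤ wt d m p.1 * (|(p.2 : ℝ)| / (d : ℝ) ^ b) := fun p =>
    mul_nonneg (P8_wt_nonneg _) (by positivity)
  -- difference
  have e1 : |Ua d m r η N0 a (b + 1) (fun _ => True) y - Ua d m r η N0 a b (fun _ => True) y| ≤
      H * ∑ p ∈ S ×ˢ Ms d m b, (wt d m p.1 * (|(p.2 : ℝ)| / (d : ℝ) ^ b)) *
        √(F p.2 (X p.1) * cn p.2 (X p.1)) := by
    rw [P8_Ua_eq, P8_Ua_eq, ← Finset.sum_sub_distrib]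
    refine (Finset.abs_sum_le_sum_abs _ _).trans ?_
    rw [Finset.sum_product, Finset.mul_sum]
    refine Finset.sum_le_sum fun v _ => ?_
    rw [← mul_sub, abs_mul, abs_of_nonneg (P8_wt_nonneg v)]
    calc wt d m v * |uf d m r (b + 1) (pre d m r y v) - uf d m r b (pre d m r y v)|
        ≤ wt d m v * (H * ∑ M ∈ Ms d m b, |(M : ℝ)| / (d : ℝ) ^ b *
          √(F M (X v) * cn M (X v))) :=
          mul_le_mul_of_nonneg_left (hstep b (pre d m r y v)) (P8_wt_nonneg v)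
      _ = H * ∑ M ∈ Ms d m b, wt d m v * (|(M : ℝ)| / (d : ℝ) ^ b) *
          √(F M (X v) * cn M (X v)) := by
          rw [mul_left_comm, Finset.mul_sum]
          congr 1
          refine Finset.sum_congr rfl fun M _ => ?_
          ring
  -- Cauchy-Schwarz
  have e2 := P8_cs (S ×ˢ Ms d m b) (fun p : List ℕ × ℤ => wt d m p.1 * (|(p.2 : ℝ)| / (d : ℝ) ^ b))
    (fun p => F p.2 (X p.1)) (fun p => cn p.2 (X p.1)) hw0 (fun p => hF0 _ _) (fun p => hc0 _ _)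
  -- second factor
  have eB : ∑ p ∈ S ×ˢ Ms d m b, (wt d m p.1 * (|(p.2 : ℝ)| / (d : ℝ) ^ b)) * cn p.2 (X p.1) ≤
      ((a : ℝ) + 1) ^ d * (2 * C0 + 1) := by
    have h1 : ∑ p ∈ S ×ˢ Ms d m b, (wt d m p.1 * (|(p.2 : ℝ)| / (d : ℝ) ^ b)) * cn p.2 (X p.1) =
        Ua d m r η N0 a b (fun _ => True) y := by
      rw [P8_Ua_eq, Finset.sum_product]
      refine Finset.sum_congr rfl fun v _ => ?_
      rw [uf_groups b, Finset.mul_sum]
      refine Finset.sum_congr rfl fun M _ => ?_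
      rw [hcn]
      ring
    rw [h1]
    refine (Ua_le ha hab (fun _ => True) y).trans (le_of_eq ?_)
    have h2 : ∀ inst : DecidablePred (fun _ : List ℕ => True), (((@Finset.filter (List ℕ)
        (fun _ => True) inst (LW d b)).card : ℕ) : ℝ) / (d : ℝ) ^ b = 1 := by
      intro inst
      rw [P8_card b inst, div_self hdb.ne']
    exact (congrArg (fun z => ((a : ℝ) + 1) ^ d * (2 * C0 + 1) * z) (h2 _)).trans (mul_one _)
  -- first factor
  have eA : ∑ p ∈ S ×ˢ Ms d m b, (wt d m p.1 * (|(p.2 : ℝ)| / (d : ℝ) ^ b)) * F p.2 (X p.1) ≤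
      ((a : ℝ) + 1) ^ d * (2 * C0 + 1) * (C1 / (b : ℝ) ^ (2 * q)) := by
    have hM : ∀ M ∈ Ms d m b, ∑ v ∈ S, (wt d m v * (|(M : ℝ)| / (d : ℝ) ^ b)) * F M (X v) ≤
        ((a : ℝ) + 1) ^ d * (2 * C0 + 1) *
          (Gam (gr d m b M) (Ww d m r) M.natAbs (PP d m) / (d : ℝ) ^ b) := by
      intro M hM
      obtain ⟨w, hwL, rfl⟩ := mem_image.1 hM
      have hw := mem_LW.1 hwL
      have hM0 : Mw m w ≠ 0 := Mw_ne_zero h hw.2
      have hN0 : 0 < (Mw m w).natAbs := Int.natAbs_pos.mpr hM0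
      have hcop : IsCoprime (-(d : ℤ) ^ b) (((Mw m w).natAbs : ℕ) : ℤ) := by
        have h1 : IsCoprime ((d : ℤ) ^ b) (Mw m w) := (Mw_cop h hw.2).symm.pow_left
        have h2 : IsCoprime (-(d : ℤ) ^ b) (Mw m w) := h1.neg_left
        rw [Int.isCoprime_iff_gcd_eq_one] at h2 ⊢
        rw [← h2, Int.gcd, Int.gcd, Int.natAbs_natCast]
      have habs : |((Mw m w : ℤ) : ℝ)| = (((Mw m w).natAbs : ℕ) : ℝ) := by
        rw [Nat.cast_natAbs, Int.cast_abs]
      have hper : ∀ x : ℤ, F (Mw m w) (x + (Mw m w).natAbs) = F (Mw m w) x := by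
        intro x
        simp only [hF]
        have := P8_Fib_shift (gr d m b (Mw m w)) (Ww d m r) (D := (Mw m w).natAbs) hP1
          (-(d : ℤ) ^ b * x) (-(d : ℤ) ^ b)
        rw [← this]
        congr 1
        ring
      have hmass := mass ha y hN0 hper (fun x => hF0 _ x)
      have hsum : ∑ e ∈ range (Mw m w).natAbs, F (Mw m w) (e : ℤ) =
          Gam (gr d m b (Mw m w)) (Ww d m r) (Mw m w).natAbs (PP d m) :=
        P8_sum_phi _ _ hP1 hN0 hcop
      rw [hsum] at hmass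
      set Γ := Gam (gr d m b (Mw m w)) (Ww d m r) (Mw m w).natAbs (PP d m) with hΓ
      have hΓ0 : 0 ≤ Γ := Gam_nonneg _ _ _ _
      have hle : (((Mw m w).natAbs : ℕ) : ℝ) ≤ Real.exp (c * a) := by
        have h1 : (Mw m w).natAbs ≤ PP d m ^ b :=
          Nat.le_of_dvd (pow_pos (by omega) _) (natAbs_Mw_dvd hwL)
        calc (((Mw m w).natAbs : ℕ) : ℝ) ≤ ((PP d m ^ b : ℕ) : ℝ) := by exact_mod_cast h1
          _ = (PP d m : ℝ) ^ b := by push_cast; rfl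
          _ ≤ _ := hab
      have hNpos : (0 : ℝ) < (((Mw m w).natAbs : ℕ) : ℝ) := by exact_mod_cast hN0
      calc ∑ v ∈ S, (wt d m v * (|((Mw m w : ℤ) : ℝ)| / (d : ℝ) ^ b)) * F (Mw m w) (X v)
          = (|((Mw m w : ℤ) : ℝ)| / (d : ℝ) ^ b) *
            ∑ v ∈ S, wt d m v * F (Mw m w) (X v) := by
            rw [Finset.mul_sum]
            refine Finset.sum_congr rfl fun v _ => ?_
            ring
        _ ≤ (|((Mw m w : ℤ) : ℝ)| / (d : ℝ) ^ b) *
            (((a : ℝ) + 1) ^ d * (2 * C0 / ((Mw m w).natAbs : ℕ) + Real.exp (-(c * a))) * Γ) :=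
            mul_le_mul_of_nonneg_left hmass (by positivity)
        _ = ((a : ℝ) + 1) ^ d * (2 * C0 + (((Mw m w).natAbs : ℕ) : ℝ) * Real.exp (-(c * a))) *
            (Γ / (d : ℝ) ^ b) := by
            rw [habs]
            field_simp
        _ ≤ ((a : ℝ) + 1) ^ d * (2 * C0 + 1) * (Γ / (d : ℝ) ^ b) := by
            apply mul_le_mul_of_nonneg_right _ (by positivity)
            apply mul_le_mul_of_nonneg_left _ (by positivity)
            have h2 : (((Mw m w).natAbs : ℕ) : ℝ) * Real.exp (-(c * a)) ≤ 1 := by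
              rw [Real.exp_neg, mul_inv_le_iff₀ (Real.exp_pos _), one_mul]
              exact hle
            linarith
    rw [Finset.sum_product, Finset.sum_comm]
    calc ∑ M ∈ Ms d m b, ∑ v ∈ S, (wt d m v * (|(M : ℝ)| / (d : ℝ) ^ b)) * F M (X v)
        ≤ ∑ M ∈ Ms d m b, ((a : ℝ) + 1) ^ d * (2 * C0 + 1) *
          (Gam (gr d m b M) (Ww d m r) M.natAbs (PP d m) / (d : ℝ) ^ b) :=
          Finset.sum_le_sum hM
      _ = ((a : ℝ) + 1) ^ d * (2 * C0 + 1) *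
          ((∑ M ∈ Ms d m b, Gam (gr d m b M) (Ww d m r) M.natAbs (PP d m)) / (d : ℝ) ^ b) := by
          rw [Finset.sum_div, Finset.mul_sum]
      _ ≤ _ := by
          apply mul_le_mul_of_nonneg_left _ (by positivity)
          rw [div_le_iff₀ hdb]
          refine (hdec b hb).trans (le_of_eq ?_)
          ring
  -- conclusion
  set Q := ((a : ℝ) + 1) ^ d * (2 * C0 + 1) with hQ
  have hQ0 : 0 ≤ Q := by positivity
  calc |Ua d m r η N0 a (b + 1) (fun _ => True) y - Ua d m r η N0 a b (fun _ => True) y|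
      ≤ H * ∑ p ∈ S ×ˢ Ms d m b, (wt d m p.1 * (|(p.2 : ℝ)| / (d : ℝ) ^ b)) *
        √(F p.2 (X p.1) * cn p.2 (X p.1)) := e1
    _ ≤ H * (√(Q * (C1 / (b : ℝ) ^ (2 * q))) * √Q) := by
        apply mul_le_mul_of_nonneg_left _ hH.le
        refine e2.trans ?_
        exact mul_le_mul (Real.sqrt_le_sqrt eA) (Real.sqrt_le_sqrt eB) (Real.sqrt_nonneg _)
          (Real.sqrt_nonneg _)
    _ = H * (Q * (√C1 / (b : ℝ) ^ q)) := by
        rw [Real.sqrt_mul hQ0, mul_right_comm, Real.mul_self_sqrt hQ0, Real.sqrt_div hC1.le,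
          mul_comm 2 q, pow_mul, Real.sqrt_sq (by positivity)]
    _ = _ := by
        rw [hQ]
        ring

end Pool.Agent.H319R3.PO
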