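import Pool.Agent.H319R3.PO.Defs
import Pool.Agent.H319R3.GC.S3

/-! Blueprint: positive densities of invariant sets of generalised Collatz maps of coprime type
(all statements, with `sorry`). Never import this file in a hand-in. -/

set_option autoImplicit false

namespace Pool.Agent.H319R3.PO.Stubs
open Pool.Agent.H319R3.GC Pool.Agent.H319R3.DN Pool.Agent.H319R3.PO Finset Filter Topology

variable {d : ℕ} {m r : ℕ → ℤ}

/-! ### P1 : file P1.lean, validity -/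

theorem pre_mul {y : ℤ} {w : List ℕ} (hy : Vl d m r y w) :
    Mw m w * pre d m r y w = (d : ℤ) ^ w.length * y + Ww d m r w := by sorry

theorem Vl_append (h : Adm d m r) {u v : List ℕ} (hu : ∀ i ∈ u, i < d) (hv : ∀ i ∈ v, i < d)
    (y : ℤ) : Vl d m r y (u ++ v) ↔ Vl d m r y v ∧ Vl d m r (pre d m r y v) u := by sorry

theorem pre_append (h : Adm d m r) {u v : List ℕ} (hu : ∀ i ∈ u, i < d) (hv : ∀ i ∈ v, i < d)
    {y : ℤ} (hy : Vl d m r y v) (hyu : Vl d m r (pre d m r y v) u) :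
    pre d m r y (u ++ v) = pre d m r (pre d m r y v) u := by sorry

theorem wt_append (h : 2 ≤ d) (u v : List ℕ) : wt d m (u ++ v) = wt d m u * wt d m v := by sorry

theorem wt_nonneg (w : List ℕ) : 0 ≤ wt d m w := by sorry

theorem pre_iter (h : Adm d m r) {k : ℕ} {w : List ℕ} (hw : w ∈ LW d k) {y : ℤ}
    (hy : Vl d m r y w) : (Tm d m r)^[k] (pre d m r y w) = y ∧ wd d m r k (pre d m r y w) = w := by
  sorry

theorem pre_inj (h : Adm d m r) {k : ℕ} {w w' : List ℕ} (hw : w ∈ LW d k) (hw' : w' ∈ LW d k)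
    {y : ℤ} (hy : Vl d m r y w) (hy' : Vl d m r y w')
    (he : pre d m r y w = pre d m r y w') : w = w' := by sorry

/-- the itinerary of a preimage is valid -/
theorem Vl_itin (h : Adm d m r) (k : ℕ) (x : ℤ) :
    Vl d m r ((Tm d m r)^[k] x) (wd d m r k x) ∧
      pre d m r ((Tm d m r)^[k] x) (wd d m r k x) = x := by sorry

theorem Vl_congr (h : Adm d m r) {k : ℕ} {w : List ℕ} (hw : w ∈ LW d k) {y y' : ℤ}
    (hyy : ((PP d m : ℤ)) ^ k ∣ y - y') : Vl d m r y w ↔ Vl d m r y' w := by sorry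

open scoped Classical in
/-- exactly one class mod `|M_w|` is valid -/
theorem Vl_card (h : Adm d m r) {k : ℕ} {w : List ℕ} (hw : w ∈ LW d k) :
    ((range (Mw m w).natAbs).filter (fun e : ℕ => Vl d m r (e : ℤ) w)).card = 1 := by sorry

theorem Vl_per (h : Adm d m r) {k : ℕ} {w : List ℕ} (hw : w ∈ LW d k) (y : ℤ) :
    Vl d m r (y + (Mw m w).natAbs) w ↔ Vl d m r y w := by sorry

/-! ### P2 : file P2.lean, nice words -/

theorem Nice.suffix {η : ℝ} {N0 : ℕ} {u v : List ℕ} (h : Nice d η N0 (u ++ v)) : Nice d η N0 v := by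
  sorry

theorem nice_bounds (h : Adm d m r) : ∃ η c : ℝ, ∀ N0 : ℕ, ∃ C0 : ℝ, NB d m r η c C0 N0 := by sorry

/-! ### P3 : file P3.lean, probabilities -/

open scoped Classical in
theorem dev_prob (hd : 2 ≤ d) {η : ℝ} (hη : 0 < η) : ∃ c : ℝ, 0 < c ∧ ∀ s b : ℕ, s ≤ b →
    (((LW d b).filter fun u => ∃ i < d,
      η * s < |((u.drop (b - s)).count i : ℝ) - (s : ℝ) / d|).card : ℝ)
      ≤ 2 * d * ((d : ℝ) ^ b * Real.exp (-(c * s))) := by sorry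

open scoped Classical in
theorem nice_prob (hd : 2 ≤ d) {η : ℝ} (hη : 0 < η) {ε : ℝ} (hε : 0 < ε) : ∃ N0 : ℕ, ∀ k : ℕ,
    (((LW d k).filter fun w => ¬ Nice d η N0 w).card : ℝ) ≤ ε * (d : ℝ) ^ k := by sorry

/-! ### P4 : file P4.lean, the pointwise mass bound (uses P1) -/

open scoped Classical in
theorem mass (h : Adm d m r) {η c C0 : ℝ} {N0 : ℕ} (hn : NB d m r η c C0 N0) {a : ℕ} (ha : N0 ≤ a)
    (y : ℤ) {N' : ℕ} (hN' : 0 < N') {φ : ℤ → ℝ} (hφ : ∀ x, φ (x + N') = φ x) (hφ0 : ∀ x, 0 ≤ φ x) :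
    ∑ v ∈ (LW d a).filter (fun v => Nice d η N0 v ∧ Vl d m r y v), wt d m v * φ (pre d m r y v)
      ≤ ((a : ℝ) + 1) ^ d * (2 * C0 / N' + Real.exp (-(c * a))) * ∑ e ∈ range N', φ (e : ℤ) := by
  sorry

/-! ### P5 : file P5.lean, decay summed over the groups (uses GC.D1) -/

theorem decay_groups (h : Adm d m r) (q : ℕ) : ∃ C : ℝ, 0 < C ∧ ∀ b : ℕ, 1 ≤ b →
    ∑ M ∈ Ms d m b, Gam (gr d m b M) (Ww d m r) M.natAbs (PP d m) ≤ C * (d : ℝ) ^ b / (b : ℝ) ^ q := by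
  sorry

/-! ### P6 : file P6.lean, one more letter (uses P1) -/

theorem step (h : Adm d m r) : ∃ H : ℝ, 0 < H ∧ ∀ (b : ℕ) (x : ℤ),
    |uf d m r (b + 1) x - uf d m r b x| ≤ H * ∑ M ∈ Ms d m b, |(M : ℝ)| / (d : ℝ) ^ b *
      √(Fib (gr d m b M) (Ww d m r) M.natAbs (PP d m) (-(d : ℤ) ^ b * x) *
        cnt (gr d m b M) (Ww d m r) M.natAbs (-(d : ℤ) ^ b * x)) := by sorry

/-- `uf` as a sum over the groups -/
theorem uf_groups (h : Adm d m r) (b : ℕ) (x : ℤ) :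
    uf d m r b x = ∑ M ∈ Ms d m b, |(M : ℝ)| / (d : ℝ) ^ b *
      cnt (gr d m b M) (Ww d m r) M.natAbs (-(d : ℤ) ^ b * x) := by sorry

/-! ### P7 : file P7.lean, bound of `Ua` (uses P1, P4) -/

open scoped Classical in
theorem Ua_le (h : Adm d m r) {η c C0 : ℝ} {N0 : ℕ} (hn : NB d m r η c C0 N0) {a b : ℕ}
    (ha : N0 ≤ a) (hab : (PP d m : ℝ) ^ b ≤ Real.exp (c * a)) (Co : List ℕ → Prop) (y : ℤ) :
    Ua d m r η N0 a b Co y
      ≤ ((a : ℝ) + 1) ^ d * (2 * C0 + 1) * ((((LW d b).filter Co).card : ℝ) / (d : ℝ) ^ b) := by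
  sorry

/-! ### P8 : file P8.lean, one more free letter (uses P4, P5, P6, P7) -/

theorem Ua_step (h : Adm d m r) {η c C0 : ℝ} {N0 : ℕ} (hn : NB d m r η c C0 N0) (q : ℕ) :
    ∃ C : ℝ, 0 < C ∧ ∀ a b : ℕ, N0 ≤ a → 1 ≤ b → (PP d m : ℝ) ^ b ≤ Real.exp (c * a) → ∀ y : ℤ,
      |Ua d m r η N0 a (b + 1) (fun _ => True) y - Ua d m r η N0 a b (fun _ => True) y|
        ≤ C * ((a : ℝ) + 1) ^ d / (b : ℝ) ^ q := by sorry

/-! ### P9 : file P9.lean, the quenched inequality (uses P1, P2, P3, P7, P8) -/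

/-- words of length `a + b`: nice implies nice suffix -/
theorem U_le_Ua (h : Adm d m r) {η : ℝ} {N0 : ℕ} (a b : ℕ) (y : ℤ) :
    U d m r η N0 (a + b) y ≤ Ua d m r η N0 a b (fun _ => True) y := by sorry

theorem quenched (h : Adm d m r) {η c C0 : ℝ} {N0 : ℕ} (hn : NB d m r η c C0 N0) :
    ∃ (N1 : ℕ) (C : ℝ), 0 < C ∧ ∀ k : ℕ, N1 ≤ k → ∀ y : ℤ,
      U d m r η N0 k y ≤ U d m r η N0 (k + 1) y + C / (k : ℝ) ^ 2 := by sorry

/-! ### P10 : file P10.lean, a good class (uses P1, P2, P3, P9) -/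

theorem good_class (h : Adm d m r) : ∃ (η c C0 : ℝ) (N0 N : ℕ) (y₀ : ℤ), NB d m r η c C0 N0 ∧
    N0 ≤ N ∧ 1 ≤ N ∧ ∀ y : ℤ, (PP d m : ℤ) ^ N ∣ y - y₀ → ∀ k : ℕ, N ≤ k →
      1 / 2 ≤ U d m r η N0 k y := by sorry

/-! ### P11 : file P11.lean, lower bound of the harmonic sum (uses P1, P2) -/

theorem harm_lower (h : Adm d m r) {η c C0 : ℝ} {N0 N : ℕ} (hn : NB d m r η c C0 N0) {z : ℤ}
    (hz : C0 < |(z : ℝ)|) (hU : ∀ k : ℕ, N ≤ k → 1 / 2 ≤ U d m r η N0 k z)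
    (hper : ∀ j : ℕ, 1 ≤ j → (Tm d m r)^[j] z ≠ z) {S : Set ℤ} (hS : Inv d m r S) (hzS : z ∈ S) :
    ∃ (c' : ℝ) (X₀ : ℕ), 0 < c' ∧ (∀ X : ℕ, X₀ ≤ X → c' * Real.log X ≤ HS S 1 X + HS S (-1) X) ∧
      ((∀ i < d, 0 < m i) → ∀ σ : ℤ, (σ = 1 ∨ σ = -1) → 0 < σ * z → ∀ X : ℕ, X₀ ≤ X →
        c' * Real.log X ≤ HS S σ X) := by sorry

/-! ### P12 : file P12.lean, zero density -/

theorem harm_small {S : Set ℤ} {σ : ℤ} (hσ : σ = 1 ∨ σ = -1)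
    (h0 : Tendsto (fun X : ℝ => G S σ X / X) atTop (𝓝 0)) {ε : ℝ} (hε : 0 < ε) :
    ∃ X₀ : ℕ, ∀ X : ℕ, X₀ ≤ X → HS S σ X ≤ ε * Real.log X := by sorry

/-! ### P13 : file P13.lean, positivity for one residue class (uses P10, P11, P12) -/

theorem pos_general (h : Adm d m r) : ∃ (N : ℕ) (y₀ : ℤ) (C0 : ℝ), 1 ≤ N ∧ 1 ≤ C0 ∧
    ∀ S : Set ℤ, Inv d m r S → ∀ z ∈ S, (PP d m : ℤ) ^ N ∣ z - y₀ → C0 < |(z : ℝ)| →
      (∀ j : ℕ, 1 ≤ j → (Tm d m r)^[j] z ≠ z) →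
      ¬ (Tendsto (fun X : ℝ => G S 1 X / X) atTop (𝓝 0) ∧
          Tendsto (fun X : ℝ => G S (-1) X / X) atTop (𝓝 0)) ∧
      ((∀ i < d, 0 < m i) → ∀ σ : ℤ, (σ = 1 ∨ σ = -1) → 0 < σ * z →
        ¬ Tendsto (fun X : ℝ => G S σ X / X) atTop (𝓝 0)) := by sorry

/-! ### P14 : file P14.lean, powers of `d` -/

/-- the powers of `d` congruent to `1` fill a ball -/
theorem powers {d μ : ℕ} (hd : 2 ≤ d) (hμ : 2 ≤ μ) (hc : Nat.Coprime μ d) :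
    ∃ (f D : ℕ), 0 < f ∧ 0 < D ∧ μ ∣ D ∧ ∀ (B : ℕ) (τ : ℤ) (t₀ : ℕ), ∃ t : ℕ, t₀ ≤ t ∧
      ((μ : ℤ)) ^ B ∣ (d : ℤ) ^ (f * t) - 1 - D * τ := by sorry

/-! ### P15 : file P15.lean, hitting residue classes for Moeller maps (uses P1, P14) -/

/-- `s` = number of nonzero letters of the itinerary from `x` to `z = T^k x` -/
theorem hit (h : Adm d m r) {μ : ℕ} (hM : Mol d μ m r) : ∃ D : ℕ, 0 < D ∧
    ∀ S : Set ℤ, Inv d m r S → ∀ x ∈ S, ∀ (k s : ℕ) (z : ℤ), z = (Tm d m r)^[k] x → z ≠ 0 →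
      (((wd d m r k x).filter (fun i => i ≠ 0)).length = s + 1) →
      (∀ p : ℕ, p.Prime → p ∣ μ → padicValInt p (D * z) ≤ s * padicValNat p μ) →
      ∀ (N : ℕ) (y₀ : ℤ) (Y : ℝ), ∃ z' ∈ S, (μ : ℤ) ^ N ∣ z' - y₀ ∧ Y < |(z' : ℝ)| ∧ 0 < z * z' ∧
        ∀ j : ℕ, 1 ≤ j → (Tm d m r)^[j] z' ≠ z' := by sorry

/-! ### P16 : file P16.lean, which points satisfy the condition of `hit` (uses P1) -/

/-- nonzero periodic points -/
theorem cond_periodic (h : Adm d m r) {μ : ℕ} (hM : Mol d μ m r) {x : ℤ} (hx : x ≠ 0) {p : ℕ}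
    (hp : 1 ≤ p) (hper : (Tm d m r)^[p] x = x) (D : ℕ) (hD : 0 < D) :
    ∃ k s : ℕ, (Tm d m r)^[k] x = x ∧ ((wd d m r k x).filter (fun i => i ≠ 0)).length = s + 1 ∧
      ∀ q : ℕ, q.Prime → q ∣ μ → padicValInt q (D * x) ≤ s * padicValNat q μ := by sorry

/-- trajectories that do not reach `0`, if all `r_i` are prime to `μ` or `μ` is a prime power -/
theorem cond_general (h : Adm d m r) {μ : ℕ} (hM : Mol d μ m r)
    (hc : (∀ i, 1 ≤ i → i < d → IsCoprime (r i) (μ : ℤ)) ∨ IsPrimePow μ) {x : ℤ}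
    (hx : ∀ k : ℕ, (Tm d m r)^[k] x ≠ 0) (D : ℕ) (hD : 0 < D) :
    ∀ k₀ : ℕ, ∃ k s : ℕ, k₀ ≤ k ∧ ((wd d m r k x).filter (fun i => i ≠ 0)).length = s + 1 ∧
      ∀ q : ℕ, q.Prime → q ∣ μ →
        padicValInt q (D * (Tm d m r)^[k] x) ≤ s * padicValNat q μ := by sorry

/-! ### P17 : file P17.lean, Moeller maps (uses P13, P15, P16) -/

/-- a nonzero periodic point: positive density on its side -/
theorem moeller_cycle (h : Adm d m r) {μ : ℕ} (hμ : 2 ≤ μ) (hM : Mol d μ m r) {S : Set ℤ}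
    (hS : Inv d m r S) {x : ℤ} (hxS : x ∈ S) {p : ℕ} (hp : 1 ≤ p)
    (hper : (Tm d m r)^[p] x = x) {σ : ℤ} (hσ : σ = 1 ∨ σ = -1) (hx : 0 < σ * x) :
    ¬ Tendsto (fun X : ℝ => G S σ X / X) atTop (𝓝 0) := by sorry

/-- any invariant set that does not contain `0` -/
theorem moeller_general (h : Adm d m r) {μ : ℕ} (hμ : 2 ≤ μ) (hM : Mol d μ m r)
    (hc : (∀ i, 1 ≤ i → i < d → IsCoprime (r i) (μ : ℤ)) ∨ IsPrimePow μ) {S : Set ℤ}
    (hS : Inv d m r S) (hne : S.Nonempty) (h0 : (0 : ℤ) ∉ S) :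
    ¬ (Tendsto (fun X : ℝ => G S 1 X / X) atTop (𝓝 0) ∧
          Tendsto (fun X : ℝ => G S (-1) X / X) atTop (𝓝 0)) := by sorry

end Pool.Agent.H319R3.PO.Stubs
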