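import Pool.Agent.H319R3.PO.Defs
import Pool.Agent.H319R3.GC.S3

/-! Blueprint, second part: positive densities without the hypotheses on `z` (statements with
`sorry`). Never import this file in a hand-in. -/

set_option autoImplicit false

namespace Pool.Agent.H319R3.PO.Stubs2
open Pool.Agent.H319R3.GC Pool.Agent.H319R3.DN Pool.Agent.H319R3.PO Finset Filter Topology

variable {d : ℕ} {m r : ℕ → ℤ}

/-! ### P18 : file P18.lean, lower bound of the harmonic sum for every `z` (uses P1, P2; generalises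
P11) -/

theorem harm_lower2 (h : Adm d m r) {η c C0 : ℝ} {N0 N : ℕ} (hn : NB d m r η c C0 N0) {z : ℤ}
    (hU : ∀ k : ℕ, N ≤ k → 1 / 2 ≤ U d m r η N0 k z) {S : Set ℤ} (hS : Inv d m r S) (hzS : z ∈ S) :
    ∃ (c' : ℝ) (X₀ : ℕ), 0 < c' ∧
      ∀ X : ℕ, X₀ ≤ X → c' * Real.log X ≤ HS S 1 X + HS S (-1) X := by sorry

/-! ### P19 : file P19.lean, positivity for every element of a residue class (uses P10, P12, P18) -/

theorem pos_general2 (h : Adm d m r) : ∃ (N : ℕ) (y₀ : ℤ), 1 ≤ N ∧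
    ∀ S : Set ℤ, Inv d m r S → ∀ z ∈ S, (PP d m : ℤ) ^ N ∣ z - y₀ →
      ¬ (Tendsto (fun X : ℝ => G S 1 X / X) atTop (𝓝 0) ∧
          Tendsto (fun X : ℝ => G S (-1) X / X) atTop (𝓝 0)) := by sorry

end Pool.Agent.H319R3.PO.Stubs2
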